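import Pool.Agent.Run7.h352.RL.Stm
import Pool.Agent.Y813.RL.Bf

set_option autoImplicit false

/-!
# Piece GEED of the project on MP_f1d0b6_nt (written by helper690)

Facts on the lattice `2E₈ + D₄`.
-/

namespace Pool.Agent.Run7.h352.RL.GEED

open Matrix Pool.Agent.Y813.RL Pool.Agent.Run7.h352.RL

/-- inverse of the Cartan matrix of type `E₈` -/
def E8i : Matrix (Fin 8) (Fin 8) ℤ :=
  !![4, 5, 7, 10, 8, 6, 4, 2;
     5, 8, 10, 15, 12, 9, 6, 3;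
     7, 10, 14, 20, 16, 12, 8, 4;
     10, 15, 20, 30, 24, 18, 12, 6;
     8, 12, 16, 24, 20, 15, 10, 5;
     6, 9, 12, 18, 15, 12, 8, 4;
     4, 6, 8, 12, 10, 8, 6, 3;
     2, 3, 4, 6, 5, 4, 3, 2]

/-- twice the inverse of the Cartan matrix of type `D₄` -/
def D4i : Matrix (Fin 4) (Fin 4) ℤ :=
  !![2, 2, 1, 1;
     2, 4, 2, 2;
     1, 2, 2, 1;
     1, 2, 1, 2]

theorem e8_inv : CartanMatrix.E₈ * E8i = 1 := by decide

theorem d4_inv : CartanMatrix.D 4 * D4i = (2 : ℤ) • (1 : Matrix (Fin 4) (Fin 4) ℤ) := by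
  rw [CartanMatrix.D_four]
  decide

theorem d4_det : (CartanMatrix.D 4).det = 4 := by
  rw [CartanMatrix.D_four]
  decide

theorem det_eq : gramEED.det = 4 := by
  unfold gramEED
  rw [det_fromBlocks_zero₂₁, det_fromBlocks_zero₂₁, CartanMatrix.E₈_det, d4_det]
  norm_num

/-- the adjugate -/
def XX : Matrix (Fin 8 ⊕ (Fin 8 ⊕ Fin 4)) (Fin 8 ⊕ (Fin 8 ⊕ Fin 4)) ℤ :=
  fromBlocks ((4 : ℤ) • E8i) 0 0 (fromBlocks ((4 : ℤ) • E8i) 0 0 ((2 : ℤ) • D4i))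

theorem mul_XX : gramEED * XX = (4 : ℤ) • 1 := by
  unfold gramEED XX
  rw [fromBlocks_multiply, fromBlocks_multiply]
  simp only [Matrix.mul_smul, e8_inv, d4_inv, Matrix.mul_zero, Matrix.zero_mul, add_zero, zero_add,
    smul_smul]
  rw [show ((2 : ℤ) * 2) = 4 by norm_num, ← fromBlocks_one, ← fromBlocks_one, fromBlocks_smul,
    fromBlocks_smul, smul_zero, smul_zero]
  simp

theorem adj_eq : gramEED.adjugate = XX := by
  have h1 : (4 : ℤ) • gramEED.adjugate = (4 : ℤ) • XX := by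
    calc (4 : ℤ) • gramEED.adjugate = gramEED.adjugate * ((4 : ℤ) • 1) := by
          rw [Matrix.mul_smul, Matrix.mul_one]
      _ = gramEED.adjugate * (gramEED * XX) := by rw [mul_XX]
      _ = (4 : ℤ) • XX := by
          rw [← Matrix.mul_assoc, adjugate_mul, det_eq, smul_mul, Matrix.one_mul]
  ext i j
  have h2 := congrFun (congrFun h1 i) j
  simp only [Matrix.smul_apply, smul_eq_mul] at h2
  omega

theorem e8_even (a : Fin 8 → ℤ) : ∃ k : ℤ, ∑ i, a i * (E8i.mulVec a) i = 2 * k := by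
  refine ⟨2 * a 0 * a 0 + 5 * a 0 * a 1 + 7 * a 0 * a 2 + 10 * a 0 * a 3 + 8 * a 0 * a 4 +
    6 * a 0 * a 5 + 4 * a 0 * a 6 + 2 * a 0 * a 7 + 4 * a 1 * a 1 + 10 * a 1 * a 2 +
    15 * a 1 * a 3 + 12 * a 1 * a 4 + 9 * a 1 * a 5 + 6 * a 1 * a 6 + 3 * a 1 * a 7 +
    7 * a 2 * a 2 + 20 * a 2 * a 3 + 16 * a 2 * a 4 + 12 * a 2 * a 5 + 8 * a 2 * a 6 +
    4 * a 2 * a 7 + 15 * a 3 * a 3 + 24 * a 3 * a 4 + 18 * a 3 * a 5 + 12 * a 3 * a 6 +
    6 * a 3 * a 7 + 10 * a 4 * a 4 + 15 * a 4 * a 5 + 10 * a 4 * a 6 + 5 * a 4 * a 7 +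
    6 * a 5 * a 5 + 8 * a 5 * a 6 + 4 * a 5 * a 7 + 3 * a 6 * a 6 + 3 * a 6 * a 7 +
    1 * a 7 * a 7, ?_⟩
  simp [E8i, Matrix.mulVec, dotProduct, Fin.sum_univ_eight]
  ring

theorem d4_form (c : Fin 4 → ℤ) : ∑ i, c i * (D4i.mulVec c) i =
    2 * (c 0 * c 0 + c 2 * c 2 + c 3 * c 3 + c 0 * c 2 + c 0 * c 3 + c 2 * c 3) +
      4 * (c 1 * c 1 + c 0 * c 1 + c 1 * c 2 + c 1 * c 3) := by
  simp [D4i, Matrix.mulVec, dotProduct, Fin.sum_univ_four]
  ring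

theorem odd_disc : OddDisc gramEED := by
  intro μ
  set a : Fin 8 → ℤ := fun i => μ (.inl i) with ha
  set b : Fin 8 → ℤ := fun i => μ (.inr (.inl i)) with hb
  set c : Fin 4 → ℤ := fun i => μ (.inr (.inr i)) with hc
  have hμ : μ = Sum.elim a (Sum.elim b c) := by
    funext i
    rcases i with i | i | i <;> rfl
  have hsum : ∑ i, μ i * (gramEED.adjugate.mulVec μ) i = 4 * ∑ i, a i * (E8i.mulVec a) i +
      (4 * ∑ i, b i * (E8i.mulVec b) i + 2 * ∑ i, c i * (D4i.mulVec c) i) := by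
    rw [adj_eq, hμ]
    unfold XX
    rw [fromBlocks_mulVec, fromBlocks_mulVec]
    simp only [Fintype.sum_sum_type, Sum.elim_inl, Sum.elim_inr, Function.comp_def,
      Matrix.zero_mulVec, add_zero, zero_add, Matrix.smul_mulVec,
      Pi.smul_apply, smul_eq_mul, Finset.mul_sum]
    congr 1
    · refine Finset.sum_congr rfl fun i _ => ?_
      ring
    · congr 1
      · refine Finset.sum_congr rfl fun i _ => ?_
        ring
      · refine Finset.sum_congr rfl fun i _ => ?_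
        ring
  obtain ⟨k₁, hk₁⟩ := e8_even a
  obtain ⟨k₂, hk₂⟩ := e8_even b
  rw [hsum, hk₁, hk₂, d4_form]
  by_cases hpar : (∃ s, c 2 = c 0 + 2 * s) ∧ ∃ t, c 3 = c 0 + 2 * t
  · left
    obtain ⟨⟨s, hs⟩, t, ht⟩ := hpar
    refine ⟨Sum.elim (E8i.mulVec a) (Sum.elim (E8i.mulVec b)
      ![2 * c 0 + c 1 + s + t, 3 * c 0 + 2 * c 1 + 2 * s + 2 * t, 2 * c 0 + c 1 + 2 * s + t,
        2 * c 0 + c 1 + s + 2 * t]), ?_⟩
    unfold gramEED
    rw [fromBlocks_mulVec, fromBlocks_mulVec, hμ]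
    have h1 : ∀ a : Fin 8 → ℤ, CartanMatrix.E₈.mulVec (E8i.mulVec a) = a := by
      intro a
      rw [mulVec_mulVec, e8_inv, one_mulVec]
    have h2 : (CartanMatrix.D 4).mulVec ![2 * c 0 + c 1 + s + t, 3 * c 0 + 2 * c 1 + 2 * s + 2 * t,
        2 * c 0 + c 1 + 2 * s + t, 2 * c 0 + c 1 + s + 2 * t] = c := by
      rw [CartanMatrix.D_four]
      funext i
      fin_cases i
      · simp [Matrix.mulVec, dotProduct, Fin.sum_univ_four]
        ring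
      · simp [Matrix.mulVec, dotProduct, Fin.sum_univ_four]
        ring
      · simp [Matrix.mulVec, dotProduct, Fin.sum_univ_four]
        rw [hs]
        ring
      · simp [Matrix.mulVec, dotProduct, Fin.sum_univ_four]
        rw [ht]
        ring
    simp only [Sum.elim_comp_inl, Sum.elim_comp_inr, Matrix.zero_mulVec, add_zero, zero_add, h1, h2]
  · right
    have hpar2 : ¬ ((c 2 - c 0) % 2 = 0 ∧ (c 3 - c 0) % 2 = 0) := by
      rintro ⟨h1, h2⟩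
      exact hpar ⟨⟨(c 2 - c 0) / 2, by omega⟩, ⟨(c 3 - c 0) / 2, by omega⟩⟩
    have hQ : ∃ q, c 0 * c 0 + c 2 * c 2 + c 3 * c 3 + c 0 * c 2 + c 0 * c 3 + c 2 * c 3 =
        2 * q + 1 := by
      rcases Int.even_or_odd' (c 0) with ⟨p, h0 | h0⟩ <;>
      rcases Int.even_or_odd' (c 2) with ⟨r, h2 | h2⟩ <;>
      rcases Int.even_or_odd' (c 3) with ⟨w, h3 | h3⟩ <;>
      rw [h0, h2, h3] at hpar2 ⊢
      · exact absurd ⟨by omega, by omega⟩ hpar2
      · exact ⟨2 * p * p + 2 * r * r + 2 * w * w + 2 * w + 2 * p * r + p * (2 * w + 1) +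
          r * (2 * w + 1), by ring⟩
      · exact ⟨2 * p * p + 2 * r * r + 2 * r + 2 * w * w + p * (2 * r + 1) + 2 * p * w +
          w * (2 * r + 1), by ring⟩
      · exact ⟨2 * p * p + 2 * r * r + 2 * r + 2 * w * w + 2 * w + p * (2 * r + 1) +
          p * (2 * w + 1) + 2 * r * w + r + w + 1, by ring⟩
      · exact ⟨2 * p * p + 2 * p + 2 * r * r + 2 * w * w + (2 * p + 1) * r + (2 * p + 1) * w +
          2 * r * w, by ring⟩
      · exact ⟨2 * p * p + 2 * p + 2 * r * r + 2 * w * w + 2 * w + (2 * p + 1) * r +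
          2 * p * w + p + w + r * (2 * w + 1) + 1, by ring⟩
      · exact ⟨2 * p * p + 2 * p + 2 * r * r + 2 * r + 2 * w * w + 2 * p * r + p + r +
          (2 * p + 1) * w + w * (2 * r + 1) + 1, by ring⟩
      · exact absurd ⟨by omega, by omega⟩ hpar2
    obtain ⟨q, hq⟩ := hQ
    rw [hq]
    exact ⟨k₁ + k₂ + q + (c 1 * c 1 + c 0 * c 1 + c 1 * c 2 + c 1 * c 3), by ring⟩

theorem bf_blocks {ι κ : Type*} [Fintype ι] [Fintype κ] (A : Matrix ι ι ℤ) (B : Matrix κ κ ℤ)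
    (x y : ι ⊕ κ → ℝ) : bf (fromBlocks A 0 0 B) x y =
      bf A (fun i => x (.inl i)) (fun i => y (.inl i)) +
        bf B (fun i => x (.inr i)) (fun i => y (.inr i)) := by
  simp [bf, Fintype.sum_sum_type]

theorem e8_sq (x : Fin 8 → ℝ) : bf CartanMatrix.E₈ x x = 2 * (x 0 - x 2 / 2) ^ 2 +
    3 / 2 * (x 2 - 2 / 3 * x 3) ^ 2 + 2 * (x 1 - x 3 / 2) ^ 2 + 2 * (x 7 - x 6 / 2) ^ 2 +
    3 / 2 * (x 6 - 2 / 3 * x 5) ^ 2 + 4 / 3 * (x 5 - 3 / 4 * x 4) ^ 2 +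
    5 / 4 * (x 4 - 4 / 5 * x 3) ^ 2 + 1 / 30 * x 3 ^ 2 := by
  simp [bf, CartanMatrix.E₈, Fin.sum_univ_eight]
  ring

theorem d4_sq (x : Fin 4 → ℝ) : bf (CartanMatrix.D 4) x x = 2 * (x 0 - x 1 / 2) ^ 2 +
    2 * (x 2 - x 1 / 2) ^ 2 + 2 * (x 3 - x 1 / 2) ^ 2 + 1 / 2 * x 1 ^ 2 := by
  rw [CartanMatrix.D_four]
  simp [bf, Fin.sum_univ_four]
  ring

theorem sum_sq_zero {a b : ℝ} (ha : 0 ≤ a) (hb : 0 ≤ b) (h : a + b ≤ 0) : a ≤ 0 ∧ b ≤ 0 :=
  ⟨by linarith, by linarith⟩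

theorem e8_nonneg (x : Fin 8 → ℝ) : 0 ≤ bf CartanMatrix.E₈ x x := by
  rw [e8_sq]
  positivity

theorem d4_nonneg (x : Fin 4 → ℝ) : 0 ≤ bf (CartanMatrix.D 4) x x := by
  rw [d4_sq]
  positivity

theorem sq0 {a : ℝ} (h : a ^ 2 ≤ 0) : a = 0 := by
  have := sq_nonneg a
  exact pow_eq_zero_iff (two_ne_zero) |>.1 (le_antisymm h this)

theorem e8_zero (x : Fin 8 → ℝ) (h : bf CartanMatrix.E₈ x x ≤ 0) : x = 0 := by
  rw [e8_sq] at h
  have p1 := sq_nonneg (x 0 - x 2 / 2)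
  have p2 := sq_nonneg (x 2 - 2 / 3 * x 3)
  have p3 := sq_nonneg (x 1 - x 3 / 2)
  have p4 := sq_nonneg (x 7 - x 6 / 2)
  have p5 := sq_nonneg (x 6 - 2 / 3 * x 5)
  have p6 := sq_nonneg (x 5 - 3 / 4 * x 4)
  have p7 := sq_nonneg (x 4 - 4 / 5 * x 3)
  have p8 := sq_nonneg (x 3)
  have q3 := sq0 (show x 3 ^ 2 ≤ 0 by linarith)
  have q4 := sq0 (show (x 4 - 4 / 5 * x 3) ^ 2 ≤ 0 by linarith)
  have q5 := sq0 (show (x 5 - 3 / 4 * x 4) ^ 2 ≤ 0 by linarith)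
  have q6 := sq0 (show (x 6 - 2 / 3 * x 5) ^ 2 ≤ 0 by linarith)
  have q7 := sq0 (show (x 7 - x 6 / 2) ^ 2 ≤ 0 by linarith)
  have q1 := sq0 (show (x 1 - x 3 / 2) ^ 2 ≤ 0 by linarith)
  have q2 := sq0 (show (x 2 - 2 / 3 * x 3) ^ 2 ≤ 0 by linarith)
  have q0 := sq0 (show (x 0 - x 2 / 2) ^ 2 ≤ 0 by linarith)
  funext i
  fin_cases i
  · show x 0 = 0
    linarith
  · show x 1 = 0
    linarith
  · show x 2 = 0
    linarith
  · show x 3 = 0
    linarith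
  · show x 4 = 0
    linarith
  · show x 5 = 0
    linarith
  · show x 6 = 0
    linarith
  · show x 7 = 0
    linarith

theorem d4_zero (x : Fin 4 → ℝ) (h : bf (CartanMatrix.D 4) x x ≤ 0) : x = 0 := by
  rw [d4_sq] at h
  have p1 := sq_nonneg (x 0 - x 1 / 2)
  have p2 := sq_nonneg (x 2 - x 1 / 2)
  have p3 := sq_nonneg (x 3 - x 1 / 2)
  have p4 := sq_nonneg (x 1)
  have q1 := sq0 (show x 1 ^ 2 ≤ 0 by linarith)
  have q0 := sq0 (show (x 0 - x 1 / 2) ^ 2 ≤ 0 by linarith)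
  have q2 := sq0 (show (x 2 - x 1 / 2) ^ 2 ≤ 0 by linarith)
  have q3 := sq0 (show (x 3 - x 1 / 2) ^ 2 ≤ 0 by linarith)
  funext i
  fin_cases i
  · show x 0 = 0
    linarith
  · show x 1 = 0
    linarith
  · show x 2 = 0
    linarith
  · show x 3 = 0
    linarith

theorem geed : JobGEED := by
  refine ⟨?_, ?_, det_eq, odd_disc, ?_⟩
  · unfold gramEED
    exact IsSymm.fromBlocks CartanMatrix.E₈_isSymm (by simp)
      (IsSymm.fromBlocks CartanMatrix.E₈_isSymm (by simp) (CartanMatrix.D_isSymm 4))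
  · rintro (i | i | i)
    · exact ⟨1, by show CartanMatrix.E₈ i i = 1 + 1; simp⟩
    · exact ⟨1, by show CartanMatrix.E₈ i i = 1 + 1; simp⟩
    · exact ⟨1, by show CartanMatrix.D 4 i i = 1 + 1; simp⟩
  · intro x hx
    by_contra hcon
    push Not at hcon
    apply hx
    unfold gramEED at hcon
    rw [bf_blocks, bf_blocks] at hcon
    have h1 := e8_nonneg (fun i => x (.inl i))
    have h2 := e8_nonneg (fun i => x (.inr (.inl i)))
    have h3 := d4_nonneg (fun i => x (.inr (.inr i)))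
    have e1 := e8_zero _ (show bf CartanMatrix.E₈ (fun i => x (.inl i)) (fun i => x (.inl i)) ≤ 0 by
      linarith)
    have e2 := e8_zero _ (show bf CartanMatrix.E₈ (fun i => x (.inr (.inl i)))
      (fun i => x (.inr (.inl i))) ≤ 0 by linarith)
    have e3 := d4_zero _ (show bf (CartanMatrix.D 4) (fun i => x (.inr (.inr i)))
      (fun i => x (.inr (.inr i))) ≤ 0 by linarith)
    funext i
    rcases i with i | i | i
    · exact congrFun e1 i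
    · exact congrFun e2 i
    · exact congrFun e3 i

end Pool.Agent.Run7.h352.RL.GEED
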