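import Pool.Agent.Run7.h352.RL.Stm

set_option autoImplicit false

/-!
# GREAL: positive definite forms of the same rank are isometric over the reals
-/

namespace Pool.Agent.Run7.h352.RL.GREAL

open Matrix Pool.Agent.Y813.RL

theorem bf_eq_dot {ι : Type} [Fintype ι] (B : Matrix ι ι ℤ) (x y : ι → ℝ) :
    bf B x y = x ⬝ᵥ (B.map (Int.cast : ℤ → ℝ)) *ᵥ y := by
  simp [bf, dotProduct, mulVec, Finset.mul_sum, mul_assoc]

theorem chol {ι : Type} [Fintype ι] [DecidableEq ι] (B : Matrix ι ι ℤ) (hs : B.IsSymm)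
    (hp : ∀ x : ι → ℝ, x ≠ 0 → 0 < bf B x x) :
    ∃ e : (ι → ℝ) ≃ₗ[ℝ] (ι → ℝ), ∀ x y, bf B x y = e x ⬝ᵥ e y := by
  have hH : (B.map (Int.cast : ℤ → ℝ)).IsHermitian := by
    ext i j
    simp only [conjTranspose_apply, map_apply, star_trivial]
    rw [hs.apply]
  have hPD : (B.map (Int.cast : ℤ → ℝ)).PosDef :=
    PosDef.of_dotProduct_mulVec_pos hH (fun x hx => by
      have := hp x hx
      rwa [bf_eq_dot] at this)
  have hev := hPD.eigenvalues_pos
  have hsp := hH.spectral_theorem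
  rw [Unitary.conjStarAlgAut_apply] at hsp
  set U : Matrix ι ι ℝ := (hH.eigenvectorUnitary : Matrix ι ι ℝ) with hU
  set D : Matrix ι ι ℝ := diagonal (fun i => Real.sqrt (hH.eigenvalues i)) with hD
  have hDD : D * D = diagonal (RCLike.ofReal ∘ hH.eigenvalues) := by
    rw [hD, diagonal_mul_diagonal]
    congr 1
    funext i
    simp [Real.mul_self_sqrt (hev i).le]
  have hDt : Dᵀ = D := by rw [hD, diagonal_transpose]
  set S : Matrix ι ι ℝ := D * star U with hS
  have hMS : B.map (Int.cast : ℤ → ℝ) = Sᵀ * S := by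
    rw [hS, transpose_mul, hDt, hsp, ← hDD]
    have : (star U)ᵀ = U := by
      rw [star_eq_conjTranspose, conjTranspose_eq_transpose_of_trivial, transpose_transpose]
    rw [this]
    simp only [Matrix.mul_assoc]
  have hdet : IsUnit S.det := by
    have h1 : (B.map (Int.cast : ℤ → ℝ)).det ≠ 0 := hPD.det_pos.ne'
    rw [hMS, det_mul, det_transpose] at h1
    exact isUnit_iff_ne_zero.2 (left_ne_zero_of_mul h1)
  refine ⟨LinearEquiv.ofBijective (Matrix.mulVecLin S) ?_, fun x y => ?_⟩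
  · have := (Matrix.mulVec_injective_iff_isUnit (A := S)).2 ((Matrix.isUnit_iff_isUnit_det S).2 hdet)
    exact ⟨this, (LinearMap.injective_iff_surjective (f := Matrix.mulVecLin S)).1 this⟩
  · simp only [LinearEquiv.ofBijective_apply, Matrix.mulVecLin_apply]
    rw [bf_eq_dot, hMS, ← mulVec_mulVec, dotProduct_mulVec, vecMul_transpose]

theorem gReal : JobGReal := by
  intro ι κ _ _ _ _ hcard B C hB hC hBp hCp
  obtain ⟨e, he⟩ := chol B hB hBp
  obtain ⟨f, hf⟩ := chol C hC hCp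
  obtain ⟨σ⟩ : Nonempty (ι ≃ κ) := Fintype.card_eq.1 hcard
  let g : (ι → ℝ) ≃ₗ[ℝ] (κ → ℝ) := LinearEquiv.funCongrLeft ℝ ℝ σ.symm
  refine ⟨(e.trans g).trans f.symm, fun x y => ?_⟩
  rw [hf, he]
  simp only [LinearEquiv.trans_apply, LinearEquiv.apply_symm_apply]
  simp only [dotProduct, g, LinearEquiv.funCongrLeft_apply, LinearMap.funLeft_apply]
  exact Equiv.sum_comp σ.symm (fun i => e x i * e y i)

end Pool.Agent.Run7.h352.RL.GREAL
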