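import Pool.Agent.Run7.h352.RL.Stm
import Pool.Agent.R396.F.Th1a

set_option autoImplicit false

/-! Part THETA1 of project RL2 (by helper37): Fourier expansion of Jacobi forms. -/

namespace Pool.Agent.Run7.h352.RL.THETA1

open MeasureTheory Complex Set Topology Pool.Agent.Y813.RL Pool.Agent.R396.F

noncomputable section

theorem ee_add (x y : ℂ) : ee (x + y) = ee x * ee y := by
  unfold ee
  rw [← Complex.exp_add]
  congr 1
  ring

theorem ee_neg_mul (x : ℂ) : ee (-x) * ee x = 1 := by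
  rw [← ee_add, neg_add_cancel]
  simp [ee]

theorem ee_int (n : ℤ) : ee (n : ℂ) = 1 := by
  unfold ee
  rw [Complex.exp_eq_one_iff]
  exact ⟨n, by ring⟩

theorem norm_ee (x : ℂ) : ‖ee x‖ = Real.exp (-(2 * Real.pi * x.im)) := by
  unfold ee
  rw [Complex.norm_exp]
  congr 1
  have : (2 * (Real.pi : ℂ) * Complex.I * x) = ((2 * Real.pi : ℝ) : ℂ) * (Complex.I * x) := by
    push_cast; ring
  rw [this, Complex.re_ofReal_mul]
  simp

theorem ee_differentiable : Differentiable ℂ ee := by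
  unfold ee
  fun_prop

theorem dt_add (μ : Fin 20 → ℤ) (x y : Fin 20 → ℂ) :
    dt μ (fun i => x i + y i) = dt μ x + dt μ y := by
  simp [dt, mul_add, Finset.sum_add_distrib]

theorem dt_int (μ v : Fin 20 → ℤ) : dt μ (fun i => (v i : ℂ)) = ((dt μ v : ℤ) : ℂ) := by
  simp [dt]

theorem dt_differentiable (μ : Fin 20 → ℤ) :
    Differentiable ℂ (fun z : Fin 20 → ℂ => dt μ z) := by
  unfold dt
  fun_prop

theorem dt_continuous_real (μ : Fin 20 → ℤ) :
    Continuous (fun y : Fin 20 → ℝ => dt μ (fun i => (y i : ℂ))) := by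
  unfold dt
  fun_prop

/-- the twisted function is entire and periodic -/
theorem twist_per {F : (Fin 20 → ℂ) → ℂ}
    (hper : ∀ z (v : Fin 20 → ℤ), F (fun i => z i + (v i : ℂ)) = F z) (μ : Fin 20 → ℤ) :
    ∀ z (v : Fin 20 → ℤ), F (fun i => z i + (v i : ℂ)) * ee (-(dt μ (fun i => z i + (v i : ℂ)))) =
      F z * ee (-(dt μ z)) := by
  intro z v
  rw [hper, dt_add, dt_int, neg_add, ee_add]
  have : (-((dt μ v : ℤ) : ℂ)) = ((-(dt μ v) : ℤ) : ℂ) := by push_cast; ring
  rw [this, ee_int, mul_one]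

theorem twist_diff {F : (Fin 20 → ℂ) → ℂ} (hF : Differentiable ℂ F) (μ : Fin 20 → ℤ) :
    Differentiable ℂ (fun z : Fin 20 → ℂ => F z * ee (-(dt μ z))) :=
  hF.mul (ee_differentiable.comp (dt_differentiable μ).neg)

/-- the Fourier coefficients of an entire periodic function are small -/
theorem coeff_bound {F : (Fin 20 → ℂ) → ℂ} (hF : Differentiable ℂ F)
    (hper : ∀ z (v : Fin 20 → ℤ), F (fun i => z i + (v i : ℂ)) = F z) :
    ∃ M : ℝ, ∀ μ : Fin 20 → ℤ,
      ‖∫ y in Icc (0 : Fin 20 → ℝ) 1, F (fun i => (y i : ℂ)) * ee (-(dt μ (fun i => (y i : ℂ))))‖ ≤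
        M * ∏ i, Real.exp (-(2 * Real.pi * |(μ i : ℝ)|)) := by
  obtain ⟨M, hM⟩ := (isCompact_closedBall (0 : Fin 20 → ℂ) 2).exists_bound_of_continuousOn
    hF.continuous.continuousOn
  refine ⟨M, fun μ => ?_⟩
  obtain ⟨sg, hsg, hsg2⟩ : ∃ sg : Fin 20 → ℝ, (∀ i, |sg i| ≤ 1) ∧
      ∀ i, (μ i : ℝ) * sg i = |(μ i : ℝ)| := by
    refine ⟨fun i => if (μ i : ℝ) < 0 then -1 else 1, fun i => ?_, fun i => ?_⟩
    · simp only
      split_ifs <;> simp
    · simp only
      split_ifs with h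
      · rw [abs_of_neg h]; ring
      · rw [abs_of_nonneg (not_lt.1 h), mul_one]
  let w : Fin 20 → ℂ := fun i => -(Complex.I * (sg i : ℂ))
  have h1 := shift_const (twist_diff hF μ) (twist_per hper μ) w
  rw [← h1]
  have hvol : (volume : Measure (Fin 20 → ℝ)).real (Icc (0 : Fin 20 → ℝ) 1) = 1 := by
    rw [Measure.real, Real.volume_Icc_pi]
    simp
  refine (norm_setIntegral_le_of_norm_le_const (C := M * ∏ i, Real.exp (-(2 * Real.pi * |(μ i : ℝ)|)))
    isCompact_Icc.measure_lt_top ?_).trans (by rw [hvol, mul_one])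
  intro y hy
  rw [norm_mul]
  have hb : ‖F (fun i => w i + (y i : ℂ))‖ ≤ M := by
    apply hM
    rw [mem_closedBall_zero_iff, pi_norm_le_iff_of_nonneg (by norm_num)]
    intro i
    have h2 : ‖w i‖ ≤ 1 := by
      simp only [w, norm_neg, norm_mul, Complex.norm_I, one_mul, Complex.norm_real,
        Real.norm_eq_abs]
      exact hsg i
    have h3 : ‖(y i : ℂ)‖ ≤ 1 := by
      rw [Complex.norm_real, Real.norm_eq_abs, abs_le]
      exact ⟨by linarith [hy.1 i, show (0 : Fin 20 → ℝ) i = 0 from rfl], hy.2 i⟩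
    calc ‖w i + (y i : ℂ)‖ ≤ ‖w i‖ + ‖(y i : ℂ)‖ := norm_add_le _ _
      _ ≤ 2 := by linarith
  have he : ‖ee (-(dt μ (fun i => w i + (y i : ℂ))))‖ =
      ∏ i, Real.exp (-(2 * Real.pi * |(μ i : ℝ)|)) := by
    rw [norm_ee, ← Real.exp_sum]
    congr 1
    rw [Finset.sum_neg_distrib, ← Finset.mul_sum]
    congr 2
    rw [Complex.neg_im, dt, Complex.im_sum, ← Finset.sum_neg_distrib]
    refine Finset.sum_congr rfl fun i _ => ?_
    have h2 : ((μ i : ℂ) * (w i + (y i : ℂ))).im = -((μ i : ℝ) * sg i) := by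
      simp [w, Complex.mul_im]
    rw [h2, neg_neg, hsg2]
  rw [he]
  exact mul_le_mul_of_nonneg_right hb (Finset.prod_nonneg fun i _ => (Real.exp_pos _).le)

/-- the Fourier series at the origin -/
theorem hasSum_zero {F : (Fin 20 → ℂ) → ℂ} (hF : Differentiable ℂ F)
    (hper : ∀ z (v : Fin 20 → ℤ), F (fun i => z i + (v i : ℂ)) = F z) :
    HasSum (fun μ : Fin 20 → ℤ =>
      ∫ y in Icc (0 : Fin 20 → ℝ) 1, F (fun i => (y i : ℂ)) * ee (-(dt μ (fun i => (y i : ℂ)))))
      (F 0) := by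
  obtain ⟨H, hH⟩ := descend_cont (h := fun y : Fin 20 → ℝ => F (fun i => (y i : ℂ)))
    (by
      refine hF.continuous.comp ?_
      fun_prop)
    (fun y v => by
      have := hper (fun i => (y i : ℂ)) v
      rw [← this]
      congr 1
      funext i
      push_cast
      ring)
  have hco : ∀ μ : Fin 20 → ℤ, UnitAddTorus.mFourierCoeff H μ =
      ∫ y in Icc (0 : Fin 20 → ℝ) 1, F (fun i => (y i : ℂ)) *
        ee (-(dt μ (fun i => (y i : ℂ)))) := by
    intro μ
    rw [UnitAddTorus.mFourierCoeff_eq_integral H μ 0, ← integral_cu]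
    refine integral_congr_ae (Filter.Eventually.of_forall (fun y => ?_))
    have h3 : H (fun i => (y i : UnitAddCircle)) = F (fun i => (y i : ℂ)) := hH y
    have h4 : UnitAddTorus.mFourier (-μ) (fun i => (y i : UnitAddCircle)) =
        ee (dt (-μ) (fun i => (y i : ℂ))) := mFourier_mk (-μ) y
    have h5 : dt (-μ) (fun i => (y i : ℂ)) = -(dt μ (fun i => (y i : ℂ))) := by
      simp [dt]
    simp only [h3, h4, h5, smul_eq_mul]
    ring
  have hs : Summable (UnitAddTorus.mFourierCoeff H) := by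
    obtain ⟨M, hM⟩ := coeff_bound hF hper
    refine Summable.of_norm_bounded ((summable_prod_exp 20).mul_left M) ?_
    intro μ
    rw [hco]
    exact hM μ
  have h1 := UnitAddTorus.hasSum_mFourier_series_apply_of_summable hs (mk 0)
  have h2 : H (mk 0) = F 0 := by
    rw [hH]
    congr 1
  rw [h2] at h1
  convert h1 using 2 with μ
  rw [mFourier_mk, hco]
  have : dt μ (fun i => (((0 : Fin 20 → ℝ) i : ℝ) : ℂ)) = 0 := by simp [dt]
  rw [this]
  simp [ee]

section

variable {A : Matrix (Fin 20) (Fin 20) ℤ} {c : ℂ → (Fin 20 → ℂ) → ℂ}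

theorem open_half : IsOpen {τ : ℂ | 0 < τ.im} := isOpen_lt continuous_const Complex.continuous_im

theorem open_half' : IsOpen {p : ℂ × (Fin 20 → ℂ) | 0 < p.1.im} :=
  isOpen_lt continuous_const (Complex.continuous_im.comp continuous_fst)

theorem slice_diff (hc : JacobiZero A c) {τ : ℂ} (hτ : 0 < τ.im) : Differentiable ℂ (c τ) := by
  intro z
  have h1 : DifferentiableAt ℂ (fun p : ℂ × (Fin 20 → ℂ) => c p.1 p.2) (τ, z) :=
    hc.holo.differentiableAt (open_half'.mem_nhds hτ)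
  have h2 : DifferentiableAt ℂ (fun z : Fin 20 → ℂ => ((τ, z) : ℂ × (Fin 20 → ℂ))) z := by
    fun_prop
  have h3 := h1.comp z h2
  exact h3

theorem shift (hc : JacobiZero A c) (μ : Fin 20 → ℤ) {τ : ℂ} (w : Fin 20 → ℂ) (hτ : 0 < τ.im) :
    fc c μ τ = ∫ y in Set.Icc (0 : Fin 20 → ℝ) 1, c τ (fun i => w i + (y i : ℂ)) *
      ee (-(dt μ (fun i => w i + (y i : ℂ)))) := by
  have h1 := shift_const (twist_diff (slice_diff hc hτ) μ)
    (twist_per (fun z v => hc.perz τ z v hτ) μ) w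
  exact h1.symm

theorem det_ne (hA : PosSymm A) : (A.map (Int.cast : ℤ → ℝ)).det ≠ 0 := by
  intro h0
  obtain ⟨v, hv, hv0⟩ := Matrix.exists_mulVec_eq_zero_iff.2 h0
  have h1 := hA.pos v hv
  have h2 : bf A v v = ∑ i, v i * ((A.map (Int.cast : ℤ → ℝ)).mulVec v) i := by
    unfold bf
    refine Finset.sum_congr rfl fun i _ => ?_
    rw [Matrix.mulVec, dotProduct, Finset.mul_sum]
    refine Finset.sum_congr rfl fun j _ => ?_
    rw [Matrix.map_apply]
    ring
  rw [h2, hv0] at h1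
  simp at h1

theorem inv_mulVec (hA : PosSymm A) (v : Fin 20 → ℤ) :
    (A.map (Int.cast : ℤ → ℝ))⁻¹.mulVec (fun j => ((A.mulVec v) j : ℝ)) = fun j => (v j : ℝ) := by
  have h1 : (fun j => ((A.mulVec v) j : ℝ)) =
      (A.map (Int.cast : ℤ → ℝ)).mulVec (fun j => (v j : ℝ)) := by
    funext j
    simp [Matrix.mulVec, dotProduct]
  rw [h1, Matrix.mulVec_mulVec, Matrix.nonsing_inv_mul _ (isUnit_iff_ne_zero.2 (det_ne hA)),
    Matrix.one_mulVec]

theorem bd_mulVec_right (hA : PosSymm A) (μ v : Fin 20 → ℤ) :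
    bd A μ (A.mulVec v) = ((dt μ v : ℤ) : ℝ) := by
  unfold bd
  rw [inv_mulVec hA]
  simp [dt]

theorem bd_symm (hA : PosSymm A) (μ ν : Fin 20 → ℤ) : bd A μ ν = bd A ν μ := by
  have hs : ((A.map (Int.cast : ℤ → ℝ))⁻¹).transpose = (A.map (Int.cast : ℤ → ℝ))⁻¹ := by
    rw [Matrix.transpose_nonsing_inv, ← Matrix.transpose_map, hA.symm]
  unfold bd
  simp only [Matrix.mulVec, dotProduct, Finset.mul_sum]
  rw [Finset.sum_comm]
  refine Finset.sum_congr rfl fun i _ => Finset.sum_congr rfl fun j _ => ?_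
  have h1 : (A.map (Int.cast : ℤ → ℝ))⁻¹ j i = (A.map (Int.cast : ℤ → ℝ))⁻¹ i j := by
    conv_lhs => rw [← hs]
    rfl
  rw [h1]
  ring

theorem bd_add_left (μ ν κ : Fin 20 → ℤ) : bd A (μ + ν) κ = bd A μ κ + bd A ν κ := by
  simp [bd, add_mul, Finset.sum_add_distrib]

theorem bd_mulVec_left (hA : PosSymm A) (μ v : Fin 20 → ℤ) :
    bd A (A.mulVec v) μ = ((dt μ v : ℤ) : ℝ) := by
  rw [bd_symm hA, bd_mulVec_right hA]

theorem bd_add_right (hA : PosSymm A) (μ ν κ : Fin 20 → ℤ) :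
    bd A κ (μ + ν) = bd A κ μ + bd A κ ν := by
  rw [bd_symm hA, bd_add_left, bd_symm hA μ, bd_symm hA ν]

theorem dt_mulVec {R : Type*} [CommRing R] (v : Fin 20 → ℤ) (z : Fin 20 → R) :
    dt (A.mulVec v) z = bf A z (fun i => (v i : R)) := by
  unfold dt bf
  refine Finset.sum_congr rfl fun i _ => ?_
  rw [Matrix.mulVec, dotProduct]
  push_cast
  rw [Finset.sum_mul]
  refine Finset.sum_congr rfl fun j _ => ?_
  ring

theorem bd_shift (hA : PosSymm A) (μ v : Fin 20 → ℤ) :
    bd A (μ + A.mulVec v) (μ + A.mulVec v) =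
      bd A μ μ + 2 * ((dt μ v : ℤ) : ℝ) + ((bf A v v : ℤ) : ℝ) := by
  rw [bd_add_left, bd_add_right hA, bd_add_right hA, bd_mulVec_right hA, bd_mulVec_right hA,
    bd_mulVec_left hA, dt_mulVec]
  simp
  ring

theorem vf_shift (hA : PosSymm A) (hc : JacobiZero A c) (μ v : Fin 20 → ℤ) {τ : ℂ}
    (hτ : 0 < τ.im) : vf A c (μ + A.mulVec v) τ = vf A c μ τ := by
  have h1 : fc c (μ + A.mulVec v) τ =
      ee (τ * ((bf A v v : ℤ) : ℂ) / 2 + τ * ((dt μ v : ℤ) : ℂ)) * fc c μ τ := by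
    rw [shift hc (μ + A.mulVec v) (fun i => τ * ((-v) i : ℤ)) hτ]
    unfold fc
    rw [← integral_const_mul]
    refine integral_congr_ae (Filter.Eventually.of_forall (fun y => ?_))
    have h2 := hc.quasi τ (fun i => (y i : ℂ)) (-v) hτ
    have h3 : (fun i => τ * (((-v) i : ℤ) : ℂ) + (y i : ℂ)) =
        (fun i => (y i : ℂ) + τ * (((-v) i : ℤ) : ℂ)) := by
      funext i; ring
    have h4 : bf A (fun i => (((-v) i : ℤ) : ℂ)) (fun i => (y i : ℂ)) =
        -bf A (fun i => (v i : ℂ)) (fun i => (y i : ℂ)) := by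
      rw [← bf_neg_left]
      congr 1
      funext i
      simp
    have h5 : bf A (fun i => (((-v) i : ℤ) : ℂ)) (fun i => (((-v) i : ℤ) : ℂ)) =
        ((bf A v v : ℤ) : ℂ) := by
      rw [← bf_intCast]
      have : (fun i => (((-v) i : ℤ) : ℂ)) = -(fun i => (v i : ℂ)) := by funext i; simp
      rw [this, bf_neg_left, bf_neg_right, neg_neg]
    have h6 : dt (μ + A.mulVec v) (fun i => (y i : ℂ) + τ * (((-v) i : ℤ) : ℂ)) =
        dt μ (fun i => (y i : ℂ)) + bf A (fun i => (v i : ℂ)) (fun i => (y i : ℂ)) -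
          τ * ((dt μ v : ℤ) : ℂ) - τ * ((bf A v v : ℤ) : ℂ) := by
      have h7 : dt (μ + A.mulVec v) (fun i => (y i : ℂ) + τ * (((-v) i : ℤ) : ℂ)) =
          dt μ (fun i => (y i : ℂ)) + dt (A.mulVec v) (fun i => (y i : ℂ)) -
            τ * dt μ (fun i => (v i : ℂ)) - τ * dt (A.mulVec v) (fun i => (v i : ℂ)) := by
        simp only [dt, Finset.mul_sum, ← Finset.sum_add_distrib, ← Finset.sum_sub_distrib]
        refine Finset.sum_congr rfl fun i _ => ?_
        simp only [Pi.add_apply, Pi.neg_apply]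
        push_cast
        ring
      rw [h7, dt_int, dt_mulVec, dt_mulVec, bf_intCast, bf_comm hA.symm]
    simp only [h3, h6]
    rw [h2, h4, h5]
    have h8 : ∀ a b C : ℂ, ee a * C * ee b = ee (a + b) * C := by
      intro a b C; rw [ee_add]; ring
    have h9 : ∀ a b C : ℂ, ee a * (C * ee b) = ee (a + b) * C := by
      intro a b C; rw [ee_add]; ring
    rw [h8, h9]
    congr 2
    ring
  unfold vf
  rw [h1, bd_shift hA, ← mul_assoc, ← ee_add]
  congr 2
  push_cast
  ring

end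

theorem theta1 : Pool.Agent.Y813.RL.JobTheta1 := by
  intro A c hA hc
  refine ⟨?_, ?_, ?_, ?_, ?_⟩
  · intro μ
    unfold fc
    refine differentiableOn_setIntegral (E := ℂ) (volume : Measure (Fin 20 → ℝ))
      (K := Icc (0 : Fin 20 → ℝ) 1) isCompact_Icc measurableSet_Icc
      (isCompact_Icc.measure_lt_top) (U := {τ : ℂ | 0 < τ.im}) open_half
      (f := fun τ y => c τ (fun i => (y i : ℂ)) * ee (-(dt μ (fun i => (y i : ℂ))))) ?_ ?_
    · refine ContinuousOn.mul ?_ ?_
      · have h1 : Continuous (fun q : ℂ × (Fin 20 → ℝ) =>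
            ((q.1, fun i => (q.2 i : ℂ)) : ℂ × (Fin 20 → ℂ))) := by fun_prop
        exact hc.holo.continuousOn.comp h1.continuousOn (fun q hq => hq.1)
      · exact (ee_differentiable.continuous.comp
          (((dt_continuous_real μ).comp continuous_snd).neg)).continuousOn
    · intro y _
      refine DifferentiableOn.mul_const ?_ _
      have h1 : Differentiable ℂ (fun τ : ℂ =>
            ((τ, fun i => (y i : ℂ)) : ℂ × (Fin 20 → ℂ))) := by fun_prop
      exact hc.holo.comp h1.differentiableOn (fun τ hτ => hτ)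
  · intro μ τ hτ
    unfold fc
    refine integral_congr_ae (Filter.Eventually.of_forall (fun y => ?_))
    simp only
    rw [hc.perτ τ _ hτ]
  · intro μ τ w hτ
    exact shift hc μ w hτ
  · intro μ v τ hτ
    exact vf_shift hA hc μ v hτ
  · intro τ z hτ
    have h1 := hasSum_zero (F := fun w : Fin 20 → ℂ => c τ (fun i => z i + w i))
      (by
        refine (slice_diff hc hτ).comp ?_
        fun_prop)
      (fun w v => by
        have := hc.perz τ (fun i => z i + w i) v hτ
        rw [← this]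
        congr 1
        funext i
        ring)
    have h2 : (fun i => z i + (0 : Fin 20 → ℂ) i) = z := by funext i; simp
    rw [h2] at h1
    convert h1 using 2 with μ
    rw [shift hc μ z hτ, mul_comm, ← integral_const_mul]
    refine integral_congr_ae (Filter.Eventually.of_forall (fun y => ?_))
    simp only
    rw [dt_add, neg_add, ee_add]
    have h3 := ee_neg_mul (dt μ z)
    linear_combination (c τ (fun i => z i + (y i : ℂ)) * ee (-dt μ fun i => (y i : ℂ))) * h3

end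

end Pool.Agent.Run7.h352.RL.THETA1
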