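import Pool.Agent.Run7.h352.RL.FF
import Pool.Agent.Run7.h352.RL.THETA1
import Pool.Agent.Run7.h352.RL.GEED
import Pool.Agent.Run7.h352.RL.GREAL
import Pool.Agent.Run7.h892.RL.GTWO

set_option autoImplicit false

/-!
# From the discriminant form to the genus
-/

namespace Pool.Agent.Run7.h352.RL

open Matrix Finset Pool.Agent.Y813.RL

noncomputable section

variable {G : Matrix (Fin 20) (Fin 20) ℤ}

theorem bd_sub_self (h : PosSymm G) (ν δ : Fin 20 → ℤ) :
    bd G (ν - δ) (ν - δ) = bd G ν ν + bd G δ δ - 2 * bd G ν δ := by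
  rw [FF.bd_sub_right h, FF.bd_comm h (ν - δ) ν, FF.bd_comm h (ν - δ) δ,
    FF.bd_sub_right h, FF.bd_sub_right h, FF.bd_comm h δ ν]
  ring

theorem ee_half {x : ℝ} {j : ℤ} (hx : 2 * x = 2 * j + 1) : ee (-(x : ℂ)) = -1 := by
  have h1 : -(x : ℂ) = ((-j - 1 : ℤ) : ℂ) + 1 / 2 := by
    have : x = j + 1 / 2 := by linarith
    rw [this]
    push_cast
    ring
  rw [h1, THETA1.ee_add, THETA1.ee_int, one_mul]
  unfold ee
  have : 2 * (Real.pi : ℂ) * Complex.I * (1 / 2) = Real.pi * Complex.I := by ring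
  rw [this, Complex.exp_pi_mul_I]

/-- the determinant is four -/
theorem det_four (h : PosSymm G)
    (hodd : ∀ μ, (¬ ∃ v : Fin 20 → ℤ, μ = G.mulVec v) → ∃ k : ℤ, bd G μ μ = 2 * k + 1)
    (hdet : G.det ≠ 1) : G.det = 4 := by
  classical
  obtain ⟨R, hR⟩ := FF.exists_reps h
  have hcard := FF.card_reps h hR
  obtain ⟨ρ0, ⟨hρ0, v0, hv0⟩, -⟩ := hR 0
  have hρ0' : ρ0 = G.mulVec (-v0) := by
    rw [mulVec_neg]
    exact eq_neg_of_add_eq_zero_left hv0.symm
  have h2 : 1 < R.card := by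
    have h3 : 0 < R.card := Finset.card_pos.2 ⟨ρ0, hρ0⟩
    have h4 : R.card ≠ 1 := by
      intro h5
      rw [h5] at hcard
      exact hdet hcard.symm
    omega
  obtain ⟨ρ1, hρ1, hne⟩ := Finset.exists_mem_ne h2 ρ0
  set δ := ρ1 - ρ0 with hδdef
  have hδ : ¬ ∃ v : Fin 20 → ℤ, δ = G.mulVec v := fun hv => hne (FF.reps_inj hR hρ1 hρ0 hv)
  have horth := FF.orth h hR hρ1 hρ0
  rw [if_neg hne] at horth
  obtain ⟨a, ha⟩ := hodd δ hδ
  have hρ1' : ρ1 = δ + G.mulVec (-v0) := by rw [← hρ0', hδdef]; abel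
  have hval : ∀ ν ∈ R, FF.ch G δ ν = (if ν = ρ0 ∨ ν = ρ1 then (2 : ℂ) else 0) - 1 := by
    intro ν hν
    by_cases h3 : ν = ρ0
    · rw [if_pos (Or.inl h3), h3, hρ0', FF.ch_mulVec h]
      norm_num
    by_cases h4 : ν = ρ1
    · rw [if_pos (Or.inr h4), h4, hρ1', FF.ch_eq h]
      unfold FF.ch
      rw [ha]
      have : (-((2 * (a : ℝ) + 1 : ℝ) : ℂ)) = ((-(2 * a + 1) : ℤ) : ℂ) := by
        push_cast
        ring
      rw [this, THETA1.ee_int]
      norm_num
    · rw [if_neg (by tauto)]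
      have h5 : ¬ ∃ v : Fin 20 → ℤ, ν = G.mulVec v := by
        rintro ⟨v, hv⟩
        apply h3
        apply FF.reps_inj hR hν hρ0
        refine ⟨v + v0, ?_⟩
        rw [hρ0', hv, mulVec_add, mulVec_neg]
        abel
      have h6 : ¬ ∃ v : Fin 20 → ℤ, ν - δ = G.mulVec v := by
        rintro ⟨v, hv⟩
        apply h4
        apply FF.reps_inj hR hν hρ1
        refine ⟨v + v0, ?_⟩
        rw [hρ1', mulVec_add, mulVec_neg, ← hv]
        abel
      obtain ⟨b, hb⟩ := hodd ν h5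
      obtain ⟨c, hc⟩ := hodd _ h6
      have h7 := bd_sub_self h ν δ
      unfold FF.ch
      rw [ee_half (j := a + b - c) (by
        push_cast
        linarith)]
      norm_num
  rw [Finset.sum_congr rfl hval, Finset.sum_sub_distrib, Finset.sum_ite, Finset.sum_const,
    Finset.sum_const_zero, Finset.sum_const] at horth
  have h8 : (R.filter fun ν => ν = ρ0 ∨ ν = ρ1) = {ρ0, ρ1} := by
    ext ν
    simp only [Finset.mem_filter, Finset.mem_insert, Finset.mem_singleton]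
    constructor
    · exact fun h9 => h9.2
    · rintro (h9 | h9)
      · exact ⟨by rw [h9]; exact hρ0, Or.inl h9⟩
      · exact ⟨by rw [h9]; exact hρ1, Or.inr h9⟩
  rw [h8, Finset.card_pair (Ne.symm hne)] at horth
  simp only [nsmul_eq_mul, add_zero, mul_one] at horth
  have h9 : ((R.card : ℂ)) = 4 := by
    push_cast at horth
    linear_combination -horth
  have h10 : R.card = 4 := by exact_mod_cast h9
  rw [← hcard, h10]
  rfl

/-- the discriminant form in terms of the adjugate -/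
theorem bd_adj (h : PosSymm G) (μ : Fin 20 → ℤ) :
    ((∑ i, μ i * (G.adjugate.mulVec μ) i : ℤ) : ℝ) = (G.det : ℝ) * bd G μ μ := by
  have hdet : ((G.map (Int.cast : ℤ → ℝ)).det) = (G.det : ℝ) := FF.det_rA
  have hne : (G.det : ℝ) ≠ 0 := by
    have := FF.det_pos h
    exact_mod_cast this.ne'
  have hadj : (G.map (Int.cast : ℤ → ℝ)).adjugate = G.adjugate.map (Int.cast : ℤ → ℝ) :=
    (RingHom.map_adjugate (Int.castRingHom ℝ) G).symm
  have h1 : (G.map (Int.cast : ℤ → ℝ))⁻¹ = (G.det : ℝ)⁻¹ • G.adjugate.map (Int.cast : ℤ → ℝ) := by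
    rw [Matrix.inv_def, hdet, hadj, Ring.inverse_eq_inv']
  unfold bd
  rw [h1, Int.cast_sum, Finset.mul_sum]
  refine Finset.sum_congr rfl fun i _ => ?_
  rw [Matrix.smul_mulVec, Pi.smul_apply, smul_eq_mul]
  have h2 : (G.adjugate.map (Int.cast : ℤ → ℝ)).mulVec (fun j => (μ j : ℝ)) i =
      ((G.adjugate.mulVec μ i : ℤ) : ℝ) := by
    simp [mulVec, dotProduct]
  rw [h2, Int.cast_mul]
  field_simp

theorem oddDisc (h : PosSymm G)
    (hodd : ∀ μ, (¬ ∃ v : Fin 20 → ℤ, μ = G.mulVec v) → ∃ k : ℤ, bd G μ μ = 2 * k + 1)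
    (hdet : G.det = 4) : OddDisc G := by
  intro μ
  by_cases hμ : ∃ v : Fin 20 → ℤ, μ = G.mulVec v
  · exact Or.inl hμ
  · right
    obtain ⟨j, hj⟩ := hodd μ hμ
    refine ⟨j, ?_⟩
    have h1 := bd_adj h μ
    rw [hj, hdet] at h1
    have h2 : ((∑ i, μ i * (G.adjugate.mulVec μ) i : ℤ) : ℝ) = ((8 * j + 4 : ℤ) : ℝ) := by
      rw [h1]
      push_cast
      ring
    exact_mod_cast h2

/-- **the genus** -/
theorem genus : JobGenus := by
  intro G h heven hodd hdet
  have hd := det_four h hodd hdet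
  have ho := oddDisc h hodd hd
  obtain ⟨g1, g2, g3, g4, g5⟩ := GEED.geed
  have hcard : Fintype.card (Fin 20) = Fintype.card (Fin 8 ⊕ (Fin 8 ⊕ Fin 4)) := by simp
  refine ⟨GREAL.gReal _ _ hcard G gramEED h.symm g1 h.pos g5, fun p _ => ?_⟩
  by_cases hp : p = 2
  · subst hp
    exact Pool.Agent.Run7.h892.RL.gTwo _ _ (by simp) (by simp) G gramEED h.symm g1 heven g2 hd g3 ho g4
  · exact Pool.Agent.Run7.h892.RL.gOdd p hp _ _ hcard G gramEED h.symm g1 hd g3

end

end Pool.Agent.Run7.h352.RL
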