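import Pool.Agent.Run7.h352.RL.Stm

set_option autoImplicit false

/-!
# FF: representatives and unitarity of the finite Fourier transform
-/

namespace Pool.Agent.Run7.h352.RL.FF

open Matrix Pool.Agent.Y813.RL Finset

noncomputable section

variable {A : Matrix (Fin 20) (Fin 20) ℤ} {R : Finset (Fin 20 → ℤ)}

/-- the real matrix -/
def rA (A : Matrix (Fin 20) (Fin 20) ℤ) : Matrix (Fin 20) (Fin 20) ℝ := A.map (Int.cast : ℤ → ℝ)

theorem bf_eq_dot (B : Matrix (Fin 20) (Fin 20) ℤ) (x y : Fin 20 → ℝ) :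
    bf B x y = x ⬝ᵥ (rA B) *ᵥ y := by
  simp [bf, dotProduct, mulVec, Finset.mul_sum, mul_assoc, rA]

theorem isSymm_rA (h : PosSymm A) : (rA A)ᵀ = rA A := by
  ext i j
  simp only [rA, transpose_apply, map_apply]
  rw [h.symm.apply]

theorem posDef_rA (h : PosSymm A) : (rA A).PosDef := by
  have hH : (rA A).IsHermitian := by
    rw [IsHermitian, conjTranspose_eq_transpose_of_trivial, isSymm_rA h]
  refine PosDef.of_dotProduct_mulVec_pos hH (fun x hx => ?_)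
  have := h.pos x hx
  rwa [bf_eq_dot] at this

theorem det_rA : (rA A).det = (A.det : ℝ) :=
  (RingHom.map_det (Int.castRingHom ℝ) A).symm

theorem det_pos (h : PosSymm A) : 0 < A.det := by
  have := (posDef_rA h).det_pos
  rw [det_rA] at this
  exact_mod_cast this

theorem isUnit_rA (h : PosSymm A) : IsUnit (rA A).det :=
  isUnit_iff_ne_zero.2 (posDef_rA h).det_pos.ne'

/-- the sublattice `A Z^20` -/
def NN (A : Matrix (Fin 20) (Fin 20) ℤ) : Submodule ℤ (Fin 20 → ℤ) := LinearMap.range A.mulVecLin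

theorem mem_NN (μ : Fin 20 → ℤ) : μ ∈ NN A ↔ ∃ v, μ = A.mulVec v := by
  simp [NN, LinearMap.mem_range, eq_comm]

theorem inj_mulVec (h : PosSymm A) : Function.Injective A.mulVec := by
  apply Matrix.mulVec_injective_of_det_ne_zero
  exact (det_pos h).ne'

theorem card_quot (h : PosSymm A) : (Nat.card ((Fin 20 → ℤ) ⧸ NN A) : ℤ) = A.det := by
  have hinj : Function.Injective A.mulVecLin := inj_mulVec h
  let e : (Fin 20 → ℤ) ≃ₗ[ℤ] NN A := LinearEquiv.ofInjective A.mulVecLin hinj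
  have h1 := Submodule.natAbs_det_equiv (NN A) e
  have h2 : (NN A).subtype ∘ₗ AddMonoidHom.toIntLinearMap (e : (Fin 20 → ℤ) →+ NN A) =
      A.mulVecLin := by
    ext x
    rfl
  rw [h2] at h1
  have h3 : LinearMap.det A.mulVecLin = A.det := by
    rw [← Matrix.toLin'_apply', LinearMap.det_toLin']
  rw [h3] at h1
  rw [← h1]
  exact Int.natAbs_of_nonneg (det_pos h).le

theorem castv (v : Fin 20 → ℤ) :
    (fun j => ((A.mulVec v) j : ℝ)) = (rA A) *ᵥ (fun j => (v j : ℝ)) := by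
  funext j
  simp [rA, mulVec, dotProduct]

theorem bd_eq (μ ν : Fin 20 → ℤ) :
    bd A μ ν = (fun j => (μ j : ℝ)) ⬝ᵥ ((rA A)⁻¹ *ᵥ (fun j => (ν j : ℝ))) := rfl

theorem bd_comm (h : PosSymm A) (μ ν : Fin 20 → ℤ) : bd A μ ν = bd A ν μ := by
  rw [bd_eq, bd_eq, dotProduct_mulVec, ← mulVec_transpose, transpose_nonsing_inv, isSymm_rA h,
    dotProduct_comm]

theorem bd_mulVec (h : PosSymm A) (μ v : Fin 20 → ℤ) :
    bd A μ (A.mulVec v) = ((∑ i, μ i * v i : ℤ) : ℝ) := by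
  rw [bd_eq, castv, mulVec_mulVec, nonsing_inv_mul _ (isUnit_rA h), one_mulVec]
  simp [dotProduct]

theorem bd_add_left (μ ν δ : Fin 20 → ℤ) : bd A (μ + ν) δ = bd A μ δ + bd A ν δ := by
  simp only [bd, Pi.add_apply, Int.cast_add, add_mul, sum_add_distrib]

theorem bd_sub_right (h : PosSymm A) (μ ν δ : Fin 20 → ℤ) :
    bd A μ (ν - δ) = bd A μ ν - bd A μ δ := by
  rw [bd_comm h, bd_comm h μ ν, bd_comm h μ δ]
  simp only [bd, Pi.sub_apply, Int.cast_sub, sub_mul, sum_sub_distrib]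

/-- the character -/
def ch (A : Matrix (Fin 20) (Fin 20) ℤ) (δ μ : Fin 20 → ℤ) : ℂ := ee (-(bd A μ δ : ℂ))

theorem ch_add (δ μ ν : Fin 20 → ℤ) : ch A δ (μ + ν) = ch A δ μ * ch A δ ν := by
  rw [ch, ch, ch, bd_add_left, ← ee_add]
  congr 1
  push_cast
  ring

theorem ch_mulVec (h : PosSymm A) (δ v : Fin 20 → ℤ) : ch A δ (A.mulVec v) = 1 := by
  rw [ch, bd_comm h, bd_mulVec h]
  have : (-(((∑ i, δ i * v i : ℤ) : ℝ) : ℂ)) = ((-(∑ i, δ i * v i) : ℤ) : ℂ) := by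
    push_cast
    ring
  rw [this, ee_int]

theorem ch_eq (h : PosSymm A) (δ μ v : Fin 20 → ℤ) : ch A δ (μ + A.mulVec v) = ch A δ μ := by
  rw [ch_add, ch_mulVec h, mul_one]

theorem ch_sub (h : PosSymm A) (ρ ρ' μ : Fin 20 → ℤ) :
    ch A (ρ - ρ') μ = ch A ρ μ * (starRingEnd ℂ) (ch A ρ' μ) := by
  have h1 : (starRingEnd ℂ) (ch A ρ' μ) = ee ((bd A μ ρ' : ℂ)) := by
    rw [ch, ee, ee, ← Complex.exp_conj]
    congr 1
    simp only [map_mul, map_neg, Complex.conj_ofReal, Complex.conj_I, map_ofNat]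
    ring
  rw [h1, ch, ch, ← ee_add, bd_sub_right h]
  congr 1
  push_cast
  ring

theorem exists_of_ch (h : PosSymm A) (δ : Fin 20 → ℤ) (hδ : ∀ μ, ch A δ μ = 1) :
    ∃ v : Fin 20 → ℤ, δ = A.mulVec v := by
  have h1 : ∀ i, ∃ n : ℤ, ((rA A)⁻¹ *ᵥ (fun j => (δ j : ℝ))) i = n := by
    intro i
    have h2 := hδ (Pi.single i 1)
    rw [ch, ee, Complex.exp_eq_one_iff] at h2
    obtain ⟨n, hn⟩ := h2
    have h3 : bd A (Pi.single i 1) δ = ((rA A)⁻¹ *ᵥ (fun j => (δ j : ℝ))) i := by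
      rw [bd_eq]
      have : (fun j => ((Pi.single i 1 : Fin 20 → ℤ) j : ℝ)) = Pi.single i 1 := by
        funext j
        by_cases hj : j = i
        · subst hj; simp
        · simp [Pi.single_eq_of_ne hj]
      rw [this, single_one_dotProduct]
    refine ⟨-n, ?_⟩
    rw [← h3]
    have hpi : (2 * (Real.pi : ℂ) * Complex.I) ≠ 0 := by
      simp [Real.pi_ne_zero]
    have h4 : (-(bd A (Pi.single i 1) δ : ℂ)) = (n : ℂ) := by
      apply mul_left_cancel₀ hpi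
      rw [hn]
      ring
    have h5 : ((bd A (Pi.single i 1) δ : ℝ) : ℂ) = ((-(n : ℝ) : ℝ) : ℂ) := by
      push_cast
      rw [← h4]
      ring
    have h6 := Complex.ofReal_injective h5
    rw [h6]
    push_cast
    ring
  choose v hv using h1
  refine ⟨v, ?_⟩
  have h2 : (rA A) *ᵥ (fun j => (v j : ℝ)) = fun j => (δ j : ℝ) := by
    have : (fun j => (v j : ℝ)) = (rA A)⁻¹ *ᵥ (fun j => (δ j : ℝ)) := by
      funext j
      exact (hv j).symm
    rw [this, mulVec_mulVec, mul_nonsing_inv _ (isUnit_rA h), one_mulVec]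
  rw [← castv] at h2
  funext j
  have := congrFun h2 j
  exact_mod_cast this.symm

theorem reps_inj (hR : IsReps A R) {ρ ρ' : Fin 20 → ℤ} (h1 : ρ ∈ R) (h2 : ρ' ∈ R)
    (h3 : ∃ v : Fin 20 → ℤ, ρ - ρ' = A.mulVec v) : ρ = ρ' := by
  obtain ⟨v, hv⟩ := h3
  obtain ⟨σ, -, hσ⟩ := hR ρ
  rw [hσ ρ ⟨h1, 0, by simp⟩, hσ ρ' ⟨h2, v, by rw [← hv]; abel⟩]

theorem reps_bij (hR : IsReps A R) : Function.Bijective
    (fun r : R => (Submodule.Quotient.mk r.1 : (Fin 20 → ℤ) ⧸ NN A)) := by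
  constructor
  · intro r s hrs
    simp only at hrs
    rw [Submodule.Quotient.eq, mem_NN] at hrs
    exact Subtype.ext (reps_inj hR r.2 s.2 hrs)
  · intro q
    obtain ⟨μ, rfl⟩ := Submodule.Quotient.mk_surjective _ q
    obtain ⟨ρ, ⟨h1, v, hv⟩, -⟩ := hR μ
    refine ⟨⟨ρ, h1⟩, ?_⟩
    simp only
    rw [Submodule.Quotient.eq, mem_NN]
    refine ⟨-v, ?_⟩
    rw [hv, mulVec_neg]
    abel

theorem card_reps (h : PosSymm A) (hR : IsReps A R) : (R.card : ℤ) = A.det := by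
  rw [← card_quot h, ← Nat.card_congr (Equiv.ofBijective _ (reps_bij hR))]
  simp

theorem exists_reps (h : PosSymm A) : ∃ R : Finset (Fin 20 → ℤ), IsReps A R := by
  have hfin : Finite ((Fin 20 → ℤ) ⧸ NN A) := by
    apply Nat.finite_of_card_ne_zero
    intro h0
    have := card_quot h
    rw [h0] at this
    have := det_pos h
    simp_all
  have := Fintype.ofFinite ((Fin 20 → ℤ) ⧸ NN A)
  classical
  refine ⟨Finset.univ.image (fun q : (Fin 20 → ℤ) ⧸ NN A => q.out), fun μ => ?_⟩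
  have key : ∀ q : (Fin 20 → ℤ) ⧸ NN A, (∃ v : Fin 20 → ℤ, μ = q.out + A.mulVec v) ↔
      q = Submodule.Quotient.mk μ := by
    intro q
    constructor
    · rintro ⟨v, hv⟩
      have h1 : (Submodule.Quotient.mk μ : (Fin 20 → ℤ) ⧸ NN A) =
          Submodule.Quotient.mk q.out := by
        rw [Submodule.Quotient.eq, mem_NN]
        exact ⟨v, by rw [hv]; abel⟩
      rw [h1]
      exact (Quotient.out_eq q).symm
    · rintro rfl
      have h1 : (Submodule.Quotient.mk μ : (Fin 20 → ℤ) ⧸ NN A) = Submodule.Quotient.mk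
          ((Submodule.Quotient.mk μ : (Fin 20 → ℤ) ⧸ NN A).out) :=
        (Quotient.out_eq _).symm
      rw [Submodule.Quotient.eq, mem_NN] at h1
      obtain ⟨v, hv⟩ := h1
      exact ⟨v, by rw [← hv]; abel⟩
  refine ⟨(Submodule.Quotient.mk μ : (Fin 20 → ℤ) ⧸ NN A).out, ⟨?_, ?_⟩, ?_⟩
  · exact Finset.mem_image_of_mem _ (Finset.mem_univ _)
  · exact (key _).2 rfl
  · rintro ρ ⟨h1, h2⟩
    obtain ⟨q, -, rfl⟩ := Finset.mem_image.1 h1
    rw [(key q).1 h2]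

theorem sum_shift (h : PosSymm A) (hR : IsReps A R) (δ l : Fin 20 → ℤ) :
    ∑ μ ∈ R, ch A δ (μ + l) = ∑ μ ∈ R, ch A δ μ := by
  have h1 : ∀ μ : Fin 20 → ℤ, ∃ ρ ∈ R, ∃ v : Fin 20 → ℤ, μ + l = ρ + A.mulVec v := by
    intro μ
    obtain ⟨ρ, ⟨h1, h2⟩, -⟩ := hR (μ + l)
    exact ⟨ρ, h1, h2⟩
  choose σ hσ v hv using h1
  have hinj : Set.InjOn σ R := by
    intro μ hμ ν hν he
    apply reps_inj hR hμ hν
    refine ⟨v μ - v ν, ?_⟩
    have e1 := hv μ
    have e2 := hv ν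
    rw [mulVec_sub]
    rw [he] at e1
    have : μ - ν = (μ + l) - (ν + l) := by abel
    rw [this, e1, e2]
    abel
  refine Finset.sum_nbij σ (fun μ _ => hσ μ) hinj ?_ (fun μ _ => ?_)
  · exact Finset.surjOn_of_injOn_of_card_le σ (fun μ _ => hσ μ) hinj le_rfl
  · rw [hv μ, ch_eq h]

theorem orth (h : PosSymm A) (hR : IsReps A R) {ρ ρ' : Fin 20 → ℤ} (h1 : ρ ∈ R) (h2 : ρ' ∈ R) :
    ∑ μ ∈ R, ch A (ρ - ρ') μ = if ρ = ρ' then (A.det : ℂ) else 0 := by
  split_ifs with hρ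
  · subst hρ
    have : ∀ μ ∈ R, ch A (ρ - ρ) μ = 1 := by
      intro μ _
      have h0 : bd A μ 0 = 0 := by
        rw [bd_comm h]
        simp [bd]
      rw [sub_self, ch, h0]
      simp [ee_zero]
    rw [Finset.sum_congr rfl this, Finset.sum_const, nsmul_eq_mul, mul_one, ← card_reps h hR]
    simp
  · by_contra hne
    apply hρ
    apply reps_inj hR h1 h2
    apply exists_of_ch h
    intro l
    have h3 := sum_shift h hR (ρ - ρ') l
    simp only [ch_add, ← Finset.sum_mul] at h3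
    exact mul_left_cancel₀ hne (by rw [h3, mul_one])

theorem unitary (h : PosSymm A) (hR : IsReps A R) (a : (Fin 20 → ℤ) → ℂ) :
    ∑ μ ∈ R, ‖∑ ρ ∈ R, ee (-(bd A μ ρ : ℂ)) * a ρ‖ ^ 2 = (A.det : ℝ) * ∑ ρ ∈ R, ‖a ρ‖ ^ 2 := by
  apply Complex.ofReal_injective
  rw [Complex.ofReal_mul, Complex.ofReal_sum, Complex.ofReal_sum, Complex.ofReal_intCast]
  simp only [Complex.ofReal_pow]
  have h1 : ∀ z : ℂ, ((‖z‖ : ℂ)) ^ 2 = z * (starRingEnd ℂ) z := by
    intro z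
    rw [Complex.mul_conj, Complex.normSq_eq_norm_sq]
    push_cast
    rfl
  simp only [h1]
  have h2 : ∀ μ ∈ R, (∑ ρ ∈ R, ee (-(bd A μ ρ : ℂ)) * a ρ) *
      (starRingEnd ℂ) (∑ ρ ∈ R, ee (-(bd A μ ρ : ℂ)) * a ρ) =
      ∑ ρ ∈ R, ∑ ρ' ∈ R, ch A (ρ - ρ') μ * (a ρ * (starRingEnd ℂ) (a ρ')) := by
    intro μ _
    rw [map_sum, Finset.sum_mul_sum]
    refine Finset.sum_congr rfl fun ρ _ => Finset.sum_congr rfl fun ρ' _ => ?_
    rw [ch_sub h, map_mul]
    simp only [ch]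
    ring
  rw [Finset.sum_congr rfl h2, Finset.sum_comm, Finset.mul_sum]
  refine Finset.sum_congr rfl fun ρ hρ => ?_
  rw [Finset.sum_comm]
  have h3 : ∀ ρ' ∈ R, ∑ μ ∈ R, ch A (ρ - ρ') μ * (a ρ * (starRingEnd ℂ) (a ρ')) =
      if ρ = ρ' then (A.det : ℂ) * (a ρ * (starRingEnd ℂ) (a ρ')) else 0 := by
    intro ρ' hρ'
    rw [← Finset.sum_mul, orth h hR hρ hρ']
    split_ifs <;> simp
  rw [Finset.sum_congr rfl h3, Finset.sum_ite_eq, if_pos hρ]

theorem ff : JobFF := fun _ h =>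
  ⟨det_pos h, exists_reps h, fun _ hR => ⟨card_reps h hR, unitary h hR⟩⟩

end

end Pool.Agent.Run7.h352.RL.FF
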