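import Pool.Agent.Run7.h352.RL.Low

set_option autoImplicit false

/-!
# Bounds for the normalised function on slices; its zeros; the resulting bound for the Jacobi form
-/

namespace Pool.Agent.Run7.h352.RL

open Complex Set Finset Topology Pool.Agent.Y813.RL Pool.Agent.Y683.RL

noncomputable section

variable {G : Matrix (Fin 20) (Fin 20) ℤ} {k : ℤ} {F : TP → ℂ}
  {φ : ℕ → ℂ × (Fin 20 → ℂ) → ℂ} {C m : ℕ}

theorem imv_pt {x : Fin 20 → ℝ} {τ : ℂ} (y : Fin 20 → ℝ) :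
    imv (pt x τ (fun i => (y i : ℂ))).2 = τ.im • x := by
  funext i
  simp [imv, pt]

theorem bh_pt (x : Fin 20 → ℝ) {τ : ℂ} (hτ : 0 < τ.im) (y : Fin 20 → ℝ) :
    bh G (pt x τ (fun i => (y i : ℂ))) = τ.im * (bf G x x / 2) := by
  rw [bh_eq (pt_mem hτ _), xp_pt_real hτ]
  rfl

theorem ht_pt (x : Fin 20 → ℝ) {τ : ℂ} (hτ : 0 < τ.im) (y : Fin 20 → ℝ) (ω : ℂ) :
    ht G (ω, pt x τ (fun i => (y i : ℂ))) = ω.im / τ.im - bf G x x / 2 := by
  unfold ht
  simp only
  rw [xp_pt_real hτ]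
  rfl

/-- the radius corresponding to the height `η` -/
def rad (G : Matrix (Fin 20) (Fin 20) ℤ) (x : Fin 20 → ℝ) (η T : ℝ) : ℝ :=
  Real.exp (-(2 * Real.pi * ((η + bf G x x / 2) * T)))

theorem rad_pos (x : Fin 20 → ℝ) (η T : ℝ) : 0 < rad G x η T := Real.exp_pos _

theorem rad_le (x : Fin 20 → ℝ) {η η' T : ℝ} (hT : 0 ≤ T) (h : η ≤ η') :
    rad G x η' T ≤ rad G x η T := by
  unfold rad
  apply Real.exp_le_exp.2
  have h1 : (η + bf G x x / 2) * T ≤ (η' + bf G x x / 2) * T := by gcongr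
  have h2 := mul_le_mul_of_nonneg_left h1 (by positivity : 0 ≤ 2 * Real.pi)
  linarith

/-- **bound for the normalised function on a generic rational slice** -/
theorem gp_slice (hKD : JobKD) (h : PosSymm G) (H : CM G k F φ C m) (X : Fin 20 → ℤ) {N : ℕ}
    (hN : 0 < N) (hg : GenX G (xr X N)) {η : ℝ} (hη : 0 < η) : ∃ K T₀ : ℝ, 0 < K ∧ 1 ≤ T₀ ∧
      ∀ (τ : ℂ) (y : Fin 20 → ℝ), T₀ ≤ τ.im → ∀ s : ℂ, ‖s‖ ≤ rad G (xr X N) η τ.im →
        ‖gp φ C m (pt (xr X N) τ (fun i => (y i : ℂ))) s‖ ≤ Real.exp (K * τ.im) := by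
  obtain ⟨M, hM⟩ := bound_slice hKD h H.tf X hN hη
  obtain ⟨K₂, T₂, hK₂, hT₂, hlow⟩ := lower_slice hKD h H X hN hg
  set x := xr X N with hx
  set q := bf G x x with hq
  have hq0 : 0 ≤ q := h.nonneg _
  set M1 := max M 1 with hM1
  have hM1' : 1 ≤ M1 := le_max_right _ _
  have hpi := Real.pi_pos
  refine ⟨Real.log M1 + 2 * Real.pi * C * (η + q / 2) + K₂, T₂, ?_, hT₂, fun τ y hτ s hs => ?_⟩
  · have := Real.log_nonneg hM1'
    positivity
  have hT1 : 1 ≤ τ.im := hT₂.trans hτ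
  have hT0 : 0 < τ.im := by linarith
  have hp := pt_mem (x := x) hT0 (fun i => (y i : ℂ))
  have h0 : φ C (pt x τ (fun i => (y i : ℂ))) ≠ 0 := by
    have := hlow τ y hτ
    intro h00
    rw [h00, norm_zero] at this
    exact absurd this (not_le.2 (Real.exp_pos _))
  set v := (η + q / 2) * τ.im with hv
  have h1 := H.gp_bound hp h0 (v := v) (M := M1) (by
    rw [bh_pt x hT0 y, ← hq, hv]
    nlinarith) (by
    intro ω hω
    refine (hM _ hT1 (imv_pt y) ?_).trans (le_max_left _ _)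
    show (η + q / 2) * τ.im ≤ ω.im
    rw [hω]) (s := s) (by
    refine hs.trans (le_of_eq ?_)
    rfl)
  refine h1.trans ?_
  have h2 := hlow τ y hτ
  have hφ0 : 0 < ‖φ C (pt x τ (fun i => (y i : ℂ)))‖ := norm_pos_iff.2 h0
  rw [div_le_iff₀ hφ0]
  have h5 : M1 ≤ Real.exp (Real.log M1 * τ.im) := by
    have h6 : Real.log M1 ≤ Real.log M1 * τ.im := le_mul_of_one_le_right (Real.log_nonneg hM1') hT1
    calc M1 = Real.exp (Real.log M1) := (Real.exp_log (by linarith)).symm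
      _ ≤ _ := Real.exp_le_exp.2 h6
  calc M1 * Real.exp (2 * Real.pi * v * C) ≤
        Real.exp (Real.log M1 * τ.im) * Real.exp (2 * Real.pi * v * C) := by gcongr
    _ = Real.exp ((Real.log M1 + 2 * Real.pi * C * (η + q / 2) + K₂) * τ.im) *
        Real.exp (-(K₂ * τ.im)) := by
        rw [← Real.exp_add, ← Real.exp_add]
        congr 1
        rw [hv]
        ring
    _ ≤ _ := by gcongr

/-- **the zeros of the normalised function high up** -/
theorem zero_info (h : PosSymm G) (H : CM G k F φ C m) {x : Fin 20 → ℝ} (hg : GenX G x) {η : ℝ}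
    (hη : 0 < η) {τ : ℂ} (y : Fin 20 → ℝ) (hτ : 1 ≤ τ.im) (hτ2 : 1 ≤ η * τ.im) {s : ℂ}
    (hs : ‖s‖ < rad G x η τ.im)
    (hz : gp φ C m (pt x τ (fun i => (y i : ℂ))) s = 0) :
    ∃ (ω : ℂ) (b m' n' : ℤ) (μ : Fin 20 → ℤ), ee ω = s ∧
      ω.im = -Real.log ‖s‖ / (2 * Real.pi) ∧ 0 < m' ∧
      WallData G 0 b m' n' μ ∧ WEq G 0 b m' n' μ (ω, pt x τ (fun i => (y i : ℂ))) ∧
      nu G 0 b m' n' μ = (m' : ℝ) ^ 2 * (ω.im / τ.im - bf G x x / 2) +
        bf G (lam G μ + (m' : ℝ) • x) (lam G μ + (m' : ℝ) • x) / 2 := by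
  have hT0 : 0 < τ.im := by linarith
  have hp := pt_mem (x := x) hT0 (fun i => (y i : ℂ))
  have hs0 : s ≠ 0 := by
    intro h0
    rw [h0] at hz
    simp [gp, H.hm.ne'] at hz
  obtain ⟨ω, hω, him⟩ := exists_ee hs0
  have hpi := Real.pi_pos
  have hωv : (η + bf G x x / 2) * τ.im < ω.im := by
    rw [him, lt_div_iff₀ (by positivity)]
    have := Real.log_lt_log (norm_pos_iff.2 hs0) hs
    unfold rad at this
    rw [Real.log_exp] at this
    linarith
  have hxp := xp_pt_real (x := x) hT0 y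
  have h0 : φ C (pt x τ (fun i => (y i : ℂ))) ≠ 0 := by
    apply leading_ne_zero h H.tf H.fd H.hC H.hne hp
    apply not_mir_of_genX hp
    rw [hxp]
    exact hg
  have hb : bh G (pt x τ (fun i => (y i : ℂ))) < ω.im := by
    rw [bh_pt x hT0 y]
    nlinarith
  have hF0 : F (ω, pt x τ (fun i => (y i : ℂ))) = 0 := by
    have h1 := H.gp_eq hp h0 hb
    rw [hω, hz] at h1
    have h2 := (div_eq_zero_iff.1 h1.symm).resolve_right h0
    exact (mul_eq_zero.1 h2).resolve_right (ee_ne_zero _)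
  have hht := ht_pt (G := G) x hT0 y ω
  have hht2 : η < ht G (ω, pt x τ (fun i => (y i : ℂ))) := by
    rw [hht, lt_sub_iff_add_lt, lt_div_iff₀ hT0]
    exact hωv
  obtain ⟨b, m', n', μ, hw, he⟩ := zero_wall h H.tf (W := (ω, pt x τ (fun i => (y i : ℂ)))) ⟨hp, hb⟩ hF0 (by
    show 1 < τ.im ^ 2 * ht G _
    have : η * τ.im ^ 2 < τ.im ^ 2 * ht G (ω, pt x τ (fun i => (y i : ℂ))) := by
      have := mul_lt_mul_of_pos_left hht2 (pow_pos hT0 2)
      linarith
    nlinarith)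
  have key : ∀ (b m' n' : ℤ) (μ : Fin 20 → ℤ), WallData G 0 b m' n' μ →
      WEq G 0 b m' n' μ (ω, pt x τ (fun i => (y i : ℂ))) →
      nu G 0 b m' n' μ = (m' : ℝ) ^ 2 * (ω.im / τ.im - bf G x x / 2) +
        bf G (lam G μ + (m' : ℝ) • x) (lam G μ + (m' : ℝ) • x) / 2 := by
    intro b m' n' μ _ he
    have h3 := height_id h (W := (ω, pt x τ (fun i => (y i : ℂ)))) hp he
    rw [hht, hxp] at h3
    exact h3
  have hm0 : m' ≠ 0 := by
    intro h00
    subst h00
    have h4 := nu_le_one hw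
    have h5 : nu G 0 b 0 n' μ = bd G μ μ / 2 := by unfold nu; simp
    rw [h5] at h4
    have hmir : pt x τ (fun i => (y i : ℂ)) ∈ Mir G := by
      refine ⟨b, n', μ, by linarith, by linarith, ?_⟩
      have := he
      unfold WEq at this
      simpa using this
    refine not_mir_of_genX hp ?_ hmir
    rw [hxp]
    exact hg
  rcases lt_or_gt_of_ne hm0 with hneg | hpos
  · refine ⟨ω, -b, -m', -n', -μ, hω, him, by omega, WallData_neg hw, WEq_neg he, ?_⟩
    exact key _ _ _ _ (WallData_neg hw) (WEq_neg he)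
  · exact ⟨ω, b, m', n', μ, hω, him, hpos, hw, he, key _ _ _ _ hw he⟩

/-- **the bound for the quotient from a zero free disc** -/
theorem quot_slice (hBC : JobBC) (H : CM G k F φ C m)
    {x : Fin 20 → ℝ} {τ : ℂ} (hτ : 0 < τ.im) (y : Fin 20 → ℝ) {η M : ℝ} (hη : 0 < η) (hM0 : 0 < M)
    (hM : ∀ s : ℂ, ‖s‖ ≤ rad G x η τ.im → ‖gp φ C m (pt x τ (fun i => (y i : ℂ))) s‖ ≤ Real.exp M)
    (hz : ∀ s : ℂ, ‖s‖ < rad G x η τ.im → gp φ C m (pt x τ (fun i => (y i : ℂ))) s ≠ 0) :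
    ‖φ (C + m) (pt x τ (fun i => (y i : ℂ))) / φ C (pt x τ (fun i => (y i : ℂ)))‖ ≤
      2 * M * (2 / rad G x η τ.im) ^ m := by
  have hp := pt_mem (x := x) hτ (fun i => (y i : ℂ))
  set p := pt x τ (fun i => (y i : ℂ)) with hpdef
  have hRR : rad G x η τ.im < Real.exp (-(2 * Real.pi * bh G p)) := by
    unfold rad
    rw [Real.exp_lt_exp, hpdef, bh_pt x hτ y]
    have h1 : τ.im * (bf G x x / 2) < (η + bf G x x / 2) * τ.im := by nlinarith
    have h2 := mul_lt_mul_of_pos_left h1 (by positivity : 0 < 2 * Real.pi)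
    linarith
  have hHd := H.Hs_diff hp
  have hcont : ContinuousAt (fun s => Hs φ C m p s / φ C p) 0 := by
    have : DifferentiableAt ℂ (Hs φ C m p) 0 :=
      hHd.differentiableAt (Metric.isOpen_ball.mem_nhds (Metric.mem_ball_self (Real.exp_pos _)))
    exact (this.div_const _).continuousAt
  have key := hBC m (rad G x η τ.im) M (gp φ C m p) (fun s => Hs φ C m p s / φ C p) H.hm
    (rad_pos _ _ _) hM0
    ((H.gp_diff hp).mono (Metric.ball_subset_ball hRR.le)) hcont (fun s _ => rfl)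
    (fun s hs => hz s (by simpa using hs)) (fun s hs => hM s (by
      have : ‖s‖ < rad G x η τ.im := by simpa using hs
      exact this.le))
  simpa only [Hs_zero] using key

end

end Pool.Agent.Run7.h352.RL
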