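import Pool.Agent.Run7.h352.RL.Gp

set_option autoImplicit false

/-!
# Growth of the theta components from zero free discs
-/

namespace Pool.Agent.Run7.h352.RL

open MeasureTheory Complex Set Finset Topology Pool.Agent.Y813.RL Pool.Agent.Y683.RL

noncomputable section

variable {G : Matrix (Fin 20) (Fin 20) ℤ} {k : ℤ} {F : TP → ℂ}
  {φ : ℕ → ℂ × (Fin 20 → ℂ) → ℂ} {C m : ℕ}

theorem bd_smul (h : PosSymm G) {m : ℕ} (hm : 0 < m) (μ ν : Fin 20 → ℤ) :
    bd ((m : ℤ) • G) μ ν = bd G μ ν / m := by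
  have hm' : (m : ℝ) ≠ 0 := by exact_mod_cast hm.ne'
  have h1 : (((m : ℤ) • G).map (Int.cast : ℤ → ℝ)) = (m : ℝ) • G.map (Int.cast : ℤ → ℝ) := by
    ext i j
    simp only [Matrix.map_apply, Matrix.smul_apply, smul_eq_mul, Int.cast_mul, Int.cast_natCast]
  have h2 : ((m : ℝ) • G.map (Int.cast : ℤ → ℝ))⁻¹ = (m : ℝ)⁻¹ • (G.map (Int.cast : ℤ → ℝ))⁻¹ := by
    apply Matrix.inv_eq_right_inv
    rw [Matrix.smul_mul, Matrix.mul_smul, Matrix.mul_nonsing_inv _ (isUnit_det h), smul_smul,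
      mul_inv_cancel₀ hm', one_smul]
  unfold bd
  rw [h1, h2, Finset.sum_div]
  refine Finset.sum_congr rfl fun i _ => ?_
  rw [Matrix.smul_mulVec, Pi.smul_apply, smul_eq_mul]
  field_simp

/-- bound of the theta component by the maximum on a slice -/
theorem vf_bound (hT1 : JobTheta1) (h : PosSymm G) (hm : 0 < m) {c : ℂ → (Fin 20 → ℂ) → ℂ}
    (hc : JacobiZero ((m : ℤ) • G) c) (μ : Fin 20 → ℤ) (x : Fin 20 → ℝ) {τ : ℂ} (hτ : 0 < τ.im)
    {B : ℝ} (hB : ∀ y : Fin 20 → ℝ, ‖c τ (fun i => τ * (x i : ℂ) + (y i : ℂ))‖ ≤ B) :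
    ‖vf ((m : ℤ) • G) c μ τ‖ ≤
      B * Real.exp (2 * Real.pi * τ.im * (bd G μ μ / (2 * m) + dt μ x)) := by
  have h1 := (hT1 ((m : ℤ) • G) c (posSymm_smul h hm) hc).2.2.1 μ τ
    (fun i => τ * (x i : ℂ)) hτ
  have hB0 : 0 ≤ B := (norm_nonneg _).trans (hB 0)
  have h2 : ‖fc c μ τ‖ ≤ B * Real.exp (2 * Real.pi * τ.im * dt μ x) := by
    rw [h1]
    have h3 : ∀ y ∈ Set.Icc (0 : Fin 20 → ℝ) 1, ‖c τ (fun i => τ * (x i : ℂ) + (y i : ℂ)) *
        ee (-(dt μ (fun i => τ * (x i : ℂ) + (y i : ℂ))))‖ ≤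
          B * Real.exp (2 * Real.pi * τ.im * dt μ x) := by
      intro y _
      rw [norm_mul, norm_ee]
      have e1 : (-(dt μ (fun i => τ * (x i : ℂ) + (y i : ℂ)))).im = -(τ.im * dt μ x) := by
        rw [Complex.neg_im, dt_im]
        have : imv (fun i => τ * (x i : ℂ) + (y i : ℂ)) = τ.im • x := by
          funext i
          simp [imv]
        rw [this, dt_smul]
      rw [e1]
      have e2 : -(2 * Real.pi * -(τ.im * dt μ x)) = 2 * Real.pi * τ.im * dt μ x := by ring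
      rw [e2]
      gcongr
      exact hB y
    have h4 := norm_setIntegral_le_of_norm_le_const
      (μ := (volume : Measure (Fin 20 → ℝ))) (s := Set.Icc (0 : Fin 20 → ℝ) 1)
      (C := B * Real.exp (2 * Real.pi * τ.im * dt μ x)) isCompact_Icc.measure_lt_top h3
    have h5 : (volume : Measure (Fin 20 → ℝ)).real (Set.Icc (0 : Fin 20 → ℝ) 1) = 1 := by
      rw [Measure.real, Real.volume_Icc_pi]
      simp
    rw [h5, mul_one] at h4
    exact h4
  unfold vf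
  rw [norm_mul, norm_ee]
  have e1 : (-(τ * ((bd ((m : ℤ) • G) μ μ : ℝ) : ℂ) / 2)).im = -(τ.im * bd G μ μ / (2 * m)) := by
    rw [bd_smul h hm]
    have : -(τ * ((bd G μ μ / m : ℝ) : ℂ) / 2) = ((-(bd G μ μ / (2 * m)) : ℝ) : ℂ) * τ := by
      push_cast
      ring
    rw [this, Complex.im_ofReal_mul]
    ring
  rw [e1]
  calc Real.exp (-(2 * Real.pi * -(τ.im * bd G μ μ / (2 * m)))) * ‖fc c μ τ‖ ≤
        Real.exp (-(2 * Real.pi * -(τ.im * bd G μ μ / (2 * m)))) *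
          (B * Real.exp (2 * Real.pi * τ.im * dt μ x)) := by gcongr
    _ = B * (Real.exp (-(2 * Real.pi * -(τ.im * bd G μ μ / (2 * m)))) *
          Real.exp (2 * Real.pi * τ.im * dt μ x)) := by ring
    _ = _ := by
        rw [← Real.exp_add]
        congr 2
        ring

/-- the exponent -/
def expo (G : Matrix (Fin 20) (Fin 20) ℤ) (m : ℕ) (μ : Fin 20 → ℤ) (x : Fin 20 → ℝ) (η : ℝ) : ℝ :=
  m * η + m / 2 * bf G (x + (m : ℝ)⁻¹ • lam G μ) (x + (m : ℝ)⁻¹ • lam G μ)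

theorem expo_eq (h : PosSymm G) (hm : 0 < m) (μ : Fin 20 → ℤ) (x : Fin 20 → ℝ) (η : ℝ) :
    expo G m μ x η = bd G μ μ / (2 * m) + dt μ x + m * (η + bf G x x / 2) := by
  have hm' : (m : ℝ) ≠ 0 := by exact_mod_cast hm.ne'
  unfold expo
  rw [bf_add_left, bf_add_right, bf_add_right, bf_smul_left, bf_smul_left, bf_smul_right,
    bf_smul_right, bf_comm h.symm x (lam G μ), bf_lam h, bf_lam_lam h]
  field_simp
  ring

/-- **growth of a theta component from zero free discs on a generic rational slice** -/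
theorem slice_growth (hKD : JobKD) (hBC : JobBC) (hT1 : JobTheta1) (h : PosSymm G)
    (H : CM G k F φ C m) {c : ℂ → (Fin 20 → ℂ) → ℂ} (hc : JacobiZero ((m : ℤ) • G) c)
    (hcφ : ∀ τ z, 0 < τ.im → φ (C + m) (τ, z) = φ C (τ, z) * c τ z)
    (X : Fin 20 → ℤ) {N : ℕ} (hN : 0 < N) (hg : GenX G (xr X N)) {η T₁ : ℝ} (hη : 0 < η)
    (hz : ∀ (τ : ℂ) (y : Fin 20 → ℝ), T₁ ≤ τ.im → ∀ s : ℂ, ‖s‖ < rad G (xr X N) η τ.im →
      gp φ C m (pt (xr X N) τ (fun i => (y i : ℂ))) s ≠ 0) (μ : Fin 20 → ℤ) :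
    ∃ K T₂ : ℝ, 0 < K ∧ 1 ≤ T₂ ∧ ∀ τ : ℂ, T₂ ≤ τ.im →
      ‖vf ((m : ℤ) • G) c μ τ‖ ≤
        K * τ.im * Real.exp (2 * Real.pi * τ.im * expo G m μ (xr X N) η) := by
  obtain ⟨K, T₀, hK, hT₀, hM⟩ := gp_slice hKD h H X hN hg hη
  set x := xr X N with hx
  refine ⟨2 * K * 2 ^ m, max T₀ T₁, by positivity, hT₀.trans (le_max_left _ _), fun τ hτ => ?_⟩
  have hτ0 : T₀ ≤ τ.im := (le_max_left _ _).trans hτ
  have hτ1 : T₁ ≤ τ.im := (le_max_right _ _).trans hτ
  have hT0 : 0 < τ.im := by linarith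
  have hB : ∀ y : Fin 20 → ℝ, ‖c τ (fun i => τ * (x i : ℂ) + (y i : ℂ))‖ ≤
      2 * (K * τ.im) * (2 / rad G x η τ.im) ^ m := by
    intro y
    have h1 := quot_slice hBC H hT0 y hη (M := K * τ.im) (by positivity) (hM τ y hτ0) (hz τ y hτ1)
    have h0 : φ C (pt x τ (fun i => (y i : ℂ))) ≠ 0 := by
      have hp := pt_mem (x := x) hT0 (fun i => (y i : ℂ))
      apply leading_ne_zero h H.tf H.fd H.hC H.hne hp
      apply not_mir_of_genX hp
      rw [xp_pt_real hT0]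
      exact hg
    have h2 : φ (C + m) (pt x τ (fun i => (y i : ℂ))) =
        φ C (pt x τ (fun i => (y i : ℂ))) * c τ (fun i => τ * (x i : ℂ) + (y i : ℂ)) :=
      hcφ τ _ hT0
    rw [h2, mul_div_cancel_left₀ _ h0] at h1
    exact h1
  have h3 := vf_bound hT1 h H.hm hc μ x hT0 hB
  refine h3.trans (le_of_eq ?_)
  rw [expo_eq h H.hm]
  have e1 : (2 / rad G x η τ.im) ^ m =
      2 ^ m * Real.exp (2 * Real.pi * τ.im * (m * (η + bf G x x / 2))) := by
    unfold rad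
    rw [div_pow, ← Real.exp_nat_mul, div_eq_mul_inv, ← Real.exp_neg]
    congr 2
    ring
  rw [e1]
  have e2 : 2 * Real.pi * τ.im * (bd G μ μ / (2 * m) + dt μ x + m * (η + bf G x x / 2)) =
      2 * Real.pi * τ.im * (m * (η + bf G x x / 2)) +
        2 * Real.pi * τ.im * (bd G μ μ / (2 * m) + dt μ x) := by ring
  rw [e2, Real.exp_add]
  ring

/-- from large imaginary part to `1 / 2 ≤ Im τ` -/
theorem ext_bound {f : ℂ → ℂ} (hf : ContinuousOn f {τ | 0 < τ.im})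
    (hper : ∀ τ : ℂ, 0 < τ.im → ‖f (τ + 1)‖ = ‖f τ‖) {E A T : ℝ}
    (hb : ∀ τ : ℂ, T ≤ τ.im → ‖f τ‖ ≤ A * Real.exp (E * τ.im)) :
    ∃ A' : ℝ, ∀ τ : ℂ, 1 / 2 ≤ τ.im → ‖f τ‖ ≤ A' * Real.exp (E * τ.im) := by
  have hc : ContinuousOn (fun p : ℝ × ℝ => f ((p.1 : ℂ) + (p.2 : ℂ) * Complex.I))
      (Set.Icc 0 1 ×ˢ Set.Icc (1 / 2) (max T 1)) := by
    refine hf.comp (by fun_prop) ?_
    rintro ⟨a, b⟩ ⟨_, hb2⟩
    show 0 < ((a : ℂ) + (b : ℂ) * Complex.I).im
    have : ((a : ℂ) + (b : ℂ) * Complex.I).im = b := by simp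
    rw [this]
    have := hb2.1
    linarith
  obtain ⟨M, hM⟩ := (isCompact_Icc.prod isCompact_Icc).exists_bound_of_continuousOn hc
  have hM0 : 0 ≤ M := (norm_nonneg _).trans (hM (0, 1 / 2) ⟨⟨le_rfl, zero_le_one⟩, ⟨le_rfl, by
    refine le_trans ?_ (le_max_right _ _)
    norm_num⟩⟩)
  have hint : ∀ (n : ℕ) (τ : ℂ), 0 < τ.im → ‖f (τ + n)‖ = ‖f τ‖ := by
    intro n
    induction n with
    | zero => intro τ _; simp
    | succ n ih =>
      intro τ hτ
      rw [← ih τ hτ, ← hper (τ + n) (by simpa using hτ)]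
      congr 2
      push_cast
      ring
  have hint2 : ∀ (n : ℤ) (τ : ℂ), 0 < τ.im → ‖f (τ + n)‖ = ‖f τ‖ := by
    intro n τ hτ
    rcases Int.eq_nat_or_neg n with ⟨a, ha | ha⟩
    · rw [ha]
      exact_mod_cast hint a τ hτ
    · have := hint a (τ + n) (by simpa using hτ)
      rw [← this, ha]
      congr 2
      push_cast
      ring
  refine ⟨max A 0 + M * Real.exp (|E| * max T 1), fun τ hτ => ?_⟩
  have hτ0 : 0 < τ.im := by linarith
  rcases le_or_gt T τ.im with h1 | h1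
  · refine (hb τ h1).trans ?_
    gcongr
    have : 0 ≤ M * Real.exp (|E| * max T 1) := by positivity
    linarith [le_max_left A 0]
  · have h2 := hint2 (-⌊τ.re⌋) τ hτ0
    have h3 : τ + ((-⌊τ.re⌋ : ℤ) : ℂ) = ((Int.fract τ.re : ℝ) : ℂ) + (τ.im : ℂ) * Complex.I := by
      apply Complex.ext
      · have : (τ + ((-⌊τ.re⌋ : ℤ) : ℂ)).re = τ.re - ⌊τ.re⌋ := by simp [sub_eq_add_neg]
        rw [this, Int.self_sub_floor]
        simp
      · simp
    rw [← h2, h3]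
    have h4 := hM (Int.fract τ.re, τ.im) ⟨⟨Int.fract_nonneg _, (Int.fract_lt_one _).le⟩,
      ⟨hτ, h1.le.trans (le_max_left _ _)⟩⟩
    refine h4.trans ?_
    have h5 : 1 ≤ Real.exp (|E| * max T 1) * Real.exp (E * τ.im) := by
      rw [← Real.exp_add]
      apply Real.one_le_exp
      have h6 : -(|E| * τ.im) ≤ E * τ.im := by
        have := neg_abs_le E
        nlinarith
      have h7 : |E| * τ.im ≤ |E| * max T 1 := by
        gcongr
        exact h1.le.trans (le_max_left _ _)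
      linarith
    calc M = M * 1 := (mul_one M).symm
      _ ≤ M * (Real.exp (|E| * max T 1) * Real.exp (E * τ.im)) := by gcongr
      _ = (M * Real.exp (|E| * max T 1)) * Real.exp (E * τ.im) := by ring
      _ ≤ _ := by
        gcongr
        linarith [le_max_right A 0]

/-- absorbing a linear factor -/
theorem absorb {K T E ε : ℝ} (hK : 0 ≤ K) (hε : 0 < ε) (hT : 0 ≤ T) :
    K * T * Real.exp (2 * Real.pi * T * E) ≤ K / ε * Real.exp (2 * Real.pi * (E + ε) * T) := by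
  have h1 : T * ε ≤ Real.exp (2 * Real.pi * ε * T) := by
    have h2 : 2 * Real.pi * ε * T + 1 ≤ Real.exp (2 * Real.pi * ε * T) := Real.add_one_le_exp _
    have h3 : (1 : ℝ) ≤ 2 * Real.pi := by linarith [Real.pi_gt_three]
    have h4 : T * ε ≤ 2 * Real.pi * (T * ε) := le_mul_of_one_le_left (by positivity) h3
    nlinarith
  have e1 : 2 * Real.pi * (E + ε) * T = 2 * Real.pi * ε * T + 2 * Real.pi * T * E := by ring
  rw [e1, Real.exp_add]
  calc K * T * Real.exp (2 * Real.pi * T * E) = K / ε * (T * ε * Real.exp (2 * Real.pi * T * E)) := by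
        field_simp
    _ ≤ K / ε * (Real.exp (2 * Real.pi * ε * T) * Real.exp (2 * Real.pi * T * E)) := by gcongr

end

end Pool.Agent.Run7.h352.RL
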