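import Pool.Agent.Run7.h352.RL.Nbd
import Pool.Agent.Y813.RL.Per
import Pool.Agent.Y155.RL.VD

set_option autoImplicit false

/-!
# A lower bound for the leading coefficient on generic rational slices
-/

namespace Pool.Agent.Run7.h352.RL

open Complex Set Finset Topology Pool.Agent.Y813.RL Pool.Agent.Y683.RL

noncomputable section

variable {G : Matrix (Fin 20) (Fin 20) ℤ} {k : ℤ} {F : TP → ℂ}
  {φ : ℕ → ℂ × (Fin 20 → ℂ) → ℂ} {C m : ℕ}

/-- `x` does not lie on the relevant mirrors -/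
def GenX (G : Matrix (Fin 20) (Fin 20) ℤ) (x : Fin 20 → ℝ) : Prop :=
  ∀ μ : Fin 20 → ℤ, 0 < bd G μ μ → bd G μ μ ≤ 2 → x ∈ gs μ

theorem isOpen_genX (h : PosSymm G) : IsOpen {x | GenX G x} := by
  have hfin := short_finite h 2
  have e : {x | GenX G x} = ⋂ μ ∈ {μ : Fin 20 → ℤ | bd G μ μ ≤ 2}, {x | 0 < bd G μ μ → x ∈ gs μ} := by
    ext x
    simp only [GenX, Set.mem_ofPred_eq, Set.mem_iInter]
    exact ⟨fun h1 μ h2 h3 => h1 μ h3 h2, fun h1 μ h2 h3 => h1 μ h3 h2⟩
  rw [e]
  refine hfin.isOpen_biInter fun μ _ => ?_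
  by_cases h0 : 0 < bd G μ μ
  · have : {x : Fin 20 → ℝ | 0 < bd G μ μ → x ∈ gs μ} = gs μ := by
      ext x; simp [h0]
    rw [this]
    exact isOpen_gs μ
  · have : {x : Fin 20 → ℝ | 0 < bd G μ μ → x ∈ gs μ} = Set.univ := by
      ext x; simp [h0]
    rw [this]
    exact isOpen_univ

/-- the point over `x` -/
def pt (x : Fin 20 → ℝ) (τ : ℂ) (y : Fin 20 → ℂ) : ℂ × (Fin 20 → ℂ) :=
  (τ, fun i => τ * (x i : ℂ) + y i)

theorem xp_pt {x : Fin 20 → ℝ} {τ : ℂ} (hτ : 0 < τ.im) (y : Fin 20 → ℂ) (i : Fin 20) :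
    xp (pt x τ y) i = x i + (y i).im / τ.im := by
  simp only [xp, pt, Pi.smul_apply, smul_eq_mul, imv, Complex.add_im, Complex.mul_im,
    Complex.ofReal_re, Complex.ofReal_im, mul_zero, zero_add]
  field_simp

theorem xp_pt_real {x : Fin 20 → ℝ} {τ : ℂ} (hτ : 0 < τ.im) (y : Fin 20 → ℝ) :
    xp (pt x τ (fun i => (y i : ℂ))) = x := by
  funext i
  rw [xp_pt hτ]
  simp

theorem pt_mem {x : Fin 20 → ℝ} {τ : ℂ} (hτ : 0 < τ.im) (y : Fin 20 → ℂ) : pt x τ y ∈ UP := hτ

theorem not_mir_of_genX {p : ℂ × (Fin 20 → ℂ)} (hp : p ∈ UP) (hx : GenX G (xp p)) : p ∉ Mir G :=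
  (not_mir hp).2 fun μ h1 h2 => Or.inl (hx μ h1 h2)

/-- upper bound for the leading coefficient near a rational slice -/
theorem upper_nbhd (hKD : JobKD) (h : PosSymm G) (hF : TubeForm G k F) (hφ : FJD G F φ) (C : ℕ)
    (X : Fin 20 → ℤ) {N : ℕ} (hN : 0 < N) : ∃ ρ K : ℝ, 0 < ρ ∧ 0 < K ∧ ∀ p ∈ UP,
      1 ≤ p.1.im → (∀ i, |xp p i - xr X N i| ≤ ρ) → ‖φ C p‖ ≤ Real.exp (K * p.1.im) := by
  obtain ⟨ρ₁, M, hρ₁, hM⟩ := bound_nbhd hKD h hF X hN one_pos
  set x := xr X N with hx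
  set q := bf G x x with hq
  have hq0 : 0 ≤ q := h.nonneg _
  have hcont : Continuous fun x' : Fin 20 → ℝ => bf G x' x' := bf_contR G continuous_id continuous_id
  obtain ⟨ρ₂, hρ₂, hball⟩ := Metric.isOpen_iff.1
    (isOpen_lt hcont continuous_const : IsOpen {x' : Fin 20 → ℝ | bf G x' x' < q + 1}) x (by
      show bf G x x < q + 1
      rw [hq]; linarith)
  set M1 := max M 1 with hM1
  have hM1' : 1 ≤ M1 := le_max_right _ _
  have hpi := Real.pi_pos
  refine ⟨min ρ₁ (ρ₂ / 2), Real.log M1 + 2 * Real.pi * C * (1 + q / 2) + 1, by positivity, ?_, ?_⟩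
  · have := Real.log_nonneg hM1'
    positivity
  intro p hp hT hd
  have hT0 : 0 < p.1.im := by linarith
  have hd1 : ∀ i, |xp p i - x i| ≤ ρ₁ := fun i => (hd i).trans (min_le_left _ _)
  have hmem : xp p ∈ Metric.ball x ρ₂ := by
    rw [Metric.mem_ball, dist_pi_lt_iff hρ₂]
    intro i
    rw [Real.dist_eq]
    have := (hd i).trans (min_le_right ρ₁ (ρ₂ / 2))
    linarith
  have hq' : bf G (xp p) (xp p) < q + 1 := hball hmem
  set v := (1 + q / 2) * p.1.im with hv
  have hbh : bh G p < v := by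
    rw [bh_eq hp, hv]
    nlinarith
  rw [hφ.coeff C p v hp hbh]
  have h3 : ∀ u ∈ Set.uIoc (0 : ℝ) 1, ‖F ((u : ℂ) + (v : ℂ) * Complex.I, p) *
      ee (-((C : ℂ) * ((u : ℂ) + (v : ℂ) * Complex.I)))‖ ≤
        M1 * Real.exp (2 * Real.pi * C * v) := by
    intro u _
    rw [norm_mul, norm_ee]
    have e1 : (-((C : ℂ) * ((u : ℂ) + (v : ℂ) * Complex.I))).im = -(C * v) := by
      simp
    rw [e1]
    have e2 : ‖F ((u : ℂ) + (v : ℂ) * Complex.I, p)‖ ≤ M1 := by
      refine (hM _ hT ?_ ?_).trans (le_max_left _ _)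
      · intro i
        have : imv p.2 i / p.1.im = xp p i := by
          simp only [xp, Pi.smul_apply, smul_eq_mul]
          rw [div_eq_inv_mul]
        show |imv p.2 i / p.1.im - x i| ≤ ρ₁
        rw [this]
        exact hd1 i
      · have : ((u : ℂ) + (v : ℂ) * Complex.I).im = v := by simp
        show (1 + q / 2) * p.1.im ≤ ((u : ℂ) + (v : ℂ) * Complex.I).im
        rw [this]
    have e3 : -(2 * Real.pi * -(C * v)) = 2 * Real.pi * C * v := by ring
    rw [e3]
    gcongr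
  have h4 := intervalIntegral.norm_integral_le_of_norm_le_const h3
  simp only [sub_zero, abs_one, mul_one] at h4
  refine h4.trans ?_
  have h5 : M1 ≤ Real.exp (Real.log M1 * p.1.im) := by
    have h6 : Real.log M1 ≤ Real.log M1 * p.1.im := le_mul_of_one_le_right (Real.log_nonneg hM1') hT
    calc M1 = Real.exp (Real.log M1) := (Real.exp_log (by linarith)).symm
      _ ≤ _ := Real.exp_le_exp.2 h6
  calc M1 * Real.exp (2 * Real.pi * C * v) ≤
        Real.exp (Real.log M1 * p.1.im) * Real.exp (2 * Real.pi * C * v) := by gcongr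
    _ = Real.exp (Real.log M1 * p.1.im + 2 * Real.pi * C * v) := by rw [Real.exp_add]
    _ ≤ _ := by
      apply Real.exp_le_exp.2
      rw [hv]
      nlinarith

theorem law_T_nat (hF : TubeForm G k F) (hφ : FJD G F φ) (j : ℕ) {τ : ℂ} (z : Fin 20 → ℂ)
    (hτ : 0 < τ.im) (n : ℕ) : φ j (τ + n, z) = φ j (τ, z) := by
  induction n with
  | zero => simp
  | succ n ih =>
    rw [← ih, ← law_T hF hφ j z (τ := τ + n) (by simpa using hτ)]
    congr 2
    push_cast
    ring

/-- lower bound at the base point of the slice -/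
theorem lower_base (hKD : JobKD) (h : PosSymm G) (H : CM G k F φ C m) (X : Fin 20 → ℤ) {N : ℕ}
    (hN : 0 < N) (hg : GenX G (xr X N)) : ∃ K T₀ : ℝ, 0 < K ∧ 1 ≤ T₀ ∧ ∀ τ : ℂ, T₀ ≤ τ.im →
      Real.exp (-(K * τ.im)) ≤ ‖φ C (pt (xr X N) τ 0)‖ := by
  obtain ⟨ρ, K₁, hρ, hK₁, hup⟩ := upper_nbhd hKD h H.tf H.fd C X hN
  have hN' : (0 : ℝ) < N := by exact_mod_cast hN
  set x := xr X N with hx
  set f : ℂ → ℂ := fun t => φ C (pt x (N * t) 0) with hf
  have him : ∀ t : ℂ, ((N : ℂ) * t).im = N * t.im := fun t => by simp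
  have hHP : HP 0 f := by
    constructor
    · refine (H.fd.holo C).comp (t := UP) (f := fun t : ℂ => pt x (N * t) 0) ?_ ?_
      · unfold pt
        fun_prop
      · intro t ht
        have ht' : 0 < t.im := ht
        show 0 < ((N : ℂ) * t).im
        rw [him]
        positivity
    · intro t ht
      have ht' : 0 < t.im := ht
      have h1 : 0 < ((N : ℂ) * t).im := by rw [him]; positivity
      simp only [hf, pt]
      have h2 := law_T_nat H.tf H.fd C (fun i => (N : ℂ) * t * (x i : ℂ) + (0 : Fin 20 → ℂ) i) h1 N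
      rw [← h2, ← law_z H.tf H.fd C _ X (τ := (N : ℂ) * t + N) (by simpa using h1)]
      congr 1
      refine Prod.ext ?_ ?_
      · simp only
        ring
      · funext i
        have : (x i : ℂ) = (X i : ℂ) / N := by rw [hx]; simp [xr]
        simp only [this, Pi.zero_apply, add_zero]
        have hN0 : (N : ℂ) ≠ 0 := by exact_mod_cast hN.ne'
        field_simp
  have hne : ∃ t : ℂ, 0 < t.im ∧ f t ≠ 0 := by
    refine ⟨Complex.I, by simp, ?_⟩
    have h1 : 0 < ((N : ℂ) * Complex.I).im := by rw [him]; simpa using hN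
    apply leading_ne_zero h H.tf H.fd H.hC H.hne (pt_mem h1 _)
    apply not_mir_of_genX (pt_mem h1 _)
    have := xp_pt_real (x := x) h1 0
    simp only [Pi.zero_apply, Complex.ofReal_zero] at this
    have e : (fun _ : Fin 20 => (0 : ℂ)) = 0 := rfl
    rw [e] at this
    rw [this]
    exact hg
  have hb : ∀ t : ℂ, 1 ≤ t.im → ‖f t‖ ≤ 1 * Real.exp ((K₁ * N) * t.im) := by
    intro t ht
    have h1 : 1 ≤ ((N : ℂ) * t).im := by
      rw [him]
      have : (1 : ℝ) ≤ N := by exact_mod_cast hN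
      nlinarith
    have h2 := hup (pt x (N * t) 0) (pt_mem (by linarith) _) h1 (by
      intro i
      rw [xp_pt (by linarith : 0 < ((N : ℂ) * t).im)]
      simp [hρ.le])
    have h3 : (pt x (N * t) 0).1.im = N * t.im := him t
    rw [h3] at h2
    rw [one_mul, mul_assoc]
    exact h2
  obtain ⟨c, a', T₁, hc, hlow⟩ := per_lower hHP hne hb
  -- absorb the constant
  refine ⟨|a'| / N + |Real.log c| + 1, max 1 (N * |T₁|), by positivity, le_max_left _ _, fun τ hτ => ?_⟩
  have hT1 : 1 ≤ τ.im := (le_max_left _ _).trans hτ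
  have hT2 : N * |T₁| ≤ τ.im := (le_max_right _ _).trans hτ
  have hN0 : (N : ℂ) ≠ 0 := by exact_mod_cast hN.ne'
  have e1 : (τ / N).im = τ.im / N := by
    have : τ / (N : ℂ) = τ / ((N : ℝ) : ℂ) := by simp
    rw [this, Complex.div_ofReal_im]
  have h1 := hlow (τ / N) (by
    rw [e1, le_div_iff₀ hN']
    have : T₁ * N ≤ |T₁| * N := by
      gcongr
      exact le_abs_self _
    linarith)
  have e2 : f (τ / N) = φ C (pt x τ 0) := by
    simp only [hf]
    rw [mul_div_cancel₀ _ hN0]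
  rw [e2, e1] at h1
  refine le_trans ?_ h1
  have h2 : Real.exp (-(|Real.log c| * τ.im)) ≤ c := by
    have h3 : -(|Real.log c| * τ.im) ≤ Real.log c := by
      have h4 := neg_abs_le (Real.log c)
      have h5 : |Real.log c| ≤ |Real.log c| * τ.im := le_mul_of_one_le_right (abs_nonneg _) hT1
      linarith
    calc Real.exp (-(|Real.log c| * τ.im)) ≤ Real.exp (Real.log c) := Real.exp_le_exp.2 h3
      _ = c := Real.exp_log hc
  calc Real.exp (-((|a'| / N + |Real.log c| + 1) * τ.im)) ≤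
        Real.exp (-(|Real.log c| * τ.im)) * Real.exp (-(a' * (τ.im / N))) := by
        rw [← Real.exp_add]
        apply Real.exp_le_exp.2
        have h6 : a' * (τ.im / N) ≤ |a'| / N * τ.im := by
          have : |a'| / N * τ.im = |a'| * (τ.im / N) := by ring
          rw [this]
          gcongr
          exact le_abs_self _
        nlinarith
    _ ≤ c * Real.exp (-(a' * (τ.im / N))) := by gcongr

/-- Harnack's inequality in the form that we need -/
theorem harnack {g : ℂ → ℂ} (hg : DifferentiableOn ℂ g (Metric.ball 0 2))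
    (h0 : ∀ s ∈ Metric.ball (0 : ℂ) 2, g s ≠ 0) {A B : ℝ} (hAB : 0 < A + B)
    (hA : ∀ s ∈ Metric.ball (0 : ℂ) 2, ‖g s‖ ≤ Real.exp A) (hB : Real.exp (-B) ≤ ‖g 0‖) :
    Real.exp (-(B + 2 * (A + B))) ≤ ‖g 1‖ := by
  have h00 : g 0 ≠ 0 := h0 0 (by simp)
  obtain ⟨f, hf0, hfd, hfe⟩ := Pool.Agent.Y155.RL.exists_log (R := 2) (g := fun s => g s / g 0)
    two_pos (hg.div_const _) (fun s hs => div_ne_zero (h0 s hs) h00) (div_self h00)
  have hfD : DifferentiableOn ℂ f (Metric.ball 0 2) := fun z hz =>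
    (hfd z hz).differentiableAt.differentiableWithinAt
  have hg0 : 0 < ‖g 0‖ := norm_pos_iff.2 h00
  have hre : ∀ z ∈ Metric.ball (0 : ℂ) 2, (f z).re ≤ A + B := by
    intro z hz
    have h1 : Real.exp (f z).re = ‖g z / g 0‖ := by rw [← Complex.norm_exp, hfe z hz]
    have h2 : ‖g z / g 0‖ ≤ Real.exp (A + B) := by
      rw [norm_div, div_le_iff₀ hg0]
      calc ‖g z‖ ≤ Real.exp A := hA z hz
        _ = Real.exp (A + B) * Real.exp (-B) := by rw [← Real.exp_add]; congr 1; ring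
        _ ≤ _ := by gcongr
    rw [← h1] at h2
    exact Real.exp_le_exp.1 h2
  have h1m : (1 : ℂ) ∈ Metric.ball (0 : ℂ) 2 := by simp
  have h3 := Complex.borelCaratheodory_zero (M := A + B) hAB hfD (fun z hz => hre z hz) two_pos h1m hf0
  rw [norm_one] at h3
  have h4 : -(2 * (A + B)) ≤ (f 1).re := by
    have h5 := neg_abs_le (f 1).re
    have h6 := Complex.abs_re_le_norm (f 1)
    have h7 : 2 * (A + B) * 1 / (2 - 1) = 2 * (A + B) := by ring
    linarith
  have h8 : ‖g 1‖ = Real.exp (f 1).re * ‖g 0‖ := by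
    rw [← Complex.norm_exp, hfe 1 h1m, norm_div]
    field_simp
  rw [h8]
  calc Real.exp (-(B + 2 * (A + B))) = Real.exp (-(2 * (A + B))) * Real.exp (-B) := by
        rw [← Real.exp_add]; congr 1; ring
    _ ≤ _ := by gcongr

/-- **lower bound for the leading coefficient on a generic rational slice** -/
theorem lower_slice (hKD : JobKD) (h : PosSymm G) (H : CM G k F φ C m) (X : Fin 20 → ℤ) {N : ℕ}
    (hN : 0 < N) (hg : GenX G (xr X N)) : ∃ K T₀ : ℝ, 0 < K ∧ 1 ≤ T₀ ∧
      ∀ (τ : ℂ) (y : Fin 20 → ℝ), T₀ ≤ τ.im →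
        Real.exp (-(K * τ.im)) ≤ ‖φ C (pt (xr X N) τ (fun i => (y i : ℂ)))‖ := by
  obtain ⟨ρ, K₁, hρ, hK₁, hup⟩ := upper_nbhd hKD h H.tf H.fd C X hN
  obtain ⟨K₂, T₂, hK₂, hT₂, hlow⟩ := lower_base hKD h H X hN hg
  set x := xr X N with hx
  obtain ⟨ρ', hρ', hball⟩ := Metric.isOpen_iff.1 (isOpen_genX h) x hg
  have key : ∀ (τ : ℂ) (y : Fin 20 → ℝ), max T₂ (2 / ρ + 4 / ρ') ≤ τ.im → (∀ i, |y i| ≤ 1) →
      Real.exp (-((K₂ + 2 * (K₁ + K₂)) * τ.im)) ≤ ‖φ C (pt x τ (fun i => (y i : ℂ)))‖ := by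
    intro τ y hτ hy
    have hT2 : T₂ ≤ τ.im := (le_max_left _ _).trans hτ
    have hT3 : 2 / ρ + 4 / ρ' ≤ τ.im := (le_max_right _ _).trans hτ
    have hT1 : 1 ≤ τ.im := hT₂.trans hT2
    have hT0 : 0 < τ.im := by linarith
    have hTρ : 2 / τ.im ≤ ρ := by
      rw [div_le_iff₀ hT0]
      have : 2 / ρ ≤ τ.im := by
        have : 0 < 4 / ρ' := by positivity
        linarith
      rw [div_le_iff₀ hρ] at this
      linarith
    have hTρ' : 2 / τ.im < ρ' := by
      rw [div_lt_iff₀ hT0]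
      have : 4 / ρ' ≤ τ.im := by
        have : 0 < 2 / ρ := by positivity
        linarith
      rw [div_le_iff₀ hρ'] at this
      linarith
    have hxs : ∀ s ∈ Metric.ball (0 : ℂ) 2, ∀ i,
        |xp (pt x τ (fun i => s * (y i : ℂ))) i - x i| ≤ 2 / τ.im := by
      intro s hs i
      rw [Metric.mem_ball, dist_zero_right] at hs
      rw [xp_pt hT0]
      have : (s * (y i : ℂ)).im = s.im * y i := by simp [Complex.mul_im]
      rw [this, add_sub_cancel_left, abs_div, abs_of_pos hT0, abs_mul]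
      gcongr
      calc |s.im| * |y i| ≤ 2 * 1 := by
            gcongr
            · exact (Complex.abs_im_le_norm s).trans hs.le
            · exact hy i
        _ = 2 := by norm_num
    set g : ℂ → ℂ := fun s => φ C (pt x τ (fun i => s * (y i : ℂ))) with hgdef
    have h1 := harnack (g := g) (A := K₁ * τ.im) (B := K₂ * τ.im) (by
      refine (H.fd.holo C).comp (t := UP) ?_ ?_
      · unfold pt
        fun_prop
      · intro s _
        exact hT0) (by
      intro s hs
      refine leading_ne_zero h H.tf H.fd H.hC H.hne (pt_mem hT0 _) (not_mir_of_genX (pt_mem hT0 _) ?_)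
      apply hball
      rw [Metric.mem_ball, dist_pi_lt_iff hρ']
      intro i
      rw [Real.dist_eq]
      exact (hxs s hs i).trans_lt hTρ') (by positivity) (by
      intro s hs
      exact hup _ (pt_mem hT0 _) hT1 fun i => (hxs s hs i).trans hTρ) (by
      have := hlow τ hT2
      have e : g 0 = φ C (pt x τ 0) := by
        simp only [hgdef, zero_mul]
        rfl
      rw [e]
      exact this)
    have e1 : g 1 = φ C (pt x τ (fun i => (y i : ℂ))) := by
      simp only [hgdef, one_mul]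
    rw [e1] at h1
    refine le_trans (le_of_eq ?_) h1
    congr 1
    ring
  refine ⟨K₂ + 2 * (K₁ + K₂), max T₂ (2 / ρ + 4 / ρ'), by positivity, hT₂.trans (le_max_left _ _),
    fun τ y hτ => ?_⟩
  have hT0 : 0 < τ.im := by
    have := hT₂.trans ((le_max_left _ _).trans hτ)
    linarith
  have h1 := key τ (fun i => Int.fract (y i)) hτ (fun i => by
    rw [abs_of_nonneg (Int.fract_nonneg _)]
    exact (Int.fract_lt_one _).le)
  have h2 := law_z H.tf H.fd C (fun i => τ * (x i : ℂ) + ((Int.fract (y i) : ℝ) : ℂ))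
    (fun i => ⌊y i⌋) hT0
  have e1 : (fun i => τ * (x i : ℂ) + ((Int.fract (y i) : ℝ) : ℂ) + ((⌊y i⌋ : ℤ) : ℂ)) =
      fun i => τ * (x i : ℂ) + (y i : ℂ) := by
    funext i
    rw [add_assoc]
    congr 1
    have := Int.fract_add_floor (y i)
    exact_mod_cast congrArg (fun r : ℝ => (r : ℂ)) this
  rw [e1] at h2
  show _ ≤ ‖φ C (τ, fun i => τ * (x i : ℂ) + (y i : ℂ))‖
  rw [h2]
  exact h1

end

end Pool.Agent.Run7.h352.RL
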