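import Pool.Agent.Run7.h352.RL.Three
import Pool.Agent.Run7.h352.RL.Disc
import Pool.Agent.Y813.RL.Jac2
import Pool.Agent.Y813.RL.Comp
import Pool.Agent.Y155.RL.DIV
import Pool.Agent.Y155.RL.VD
import Pool.Agent.Y683.RL.Kd
import Pool.Agent.Y683.RL.Fj

set_option autoImplicit false

/-!
# Reflective lattices `2U + L(-1)` of signature (2,22)
-/

namespace Pool.Agent.Run7.h352.RL

open MeasureTheory Complex Set Finset Topology Pool.Agent.Y813.RL Pool.Agent.Y683.RL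

noncomputable section

variable {G : Matrix (Fin 20) (Fin 20) ℤ}

/-- the theta components determine the Jacobi form -/
theorem jac_of_vf (hT1 : JobTheta1) {A : Matrix (Fin 20) (Fin 20) ℤ}
    (h : PosSymm A) {c : ℂ → (Fin 20 → ℂ) → ℂ} (hc : JacobiZero A c)
    (h0 : ∀ μ, ∀ τ : ℂ, 0 < τ.im → vf A c μ τ = 0) :
    ∀ (τ : ℂ) (z : Fin 20 → ℂ), 0 < τ.im → c τ z = 0 := by
  intro τ z hτ
  have hfc : ∀ μ : Fin 20 → ℤ, fc c μ τ = 0 := by
    intro μ
    have h1 := h0 μ τ hτ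
    unfold vf at h1
    exact (mul_eq_zero.1 h1).resolve_left (Pool.Agent.Y813.RL.ee_ne_zero _)
  have hs := (hT1 A c h hc).2.2.2.2 τ z hτ
  simp only [hfc, zero_mul] at hs
  exact hs.unique hasSum_zero

/-- **a reflective form on the tube domain determines the genus** -/
theorem tube_genus (h : PosSymm G) (heven : ∀ i, Even (G i i)) {k : ℤ} {F : TP → ℂ}
    (hF : TubeForm G k F) : Pool.Agent.Y813.RL.SameGenus G Pool.Agent.Y813.RL.gramEED := by
  have hKD : JobKD := Pool.Agent.Y683.RL.jobKD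
  have hFJ : JobFJ := Pool.Agent.Y683.RL.jobFJ
  have hBC : JobBC := Pool.Agent.Y155.RL.bc
  have hDIV : JobDIV := Pool.Agent.Y155.RL.div
  have hVD : JobVD := Pool.Agent.Y155.RL.vd
  have hT1 : JobTheta1 := THETA1.theta1
  have hT2 : JobTheta2 := THETA2.theta2
  have hVV : JobVV := VV.vv
  have hFF : JobFF := FF.ff
  obtain ⟨φ, hφ⟩ := exists_FJD hFJ hKD h hF
  obtain ⟨C, m, hm, h1, h2, h3, h4⟩ := exists_second h hF hφ
  have H : CM G k F φ C m := ⟨hF, hφ, hm, h1, h2, h3, h4⟩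
  obtain ⟨c, hc, hcφ⟩ := H.exists_jacobi hBC hDIV h
  have hm1 : m = 1 := index_one hKD hBC hVD hT1 hT2 hVV hFF h H hc hcφ
  subst hm1
  have hgrow := fun μ => growth_one hKD hBC hT1 h H hc hcφ μ
  have hG1 : (((1 : ℕ) : ℤ) • G) = G := by simp
  rw [hG1] at hc hgrow
  obtain ⟨-, ⟨R, hR⟩, -⟩ := hFF G h
  have hv := vf_VV10 hT1 hT2 h hc hR
  have hLL := LL_zero hVV hFF ODE1.ode1 ODE2.ode2 h heven hR hv (fun μ => (hgrow μ).1)
    (fun μ => (hgrow μ).2)
  have hne : ∃ μ, ∃ τ : ℂ, 0 < τ.im ∧ vf G c μ τ ≠ 0 := by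
    by_contra hcon
    push Not at hcon
    have h0 := jac_of_vf hT1 h hc hcon
    obtain ⟨p, hp, hpne⟩ := H.hne2
    apply hpne
    have := hcφ p.1 p.2 hp
    rw [h0 p.1 p.2 hp, mul_zero] at this
    exact this
  obtain ⟨hodd, hdet⟩ := ODE3.ode3 hVV hFF G R (vf G c) h heven hR hv (fun μ => (hgrow μ).1)
    (fun μ => (hgrow μ).2) hne hLL
  exact genus G h heven hodd hdet

/-- **The genus of `L` for a reflective lattice `2U + L(-1)` of signature (2,22).** -/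
theorem reflective_genus (G : Matrix (Fin 20) (Fin 20) ℤ) (hsymm : G.IsSymm)
    (heven : ∀ i, Even (G i i))
    (hpos : ∀ x : Fin 20 → ℝ, x ≠ 0 → 0 < Pool.Agent.Y813.Refl.form G x x)
    (Z₀ : Fin 4 ⊕ Fin 20 → ℂ)
    (hZ₀ : Z₀ ∈ Pool.Agent.Y813.Refl.quadric (Pool.Agent.Y813.Refl.gramM G))
    (hrefl : Pool.Agent.Y813.Refl.IsReflectiveLattice (Pool.Agent.Y813.Refl.gramM G)
      (connectedComponentIn (Pool.Agent.Y813.Refl.quadric (Pool.Agent.Y813.Refl.gramM G)) Z₀)) :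
    Pool.Agent.Y813.Refl.SameGenus G Pool.Agent.Y813.Refl.gramEED := by
  have h : PosSymm G := ⟨hsymm, hpos⟩
  obtain ⟨k, F, hF⟩ := TUBE.tube G h heven (reflective_component h hZ₀ hrefl)
  exact tube_genus h heven hF

end

end Pool.Agent.Run7.h352.RL
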