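import Pool.Agent.Y813.RL.Bnd

set_option autoImplicit false

/-!
# Boundedness of tube forms in neighbourhoods of rational slices
-/

namespace Pool.Agent.Run7.h352.RL

open Complex Set Finset Pool.Agent.Y813.RL

noncomputable section

variable {G : Matrix (Fin 20) (Fin 20) ℤ}

/-- the function is bounded by `M` over the point `V` of the cone -/
def InQ (G : Matrix (Fin 20) (Fin 20) ℤ) (F : TP → ℂ) (M : ℝ) (V : ℝ × (ℝ × (Fin 20 → ℝ))) : Prop :=
  0 < V.2.1 ∧ 0 < kf G V V ∧ ∀ W : TP, imW W = V → ‖F W‖ ≤ M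

theorem InQ.step (hKD : JobKD) (h : PosSymm G) {k : ℤ} {F : TP → ℂ} (hF : TubeForm G k F)
    {e u : ℤ × (ℤ × (Fin 20 → ℤ))} (hee : kf G e e = 0) (heu : kf G e u = 0)
    (huu : kf G u u < 0) (hpos : PosDir G (cR e)) (he : 0 ≤ e.2.1) {M : ℝ}
    {V : ℝ × (ℝ × (Fin 20 → ℝ))} (hV : InQ G F M V) {t : ℝ} (ht : 0 ≤ t) :
    InQ G F M (V + t • cR e) := by
  obtain ⟨h1, h2, h3⟩ := hV
  have hk : 0 < kf G (cR e) V := hpos V h1 h2
  refine ⟨?_, ?_, ?_⟩
  · have : (V + t • cR e).2.1 = V.2.1 + t * (e.2.1 : ℝ) := by simp [cR]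
    rw [this]
    have he' : (0 : ℝ) ≤ e.2.1 := by exact_mod_cast he
    have := mul_nonneg ht he'
    linarith
  · rw [kf_add_left, kf_add_right, kf_add_right, kf_smul_left, kf_smul_left, kf_smul_right,
      kf_smul_right, kf_comm h.symm V (cR e), kf_cR, hee]
    have := mul_nonneg ht hk.le
    simp only [Int.cast_zero, mul_zero, add_zero]
    linarith
  · intro W hW
    let s : ℂ := (t : ℂ) * Complex.I
    have hs : s.im = t := by simp [s]
    have hW0 : imW (W + (-s) • cK e) = V := by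
      rw [imW_add, imW_smul_cK, hW, Complex.neg_im, hs]
      simp
    have hW0m : W + (-s) • cK e ∈ Hd G := by
      rw [mem_Hd', hW0]
      have : (W + (-s) • cK e).2.1.im = V.2.1 := congrArg (fun V => V.2.1) hW0
      rw [this]
      exact ⟨h1, h2⟩
    have := koecher_dir hKD h hF hee heu huu hpos hW0m (M := M) (by
      intro x
      apply h3
      rw [imW_add, hW0, imW_smul_cK]
      simp) (t := s) (by rw [hs]; exact ht)
    have he : W + (-s) • cK e + s • cK e = W := by
      rw [add_assoc, ← add_smul]; simp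
    rwa [he] at this

/-- the normalised isotropic direction over a rational point -/
def nd (G : Matrix (Fin 20) (Fin 20) ℤ) (x : Fin 20 → ℝ) : ℝ × (ℝ × (Fin 20 → ℝ)) :=
  (bf G x x / 2, (1, x))

theorem nd_eq (X : Fin 20 → ℤ) {N : ℕ} (hN : 0 < N) :
    nd G (xr X N) = (1 / (2 * (N : ℝ) ^ 2)) • cR (e2K G X N) := by
  have hN' : (N : ℝ) ≠ 0 := by exact_mod_cast hN.ne'
  refine Prod.ext ?_ (Prod.ext ?_ ?_)
  · simp only [nd, cR, e2K, Prod.smul_fst, smul_eq_mul]
    rw [bf_xr X hN]
    field_simp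
  · simp only [nd, cR, e2K, Prod.smul_fst, Prod.smul_snd, smul_eq_mul]
    push_cast
    field_simp
  · funext i
    simp only [nd, cR, e2K, Prod.smul_snd, Pi.smul_apply, smul_eq_mul, xr]
    push_cast
    field_simp

theorem InQ.add_nd (hKD : JobKD) (h : PosSymm G) {k : ℤ} {F : TP → ℂ} (hF : TubeForm G k F)
    (X : Fin 20 → ℤ) {N : ℕ} (hN : 0 < N) {M : ℝ}
    {V : ℝ × (ℝ × (Fin 20 → ℝ))} (hV : InQ G F M V) {t : ℝ} (ht : 0 ≤ t) :
    InQ G F M (V + t • nd G (xr X N)) := by
  rw [nd_eq X hN, smul_smul]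
  refine hV.step hKD h hF (e2_e2 X N) (e2_u2 X N) (u2_u2 h X hN) (pos_e2 h X hN) ?_ (by positivity)
  simp only [e2K]
  positivity

theorem InQ.add_e1 (hKD : JobKD) (h : PosSymm G) {k : ℤ} {F : TP → ℂ} (hF : TubeForm G k F)
    {M : ℝ} {V : ℝ × (ℝ × (Fin 20 → ℝ))} (hV : InQ G F M V) {t : ℝ} (ht : 0 ≤ t) :
    InQ G F M (V + (t, (0, 0))) := by
  have h1 : ((t, (0, 0)) : ℝ × (ℝ × (Fin 20 → ℝ))) = t • cR e1K := by
    refine Prod.ext ?_ (Prod.ext ?_ ?_)
    · simp [cR, e1K]
    · simp [cR, e1K]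
    · funext i; simp [cR, e1K]
  rw [h1]
  exact hV.step hKD h hF e1_e1 e1_u1 (u1_u1 h) pos_e1 (by simp [e1K]) ht

/-- adding many isotropic directions -/
theorem InQ.add_sum (hKD : JobKD) (h : PosSymm G) {k : ℤ} {F : TP → ℂ} (hF : TubeForm G k F)
    {ι : Type*} (s : Finset ι) (X : ι → Fin 20 → ℤ) {N : ℕ} (hN : 0 < N) {M : ℝ} (t : ι → ℝ)
    (ht : ∀ i ∈ s, 0 ≤ t i) {V : ℝ × (ℝ × (Fin 20 → ℝ))} (hV : InQ G F M V) :
    InQ G F M (V + ∑ i ∈ s, t i • nd G (xr (X i) N)) := by
  classical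
  induction s using Finset.induction_on with
  | empty => simpa using hV
  | insert a s ha ih =>
    rw [Finset.sum_insert ha, add_comm (t a • _), ← add_assoc]
    exact (ih fun i hi => ht i (Finset.mem_insert_of_mem hi)).add_nd hKD h hF (X a) hN
      (ht a (Finset.mem_insert_self _ _))

theorem bf_pert (h : PosSymm G) (x : Fin 20 → ℝ) (i : Fin 20) (δ : ℝ) :
    bf G (x + δ • (Pi.single i 1 : Fin 20 → ℝ)) (x + δ • (Pi.single i 1 : Fin 20 → ℝ)) =
      bf G x x + 2 * δ * bf G x (Pi.single i 1) + δ ^ 2 * (G i i : ℝ) := by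
  rw [bf_add_left, bf_add_right, bf_add_right, bf_smul_left, bf_smul_left, bf_smul_right,
    bf_smul_right, bf_comm h.symm (Pi.single i 1) x]
  have h2 : bf G (Pi.single i (1 : ℝ)) (Pi.single i 1) = (G i i : ℝ) := by
    simp [bf, Pi.single_apply]
  rw [h2]
  ring

theorem xr_add (X : Fin 20 → ℤ) (N : ℕ) (i : Fin 20) (c : ℤ) :
    xr (X + Pi.single i c) N = xr X N + ((c : ℝ) / N) • (Pi.single i 1 : Fin 20 → ℝ) := by
  funext j
  simp only [xr, Pi.add_apply, Pi.smul_apply, smul_eq_mul, Int.cast_add, add_div]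
  by_cases hj : j = i
  · subst hj; simp
  · simp [Pi.single_eq_of_ne hj]

/-- **boundedness in neighbourhoods of rational slices** -/
theorem bound_nbhd (hKD : JobKD) (h : PosSymm G) {k : ℤ} {F : TP → ℂ} (hF : TubeForm G k F)
    (X : Fin 20 → ℤ) {N : ℕ} (hN : 0 < N) {η : ℝ} (hη : 0 < η) : ∃ ρ M : ℝ, 0 < ρ ∧ ∀ W : TP,
      1 ≤ W.2.1.im → (∀ i, |imv W.2.2 i / W.2.1.im - xr X N i| ≤ ρ) →
      (η + bf G (xr X N) (xr X N) / 2) * W.2.1.im ≤ W.1.im → ‖F W‖ ≤ M := by
  set x := xr X N with hx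
  set q := bf G x x with hq
  have hq0 : 0 ≤ q := h.nonneg _
  have hN' : (0 : ℝ) < N := by exact_mod_cast hN
  set b : Fin 20 → ℝ := fun i => bf G x (Pi.single i 1) with hb
  set A : ℝ := 1 + ∑ i, (|(G i i : ℝ)| / (2 * N) + |b i|) with hA
  have hA0 : 0 < A := by
    have : 0 ≤ ∑ i, (|(G i i : ℝ)| / (2 * N) + |b i|) := Finset.sum_nonneg fun i _ => by positivity
    rw [hA]; linarith
  obtain ⟨M, hM⟩ := real_bound hF (η / 2 + q / 4, (1 / 2, (1 / 2 : ℝ) • x)) (by norm_num) (by
    simp only [kf, bf_smul_left, bf_smul_right]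
    rw [← hq]
    linarith)
  have hV0 : InQ G F M (η / 2 + q / 4, (1 / 2, (1 / 2 : ℝ) • x)) := by
    refine ⟨by norm_num, ?_, hM⟩
    simp only [kf, bf_smul_left, bf_smul_right]
    rw [← hq]
    linarith
  refine ⟨min (1 / (40 * N)) (η / (2 * A)), M, by positivity, fun W hT hd hω => ?_⟩
  set T := W.2.1.im with hTdef
  set d : Fin 20 → ℝ := fun i => imv W.2.2 i / T - x i with hddef
  have hT0 : 0 < T := by linarith
  have hd1 : ∀ i, |d i| ≤ 1 / (40 * N) := fun i => (hd i).trans (min_le_left _ _)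
  have hd2 : ∀ i, |d i| ≤ η / (2 * A) := fun i => (hd i).trans (min_le_right _ _)
  set s : ℝ := ∑ i, N * |d i| with hs
  have hs1 : s ≤ 1 / 2 := by
    have : s ≤ ∑ _i : Fin 20, (1 / 40 : ℝ) := by
      refine Finset.sum_le_sum fun i _ => ?_
      have := mul_le_mul_of_nonneg_left (hd1 i) hN'.le
      refine this.trans (le_of_eq ?_)
      field_simp
    refine this.trans ?_
    simp
    norm_num
  set E : ℝ := ∑ i, (|d i| * (G i i : ℝ) / (2 * N) + d i * b i) with hE
  have hE1 : E ≤ η / 2 := by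
    have h1 : E ≤ ∑ i, (η / (2 * A)) * (|(G i i : ℝ)| / (2 * N) + |b i|) := by
      refine Finset.sum_le_sum fun i _ => ?_
      have e1 : |d i| * (G i i : ℝ) / (2 * N) ≤ (η / (2 * A)) * (|(G i i : ℝ)| / (2 * N)) := by
        rw [mul_div_assoc]
        calc |d i| * ((G i i : ℝ) / (2 * N)) ≤ |d i| * (|(G i i : ℝ)| / (2 * N)) := by
              gcongr
              exact le_abs_self _
          _ ≤ _ := by
              gcongr
              exact hd2 i
      have e2 : d i * b i ≤ (η / (2 * A)) * |b i| := by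
        calc d i * b i ≤ |d i * b i| := le_abs_self _
          _ = |d i| * |b i| := abs_mul _ _
          _ ≤ _ := by
              gcongr
              exact hd2 i
      linarith
    rw [← Finset.mul_sum] at h1
    have h2 : ∑ i, (|(G i i : ℝ)| / (2 * N) + |b i|) ≤ A := by rw [hA]; linarith
    have h3 : (η / (2 * A)) * ∑ i, (|(G i i : ℝ)| / (2 * N) + |b i|) ≤ (η / (2 * A)) * A := by
      gcongr
    have h4 : (η / (2 * A)) * A = η / 2 := by field_simp
    linarith
  have key : imW W = (η / 2 + q / 4, (1 / 2, (1 / 2 : ℝ) • x)) +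
      ∑ i : Fin 20 × Bool, (T * N * max (if i.2 then d i.1 else -d i.1) 0) •
        nd G (xr (X + Pi.single i.1 (if i.2 then 1 else -1)) N) +
      (T - 1 / 2 - T * s) • nd G (xr X N) + (W.1.im - η / 2 - T * q / 2 - T * E, (0, 0)) := by
    have hmax1 : ∀ r : ℝ, max r 0 + max (-r) 0 = |r| := fun r => by
      rcases le_total 0 r with hr | hr
      · rw [max_eq_left hr, max_eq_right (by linarith), abs_of_nonneg hr, add_zero]
      · rw [max_eq_right hr, max_eq_left (by linarith), abs_of_nonpos hr, zero_add]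
    have hmax2 : ∀ r : ℝ, max r 0 - max (-r) 0 = r := fun r => by
      rcases le_total 0 r with hr | hr
      · rw [max_eq_left hr, max_eq_right (by linarith), sub_zero]
      · rw [max_eq_right hr, max_eq_left (by linarith)]; ring
    have hterm : ∀ i : Fin 20, (T * N * max (d i) 0) • nd G (xr (X + Pi.single i 1) N) +
        (T * N * max (-d i) 0) • nd G (xr (X + Pi.single i (-1)) N) =
        ((T * (N * |d i|) * q / 2 + T * (|d i| * (G i i : ℝ) / (2 * N) + d i * b i),
          (T * (N * |d i|), (T * (N * |d i|)) • x + (T * d i) • Pi.single i 1)) :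
            ℝ × (ℝ × (Fin 20 → ℝ))) := by
      intro i
      have hab := hmax1 (d i)
      have hbc := hmax2 (d i)
      set P := max (d i) 0
      set Q := max (-d i) 0
      rw [xr_add, xr_add]
      refine Prod.ext ?_ (Prod.ext ?_ ?_)
      · simp only [nd, Prod.fst_add, Prod.smul_fst, smul_eq_mul]
        rw [bf_pert h, bf_pert h, ← hx, ← hq, ← hab]
        have : bf G x (Pi.single i 1) = b i := rfl
        rw [this]
        rw [← hbc]
        push_cast
        field_simp
        ring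
      · simp only [nd, Prod.fst_add, Prod.snd_add, Prod.smul_fst, Prod.smul_snd, smul_eq_mul, ← hab]
        ring
      · funext j
        simp only [nd, Prod.snd_add, Prod.smul_snd, Pi.add_apply, Pi.smul_apply, smul_eq_mul]
        rw [← hab]
        rw [← hbc]
        push_cast
        field_simp
        ring
    rw [Fintype.sum_prod_type]
    simp only [Fintype.sum_bool, if_true, Bool.false_eq_true, if_false]
    rw [Finset.sum_congr rfl fun i _ => hterm i]
    refine Prod.ext ?_ (Prod.ext ?_ ?_)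
    · simp only [imW, nd, Prod.fst_add, Prod.smul_fst, smul_eq_mul, Prod.fst_sum]
      rw [Finset.sum_add_distrib, ← Finset.mul_sum, ← hE, ← hx, ← hq]
      have : ∑ i, T * (N * |d i|) * q / 2 = T * s * q / 2 := by
        rw [hs, Finset.mul_sum, Finset.sum_mul, Finset.sum_div]
      rw [this]
      ring
    · simp only [imW, nd, Prod.fst_add, Prod.snd_add, Prod.smul_fst, Prod.smul_snd, smul_eq_mul,
        Prod.fst_sum, Prod.snd_sum]
      rw [← Finset.mul_sum, ← hs]
      ring
    · funext j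
      simp only [imW, nd, Prod.snd_add, Prod.smul_snd, Pi.add_apply, Pi.smul_apply, smul_eq_mul,
        Prod.snd_sum, Finset.sum_apply]
      rw [Finset.sum_add_distrib, ← Finset.sum_mul, ← Finset.mul_sum, ← hs]
      have : ∑ i, T * d i * (Pi.single i (1 : ℝ) : Fin 20 → ℝ) j = T * d j := by
        rw [Finset.sum_eq_single j]
        · simp
        · intro i _ hi
          rw [Pi.single_eq_of_ne (Ne.symm hi), mul_zero]
        · simp
      rw [this]
      have hdj : d j = imv W.2.2 j / T - x j := rfl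
      rw [hdj, ← hx]
      simp only [Pi.zero_apply]
      field_simp
      ring
  have hfin : InQ G F M (imW W) := by
    rw [key]
    refine InQ.add_e1 hKD h hF (InQ.add_nd hKD h hF X hN (InQ.add_sum hKD h hF _ _ hN _ ?_ hV0) ?_) ?_
    · intro i _
      positivity
    · nlinarith
    · have e1 : T * E ≤ T * (η / 2) := mul_le_mul_of_nonneg_left hE1 hT0.le
      have e2 : η / 2 * 1 ≤ η / 2 * T := mul_le_mul_of_nonneg_left hT (by linarith)
      linarith
  exact hfin.2.2 W rfl

end

end Pool.Agent.Run7.h352.RL
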