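import Pool.Agent.Run7.h352.RL.Stm
import Mathlib.NumberTheory.ModularForms.Discriminant

set_option autoImplicit false

/-!
# Piece ODE1 of the project on MP_f1d0b6_nt (written by helper690)

Holomorphy and transformation laws of the operator `LL`.
-/

namespace Pool.Agent.Run7.h352.RL.ODE1

open Complex Set Topology Filter Pool.Agent.Y813.RL Pool.Agent.Run7.h352.RL

noncomputable section

theorem isOpenH : IsOpen {τ : ℂ | 0 < τ.im} := isOpen_lt continuous_const Complex.continuous_im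

theorem memH {τ : ℂ} (h : 0 < τ.im) : {τ : ℂ | 0 < τ.im} ∈ 𝓝 τ := isOpenH.mem_nhds h

theorem ne0 {τ : ℂ} (h : 0 < τ.im) : τ ≠ 0 := by
  rintro rfl
  simp at h

theorem imS {τ : ℂ} (h : 0 < τ.im) : 0 < (-1 / τ).im := by
  have h0 := ne0 h
  rw [neg_div, Complex.neg_im, one_div, Complex.inv_im, neg_div, neg_neg]
  exact div_pos h (Complex.normSq_pos.2 h0)

theorem imT {τ : ℂ} (h : 0 < τ.im) : 0 < (τ + 1).im := by simpa using h

theorem dat {u : ℂ → ℂ} (hu : DifferentiableOn ℂ u {τ | 0 < τ.im}) {τ : ℂ} (h : 0 < τ.im) :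
    DifferentiableAt ℂ u τ := (hu τ h).differentiableAt (memH h)

theorem deriv_hol {u : ℂ → ℂ} (hu : DifferentiableOn ℂ u {τ | 0 < τ.im}) :
    DifferentiableOn ℂ (deriv u) {τ | 0 < τ.im} := hu.deriv isOpenH

theorem dd_hol {u : ℂ → ℂ} (hu : DifferentiableOn ℂ u {τ | 0 < τ.im}) :
    DifferentiableOn ℂ (DD u) {τ | 0 < τ.im} := by
  unfold DD
  exact (deriv_hol hu).const_mul _

theorem eta_hol : DifferentiableOn ℂ ModularForm.eta {τ | 0 < τ.im} := fun _ h =>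
  (ModularForm.differentiableAt_eta_of_mem_upperHalfPlaneSet h).differentiableWithinAt

theorem e2_eq (τ : ℂ) : e2 τ = 12 / (Real.pi * Complex.I) *
    (deriv ModularForm.eta τ / ModularForm.eta τ) := rfl

theorem e2_hol : DifferentiableOn ℂ e2 {τ | 0 < τ.im} := by
  have h1 : DifferentiableOn ℂ (fun τ => 12 / ((Real.pi : ℂ) * Complex.I) *
      (deriv ModularForm.eta τ / ModularForm.eta τ)) {τ | 0 < τ.im} :=
    ((deriv_hol eta_hol).div eta_hol fun τ h => ModularForm.eta_ne_zero h).const_mul _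
  exact h1

theorem LL_hol {u : ℂ → ℂ} (hu : DifferentiableOn ℂ u {τ | 0 < τ.im}) :
    DifferentiableOn ℂ (LL u) {τ | 0 < τ.im} := by
  unfold LL
  have h1 := dd_hol hu
  have h2 := dd_hol h1
  have h3 := e2_hol
  have h4 := dd_hol h3
  fun_prop

/-- `DD` only depends on the germ -/
theorem dd_congr {u v : ℂ → ℂ} (h : ∀ τ : ℂ, 0 < τ.im → u τ = v τ) {τ : ℂ} (hτ : 0 < τ.im) :
    DD u τ = DD v τ := by
  unfold DD
  congr 1
  refine Filter.EventuallyEq.deriv_eq ?_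
  filter_upwards [memH hτ] with t ht
  exact h t ht

theorem LL_congr {u v : ℂ → ℂ} (h : ∀ τ : ℂ, 0 < τ.im → u τ = v τ) {τ : ℂ} (hτ : 0 < τ.im) :
    LL u τ = LL v τ := by
  unfold LL
  rw [h τ hτ, dd_congr h hτ, dd_congr (fun t ht => dd_congr h ht) hτ]

theorem dd_of {u : ℂ → ℂ} {d τ : ℂ} (h : HasDerivAt u d τ) :
    DD u τ = (2 * Real.pi * Complex.I)⁻¹ * d := by
  unfold DD
  rw [h.deriv]

theorem hda {u : ℂ → ℂ} (hu : DifferentiableOn ℂ u {τ | 0 < τ.im}) {τ : ℂ} (h : 0 < τ.im) :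
    HasDerivAt u (2 * Real.pi * Complex.I * DD u τ) τ := by
  have h1 := (dat hu h).hasDerivAt
  have h2 : 2 * (Real.pi : ℂ) * Complex.I * DD u τ = deriv u τ := by
    unfold DD
    rw [← mul_assoc, mul_inv_cancel₀ (by simp [Real.pi_ne_zero]), one_mul]
  rw [h2]
  exact h1

/-! ### translation -/

theorem dd_T {u v : ℂ → ℂ} (hu : DifferentiableOn ℂ u {τ | 0 < τ.im})
    (h : ∀ τ : ℂ, 0 < τ.im → v τ = u (τ + 1)) {τ : ℂ} (hτ : 0 < τ.im) :
    DD v τ = DD u (τ + 1) := by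
  rw [dd_congr h hτ]
  have h1 := (hda hu (imT hτ)).comp_add_const τ 1
  rw [dd_of h1, ← mul_assoc, inv_mul_cancel₀ (by simp [Real.pi_ne_zero]), one_mul]

theorem eta_T (τ : ℂ) : ModularForm.eta (τ + 1) =
    Complex.exp (2 * Real.pi * Complex.I / 24) * ModularForm.eta τ := by
  have h1 : ∀ n : ℕ, ModularForm.eta_q n (τ + 1) = ModularForm.eta_q n τ := by
    intro n
    rw [ModularForm.eta_q_eq_cexp, ModularForm.eta_q_eq_cexp]
    rw [show 2 * (Real.pi : ℂ) * Complex.I * (n + 1) * (τ + 1) =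
      2 * (Real.pi : ℂ) * Complex.I * (n + 1) * τ + ((n + 1 : ℤ) : ℂ) * (2 * Real.pi * Complex.I) by
        push_cast; ring, Complex.exp_add, Complex.exp_int_mul_two_pi_mul_I, mul_one]
  unfold ModularForm.eta
  simp only [h1]
  rw [← mul_assoc]
  congr 1
  unfold Function.Periodic.qParam
  rw [← Complex.exp_add]
  congr 1
  push_cast
  ring

theorem e2_T {τ : ℂ} (hτ : 0 < τ.im) : e2 (τ + 1) = e2 τ := by
  have h1 : HasDerivAt (fun t => ModularForm.eta (t + 1))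
      (deriv ModularForm.eta (τ + 1)) τ := (dat eta_hol (imT hτ)).hasDerivAt.comp_add_const τ 1
  have h2 : HasDerivAt (fun t => Complex.exp (2 * Real.pi * Complex.I / 24) * ModularForm.eta t)
      (Complex.exp (2 * Real.pi * Complex.I / 24) * deriv ModularForm.eta τ) τ :=
    (dat eta_hol hτ).hasDerivAt.const_mul _
  have h3 : (fun t => ModularForm.eta (t + 1)) =
      fun t => Complex.exp (2 * Real.pi * Complex.I / 24) * ModularForm.eta t := funext eta_T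
  rw [h3] at h1
  rw [e2_eq, e2_eq, h1.unique h2, eta_T, mul_div_mul_left _ _ (Complex.exp_ne_zero _)]

theorem LL_T {u v : ℂ → ℂ} (hu : DifferentiableOn ℂ u {τ | 0 < τ.im})
    (h : ∀ τ : ℂ, 0 < τ.im → v τ = u (τ + 1)) {τ : ℂ} (hτ : 0 < τ.im) :
    LL v τ = LL u (τ + 1) := by
  have h1 := dd_T hu h hτ
  have h2 := dd_T (dd_hol hu) (fun t ht => dd_T hu h ht) hτ
  have h3 := dd_T e2_hol (v := e2) (fun t ht => (e2_T ht).symm) hτ
  unfold LL
  rw [h1, h2, h3, h τ hτ, e2_T hτ]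

/-! ### inversion -/

theorem eta_S {τ : ℂ} (hτ : 0 < τ.im) :
    ModularForm.eta (-1 / τ) ^ 2 = -Complex.I * τ * ModularForm.eta τ ^ 2 := by
  have h1 := ModularForm.eta_comp_eq_csqrt_I_inv hτ
  simp only [Function.comp_apply, Pi.smul_apply, Pi.mul_apply, smul_eq_mul] at h1
  have hsq : ∀ z : ℂ, z ≠ 0 → Complex.sqrt z ^ 2 = z := by
    intro z hz
    rw [sqrt_eq_exp hz, ← Complex.exp_nat_mul]
    rw [show ((2 : ℕ) : ℂ) * (Complex.log z / 2) = Complex.log z by push_cast; ring,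
      Complex.exp_log hz]
  rw [h1, mul_pow, mul_pow, inv_pow, hsq _ Complex.I_ne_zero, hsq _ (ne0 hτ), Complex.inv_I]
  ring

/-- the derivative of a function composed with the inversion -/
theorem hda_S {u : ℂ → ℂ} (hu : DifferentiableOn ℂ u {τ | 0 < τ.im}) {τ : ℂ} (hτ : 0 < τ.im) :
    HasDerivAt (fun t => u (-1 / t)) (deriv u (-1 / τ) * (τ ^ 2)⁻¹) τ := by
  have h0 := ne0 hτ
  have h1 : HasDerivAt (fun t : ℂ => -1 / t) ((τ ^ 2)⁻¹) τ := by
    have h2 := ((hasDerivAt_inv h0).const_mul (-1))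
    have h3 : (fun t : ℂ => -1 / t) = fun t => -1 * t⁻¹ := by
      funext t
      rw [div_eq_mul_inv]
    have h4 : (τ ^ 2)⁻¹ = -1 * -(τ ^ 2)⁻¹ := by ring
    rw [h3, h4]
    exact h2
  exact (dat hu (imS hτ)).hasDerivAt.comp τ h1

theorem e2_S {τ : ℂ} (hτ : 0 < τ.im) :
    e2 (-1 / τ) = τ ^ 2 * e2 τ + 6 * τ / (Real.pi * Complex.I) := by
  have h0 := ne0 hτ
  have h1 := (hda_S eta_hol hτ).pow 2
  have h2 : HasDerivAt (fun t => -Complex.I * t * ModularForm.eta t ^ 2)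
      (-Complex.I * 1 * ModularForm.eta τ ^ 2 +
        -Complex.I * τ * ((2 : ℕ) * ModularForm.eta τ ^ 1 * deriv ModularForm.eta τ)) τ :=
    ((hasDerivAt_id τ).const_mul (-Complex.I)).mul ((dat eta_hol hτ).hasDerivAt.pow 2)
  have h3 : (fun t => ModularForm.eta (-1 / t) ^ 2) =ᶠ[𝓝 τ]
      fun t => -Complex.I * t * ModularForm.eta t ^ 2 := by
    filter_upwards [memH hτ] with t ht
    exact eta_S ht
  have h4 := (h2.congr_of_eventuallyEq h3).unique h1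
  have hn := ModularForm.eta_ne_zero (z := τ) hτ
  have hn' := ModularForm.eta_ne_zero (z := -1 / τ) (imS hτ)
  have h5 := eta_S hτ
  rw [e2_eq, e2_eq]
  have hpi : (Real.pi : ℂ) ≠ 0 := by exact_mod_cast Real.pi_ne_zero
  have hI := Complex.I_ne_zero
  have h6 : deriv ModularForm.eta (-1 / τ) / ModularForm.eta (-1 / τ) =
      τ ^ 2 * (deriv ModularForm.eta τ / ModularForm.eta τ) + τ / 2 := by
    have h7 : deriv ModularForm.eta (-1 / τ) / ModularForm.eta (-1 / τ) =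
        (deriv ModularForm.eta (-1 / τ) * ModularForm.eta (-1 / τ)) /
          ModularForm.eta (-1 / τ) ^ 2 := by
      field_simp
    rw [h7, h5]
    have h8 : deriv ModularForm.eta (-1 / τ) * ModularForm.eta (-1 / τ) = τ ^ 2 / 2 *
        (-Complex.I * 1 * ModularForm.eta τ ^ 2 +
        -Complex.I * τ * ((2 : ℕ) * ModularForm.eta τ ^ 1 * deriv ModularForm.eta τ)) := by
      rw [h4]
      push_cast
      field_simp
    rw [h8]
    push_cast
    field_simp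
    ring
  rw [h6]
  field_simp
  ring

theorem dd_S {u w : ℂ → ℂ} (hu : DifferentiableOn ℂ u {τ | 0 < τ.im})
    (h : ∀ τ : ℂ, 0 < τ.im → w τ = u (-1 / τ)) {τ : ℂ} (hτ : 0 < τ.im) :
    DD u (-1 / τ) = τ ^ 2 * DD w τ := by
  rw [dd_congr h hτ, dd_of (hda_S hu hτ)]
  have h0 := ne0 hτ
  unfold DD
  field_simp

/-- product with a power -/
theorem dd_zpow {v : ℂ → ℂ} (hv : DifferentiableOn ℂ v {τ | 0 < τ.im}) (n : ℤ) {τ : ℂ}
    (hτ : 0 < τ.im) : DD (fun t => t ^ n * v t) τ =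
      τ ^ n * DD v τ + (2 * Real.pi * Complex.I)⁻¹ * (n * τ ^ (n - 1) * v τ) := by
  have h1 := (hasDerivAt_zpow n τ (Or.inl (ne0 hτ))).mul (hda hv hτ)
  have h2 := dd_of h1
  have h3 : DD (fun t => t ^ n * v t) τ = DD ((fun t : ℂ => t ^ n) * v) τ := rfl
  rw [h3, h2]
  have hpi : (2 * (Real.pi : ℂ) * Complex.I) ≠ 0 := by simp [Real.pi_ne_zero]
  rw [mul_add]
  rw [add_comm]
  congr 1
  rw [show τ ^ n * (2 * (Real.pi : ℂ) * Complex.I * DD v τ) =
    (2 * (Real.pi : ℂ) * Complex.I) * (τ ^ n * DD v τ) by ring, ← mul_assoc, inv_mul_cancel₀ hpi,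
    one_mul]

theorem dd_add {u v : ℂ → ℂ} (hu : DifferentiableOn ℂ u {τ | 0 < τ.im})
    (hv : DifferentiableOn ℂ v {τ | 0 < τ.im}) {τ : ℂ} (hτ : 0 < τ.im) :
    DD (fun t => u t + v t) τ = DD u τ + DD v τ := by
  have h2 := dd_of ((dat hu hτ).hasDerivAt.add (dat hv hτ).hasDerivAt)
  have h3 : DD (fun t => u t + v t) τ = DD (u + v) τ := rfl
  rw [h3, h2]
  unfold DD
  ring

theorem dd_smul {u : ℂ → ℂ} (hu : DifferentiableOn ℂ u {τ | 0 < τ.im}) (c : ℂ) {τ : ℂ}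
    (hτ : 0 < τ.im) : DD (fun t => c * u t) τ = c * DD u τ := by
  have h2 := dd_of ((dat hu hτ).hasDerivAt.const_mul c)
  rw [h2]
  unfold DD
  ring

theorem LL_S {u v : ℂ → ℂ} (hu : DifferentiableOn ℂ u {τ | 0 < τ.im})
    (hv : DifferentiableOn ℂ v {τ | 0 < τ.im})
    (h : ∀ τ : ℂ, 0 < τ.im → v τ = τ ^ 10 * u (-1 / τ)) {τ : ℂ} (hτ : 0 < τ.im) :
    LL v τ = τ ^ 6 * LL u (-1 / τ) := by
  have hzp : ∀ n : ℤ, DifferentiableOn ℂ (fun t : ℂ => t ^ n) {τ | 0 < τ.im} := fun n t ht =>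
    (differentiableAt_zpow.2 (Or.inl (ne0 ht))).differentiableWithinAt
  have hDv := dd_hol hv
  -- `u` at `-1/τ`
  have hw : ∀ t : ℂ, 0 < t.im → t ^ (-10 : ℤ) * v t = u (-1 / t) := by
    intro t ht
    have h0 := ne0 ht
    rw [h t ht, ← mul_assoc]
    have : t ^ (-10 : ℤ) * t ^ 10 = 1 := by
      rw [zpow_neg]
      exact inv_mul_cancel₀ (by exact_mod_cast pow_ne_zero 10 h0)
    rw [this, one_mul]
  -- first derivative
  have h1 : ∀ t : ℂ, 0 < t.im → t ^ (-8 : ℤ) * DD v t +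
      (2 * Real.pi * Complex.I)⁻¹ * (-10) * (t ^ (-9 : ℤ) * v t) = DD u (-1 / t) := by
    intro t ht
    have h0 := ne0 ht
    rw [dd_S hu hw ht, dd_zpow hv _ ht]
    rw [show (-8 : ℤ) = 2 + (-10) by norm_num, show (-9 : ℤ) = 2 + (-10 - 1) by norm_num,
      zpow_add₀ h0, zpow_add₀ h0 2 (-10 - 1)]
    push_cast
    rw [show t ^ (2 : ℤ) = t ^ (2 : ℕ) from rfl]
    ring
  -- second derivative
  have h2 : DD (DD u) (-1 / τ) = τ ^ 2 * (τ ^ (-8 : ℤ) * DD (DD v) τ +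
      (2 * Real.pi * Complex.I)⁻¹ * (-8 * τ ^ (-9 : ℤ) * DD v τ) +
      (2 * Real.pi * Complex.I)⁻¹ * (-10) * (τ ^ (-9 : ℤ) * DD v τ +
        (2 * Real.pi * Complex.I)⁻¹ * (-9 * τ ^ (-10 : ℤ) * v τ))) := by
    rw [dd_S (dd_hol hu) h1 hτ]
    congr 1
    rw [dd_add (u := fun t => t ^ (-8 : ℤ) * DD v t)
        (v := fun t => (2 * Real.pi * Complex.I)⁻¹ * (-10) * (t ^ (-9 : ℤ) * v t))
        ((hzp _).mul hDv) (((hzp _).mul hv).const_mul _) hτ,
      dd_smul (u := fun t => t ^ (-9 : ℤ) * v t) ((hzp _).mul hv) _ hτ,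
      dd_zpow hDv _ hτ, dd_zpow hv _ hτ]
    norm_num
  -- `e2`
  have h3 : ∀ t : ℂ, 0 < t.im → t ^ (2 : ℤ) * e2 t + 6 / (Real.pi * Complex.I) * (t ^ (1 : ℤ) * 1)
      = e2 (-1 / t) := by
    intro t ht
    rw [e2_S ht, show t ^ (2 : ℤ) = t ^ (2 : ℕ) from rfl, zpow_one]
    ring
  have hone : DifferentiableOn ℂ (fun _ : ℂ => (1 : ℂ)) {τ | 0 < τ.im} := by fun_prop
  have h4 : DD e2 (-1 / τ) = τ ^ 2 * (τ ^ 2 * DD e2 τ +
      (2 * Real.pi * Complex.I)⁻¹ * (2 * τ * e2 τ) +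
      6 / (Real.pi * Complex.I) * (2 * Real.pi * Complex.I)⁻¹) := by
    rw [dd_S e2_hol h3 hτ]
    congr 1
    rw [dd_add (u := fun t => t ^ (2 : ℤ) * e2 t)
        (v := fun t => 6 / (Real.pi * Complex.I) * (t ^ (1 : ℤ) * 1))
        ((hzp _).mul e2_hol) (((hzp _).mul hone).const_mul _) hτ,
      dd_smul (u := fun t => t ^ (1 : ℤ) * 1) ((hzp _).mul hone) _ hτ,
      dd_zpow e2_hol _ hτ, dd_zpow hone _ hτ]
    have h5 : DD (fun _ : ℂ => (1 : ℂ)) τ = 0 := by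
      unfold DD
      simp
    rw [h5, show (2 : ℤ) - 1 = 1 by norm_num, show (1 : ℤ) - 1 = 0 by norm_num, zpow_one, zpow_zero,
      show τ ^ (2 : ℤ) = τ ^ (2 : ℕ) from rfl]
    push_cast
    ring
  have h0 := ne0 hτ
  unfold LL
  rw [h2, h4, ← h1 τ hτ, ← h3 τ hτ, ← hw τ hτ]
  have hpi : (Real.pi : ℂ) ≠ 0 := by exact_mod_cast Real.pi_ne_zero
  have hI := Complex.I_ne_zero
  have hz : ∀ n : ℕ, τ ^ (-(n : ℤ)) = (τ ^ n)⁻¹ := fun n => by rw [zpow_neg, zpow_natCast]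
  have z8 := hz 8
  have z9 := hz 9
  have z10 := hz 10
  push_cast at z8 z9 z10
  rw [z8, z9, z10, zpow_one, show τ ^ (2 : ℤ) = τ ^ (2 : ℕ) from rfl]
  field_simp
  ring

/-- linearity -/
theorem LL_sum {ι : Type} (s : Finset ι) (u : ι → ℂ → ℂ) (a : ι → ℂ)
    (hu : ∀ i ∈ s, DifferentiableOn ℂ (u i) {τ | 0 < τ.im}) {τ : ℂ} (hτ : 0 < τ.im) :
    LL (fun t => ∑ i ∈ s, a i * u i t) τ = ∑ i ∈ s, a i * LL (u i) τ := by
  classical
  have hD : ∀ (u : ι → ℂ → ℂ), (∀ i ∈ s, DifferentiableOn ℂ (u i) {τ | 0 < τ.im}) →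
      ∀ t : ℂ, 0 < t.im → DD (fun t => ∑ i ∈ s, a i * u i t) t = ∑ i ∈ s, a i * DD (u i) t := by
    intro u hu t ht
    have h1 : HasDerivAt (fun t => ∑ i ∈ s, a i * u i t)
        (∑ i ∈ s, a i * (2 * Real.pi * Complex.I * DD (u i) t)) t :=
      HasDerivAt.fun_sum fun i hi => (hda (hu i hi) ht).const_mul (a i)
    rw [dd_of h1, Finset.mul_sum]
    refine Finset.sum_congr rfl fun i _ => ?_
    have hpi : (2 * (Real.pi : ℂ) * Complex.I) ≠ 0 := by simp [Real.pi_ne_zero]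
    field_simp
  have h1 := hD u hu
  have h2 := hD (fun i => DD (u i)) (fun i hi => dd_hol (hu i hi))
  unfold LL
  rw [h1 τ hτ, dd_congr (fun t ht => h1 t ht) hτ, h2 τ hτ, Finset.mul_sum, Finset.mul_sum,
    ← Finset.sum_add_distrib, ← Finset.sum_add_distrib]
  refine Finset.sum_congr rfl fun i _ => ?_
  ring

theorem ode1 : JobODE1 := by
  refine ⟨fun u hu => LL_hol hu, fun u v hu _ h τ hτ => LL_T hu h hτ,
    fun u v hu hv h τ hτ => LL_S hu hv h hτ, fun ι s u a hu τ hτ => LL_sum s u a hu hτ⟩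

end

end Pool.Agent.Run7.h352.RL.ODE1
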