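import Pool.Agent.Run7.h352.RL.ODE1
import Pool.Agent.Y813.RL.Per

set_option autoImplicit false

/-!
# Piece ODE2 of the project on MP_f1d0b6_nt (written by helper690)

The operator `LL` kills the leading terms `q^(-1)` and `q^(-1/2)`.
-/

namespace Pool.Agent.Run7.h352.RL.ODE2

open Complex Set Topology Filter MeasureTheory Pool.Agent.Y813.RL Pool.Agent.Run7.h352.RL
open Pool.Agent.Run7.h352.RL.ODE1 Pool.Agent.Y683.RL

noncomputable section

/-- `f` is periodic and `O(q^a)` -/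
structure Gr (a : ℝ) (f : ℂ → ℂ) : Prop where
  hp : HP 0 f
  gr : ∃ C : ℝ, 0 ≤ C ∧ ∀ t : ℂ, 1 / 2 ≤ t.im → ‖f t‖ ≤ C * Real.exp (-(2 * Real.pi * a * t.im))

theorem Gr.of_fco {a : ℝ} {f : ℂ → ℂ} (hf : HP 0 f) (h0 : ∀ n : ℤ, (n : ℝ) < a → fco 0 f n = 0) :
    Gr a f := ⟨hf, per_growth hf h0⟩

theorem Gr.fco {a : ℝ} {f : ℂ → ℂ} (hf : Gr a f) (n : ℤ) (hn : (n : ℝ) < a) :
    Pool.Agent.Y683.RL.fco 0 f n = 0 := by
  obtain ⟨C, _, h⟩ := hf.gr
  refine fco_zero hf.hp (M := C) (a := -(2 * Real.pi * a)) (fun t ht => ?_) ?_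
  · have := h t (by linarith)
    rw [show -(2 * Real.pi * a) * t.im = -(2 * Real.pi * a * t.im) by ring]
    exact this
  · have := Real.pi_pos
    nlinarith

theorem Gr.mono {a b : ℝ} {f : ℂ → ℂ} (hf : Gr a f) (hb : b ≤ a) : Gr b f := by
  refine ⟨hf.hp, ?_⟩
  obtain ⟨C, hC, h⟩ := hf.gr
  refine ⟨C, hC, fun t ht => (h t ht).trans ?_⟩
  have := Real.pi_pos
  gcongr

theorem Gr.add {a : ℝ} {f g : ℂ → ℂ} (hf : Gr a f) (hg : Gr a g) : Gr a (fun t => f t + g t) := by
  refine ⟨⟨hf.hp.holo.add hg.hp.holo, fun t ht => ?_⟩, ?_⟩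
  · rw [hf.hp.per t ht, hg.hp.per t ht]
  · obtain ⟨C, hC, h⟩ := hf.gr
    obtain ⟨C', hC', h'⟩ := hg.gr
    refine ⟨C + C', by positivity, fun t ht => ?_⟩
    rw [add_mul]
    exact (norm_add_le _ _).trans (add_le_add (h t ht) (h' t ht))

theorem Gr.mul {a b : ℝ} {f g : ℂ → ℂ} (hf : Gr a f) (hg : Gr b g) :
    Gr (a + b) (fun t => f t * g t) := by
  refine ⟨⟨hf.hp.holo.mul hg.hp.holo, fun t ht => ?_⟩, ?_⟩
  · rw [hf.hp.per t ht, hg.hp.per t ht]
  · obtain ⟨C, hC, h⟩ := hf.gr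
    obtain ⟨C', hC', h'⟩ := hg.gr
    refine ⟨C * C', by positivity, fun t ht => ?_⟩
    rw [norm_mul, show -(2 * Real.pi * (a + b) * t.im) =
      -(2 * Real.pi * a * t.im) + -(2 * Real.pi * b * t.im) by ring, Real.exp_add]
    calc ‖f t‖ * ‖g t‖ ≤ (C * Real.exp (-(2 * Real.pi * a * t.im))) *
          (C' * Real.exp (-(2 * Real.pi * b * t.im))) :=
          mul_le_mul (h t ht) (h' t ht) (norm_nonneg _) (by positivity)
      _ = _ := by ring

theorem Gr.smul {a : ℝ} {f : ℂ → ℂ} (hf : Gr a f) (c : ℂ) : Gr a (fun t => c * f t) := by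
  refine ⟨⟨hf.hp.holo.const_mul c, fun t ht => ?_⟩, ?_⟩
  · rw [hf.hp.per t ht]
  · obtain ⟨C, hC, h⟩ := hf.gr
    refine ⟨‖c‖ * C, by positivity, fun t ht => ?_⟩
    rw [norm_mul, mul_assoc]
    exact mul_le_mul_of_nonneg_left (h t ht) (norm_nonneg _)

theorem Gr.const (c : ℂ) : Gr 0 (fun _ => c) := by
  refine ⟨⟨by fun_prop, fun t ht => rfl⟩, ‖c‖, norm_nonneg _, fun t ht => ?_⟩
  simp

theorem Gr.congr {a : ℝ} {f g : ℂ → ℂ} (hf : Gr a f) (h : ∀ t : ℂ, 0 < t.im → g t = f t) :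
    Gr a g := by
  refine ⟨⟨hf.hp.holo.congr fun t ht => h t ht, fun t ht => ?_⟩, ?_⟩
  · rw [h t ht, h (t + 1) (imT ht), hf.hp.per t ht]
  · obtain ⟨C, hC, h'⟩ := hf.gr
    refine ⟨C, hC, fun t ht => ?_⟩
    rw [h t (by linarith)]
    exact h' t ht

theorem Gr.q (n : ℤ) : Gr n (fun t => ee (n * t)) := by
  refine ⟨⟨by fun_prop, fun t ht => ?_⟩, 1, zero_le_one, fun t ht => ?_⟩
  · rw [mul_add, mul_one, Pool.Agent.Y683.RL.ee_add, Pool.Agent.Y683.RL.ee_int, mul_one]
  · rw [norm_ee, one_mul]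
    have e1 : ((n : ℂ) * t).im = n * t.im := by
      rw [Complex.mul_im]; simp
    rw [e1]
    apply le_of_eq
    congr 1
    ring

theorem dd_HP {f : ℂ → ℂ} (hf : HP 0 f) : HP 0 (DD f) := by
  refine ⟨dd_hol hf.holo, fun t ht => ?_⟩
  exact (dd_T hf.holo (v := f) (fun τ hτ => (hf.per τ hτ).symm) ht).symm

theorem fco_dd {f : ℂ → ℂ} (hf : HP 0 f) (n : ℤ) : fco 0 (DD f) n = n * fco 0 f n := by
  have hpi : (2 * (Real.pi : ℂ) * Complex.I) ≠ 0 := by simp [Real.pi_ne_zero]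
  rw [(dd_HP hf).fco_eq n (w := Complex.I) (by simp), hf.fco_eq n (w := Complex.I) (by simp)]
  have him : ∀ x : ℝ, 0 < ((x : ℂ) + Complex.I).im := fun x => by simp
  set p : ℝ → ℂ := fun x => f ((x : ℂ) + Complex.I) * ee (-(n * ((x : ℂ) + Complex.I))) with hp
  have hd : ∀ x : ℝ, HasDerivAt p ((2 * Real.pi * Complex.I) *
      (DD f ((x : ℂ) + Complex.I) * ee (-(n * ((x : ℂ) + Complex.I))) -
        n * (f ((x : ℂ) + Complex.I) * ee (-(n * ((x : ℂ) + Complex.I)))))) x := by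
    intro x
    have h1 := hda hf.holo (him x)
    have h2 : HasDerivAt (fun t : ℂ => ee (-(n * t)))
        (ee (-(n * ((x : ℂ) + Complex.I))) * (2 * Real.pi * Complex.I * (-n)))
        ((x : ℂ) + Complex.I) := by
      have h3 : HasDerivAt (fun t : ℂ => 2 * Real.pi * Complex.I * (-(n * t)))
          (2 * Real.pi * Complex.I * (-n)) ((x : ℂ) + Complex.I) := by
        have := ((hasDerivAt_id ((x : ℂ) + Complex.I)).const_mul
          (2 * Real.pi * Complex.I * (-n : ℂ)))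
        rw [mul_one] at this
        refine this.congr_of_eventuallyEq ?_
        filter_upwards with t
        simp only [id]
        ring
      exact h3.cexp
    have h4 := (h1.mul h2).comp_of_eq x
      ((hasDerivAt_id x).ofReal_comp.add_const Complex.I) rfl
    have h5 : (2 * Real.pi * Complex.I) *
      (DD f ((x : ℂ) + Complex.I) * ee (-(n * ((x : ℂ) + Complex.I))) -
        n * (f ((x : ℂ) + Complex.I) * ee (-(n * ((x : ℂ) + Complex.I))))) =
      (2 * Real.pi * Complex.I * DD f ((x : ℂ) + Complex.I) *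
        ee (-(n * ((x : ℂ) + Complex.I))) + f ((x : ℂ) + Complex.I) *
        (ee (-(n * ((x : ℂ) + Complex.I))) * (2 * Real.pi * Complex.I * (-n)))) * ((1 : ℝ) : ℂ) := by
      push_cast
      ring
    rw [h5]
    exact h4
  have hc : Continuous fun x : ℝ => (2 * Real.pi * Complex.I) *
      (DD f ((x : ℂ) + Complex.I) * ee (-(n * ((x : ℂ) + Complex.I))) -
        n * (f ((x : ℂ) + Complex.I) * ee (-(n * ((x : ℂ) + Complex.I))))) := by
    have h1 := ((dd_HP hf).mul_ee n).cont_line (w := Complex.I) (by simp)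
    have h2 := (hf.mul_ee n).cont_line (w := Complex.I) (by simp)
    exact (h1.sub (h2.const_mul _)).const_mul _
  have h1 := intervalIntegral.integral_eq_sub_of_hasDerivAt (fun x _ => hd x)
    (hc.intervalIntegrable 0 1)
  have h2 : p 1 - p 0 = 0 := by
    have h3 := (hf.mul_ee n).per Complex.I (by simp)
    simp only [hp]
    push_cast
    rw [zero_add, add_comm (1 : ℂ) Complex.I]
    rw [sub_eq_zero]
    exact h3
  rw [h2, intervalIntegral.integral_const_mul, intervalIntegral.integral_sub,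
    intervalIntegral.integral_const_mul] at h1
  · rcases mul_eq_zero.1 h1 with h | h
    · exact absurd h hpi
    · exact sub_eq_zero.1 h
  · have h1 := ((dd_HP hf).mul_ee n).cont_line (w := Complex.I) (by simp)
    exact h1.intervalIntegrable _ _
  · have h2 := (hf.mul_ee n).cont_line (w := Complex.I) (by simp)
    exact (h2.const_mul _).intervalIntegrable _ _

theorem Gr.dd {a : ℝ} {f : ℂ → ℂ} (hf : Gr a f) : Gr a (DD f) :=
  Gr.of_fco (dd_HP hf.hp) fun n hn => by rw [fco_dd hf.hp, hf.fco n hn, mul_zero]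

/-- removing the leading term -/
theorem Gr.rem {n₀ : ℤ} {g : ℂ → ℂ} (hg : Gr n₀ g) :
    Gr (n₀ + 1) (fun t => g t - Pool.Agent.Y683.RL.fco 0 g n₀ * ee (n₀ * t)) := by
  have hf := hg.hp
  refine ⟨⟨hf.holo.sub (by fun_prop), fun t ht => ?_⟩, ?_⟩
  · rw [hf.per t ht, mul_add, mul_one, Pool.Agent.Y683.RL.ee_add, Pool.Agent.Y683.RL.ee_int, mul_one]
  obtain ⟨C, hC, hb⟩ := part_bound hf (g := fun n => if n = n₀ then 0 else Pool.Agent.Y683.RL.fco 0 g n)
    (n₁ := n₀ + 1) (fun n => by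
      by_cases h : n = n₀
      · simp [h]
      · simp [h]) (fun n hn => by
      by_cases h : n = n₀
      · simp [h]
      · simp only [h, if_false]
        apply hg.fco
        have h5 : n < n₀ + 1 := by exact_mod_cast hn
        have h6 : n < n₀ := by omega
        exact_mod_cast h6)
  refine ⟨C, hC, fun t htm => ?_⟩
  have hsum := (hf.hasSum (t := t) (by linarith)).2
  have hs1 : HasSum (fun n : ℤ => if n = n₀ then Pool.Agent.Y683.RL.fco 0 g n₀ * ee (n₀ * t) else 0)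
      (Pool.Agent.Y683.RL.fco 0 g n₀ * ee (n₀ * t)) := by
    have := hasSum_single (f := fun n : ℤ => if n = n₀ then
        Pool.Agent.Y683.RL.fco 0 g n₀ * ee (n₀ * t) else 0) n₀
      (fun n hn => by simp [hn])
    simpa using this
  have hs2 := hsum.sub hs1
  have hs3 : HasSum (fun n : ℤ => (if n = n₀ then 0 else Pool.Agent.Y683.RL.fco 0 g n) * ee (n * t))
      (g t - Pool.Agent.Y683.RL.fco 0 g n₀ * ee (n₀ * t)) := by
    have hfun : (fun n : ℤ => (if n = n₀ then 0 else Pool.Agent.Y683.RL.fco 0 g n) * ee (n * t)) =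
        fun n : ℤ => Pool.Agent.Y683.RL.fco 0 g n * ee (n * t) -
          (if n = n₀ then Pool.Agent.Y683.RL.fco 0 g n₀ * ee (n₀ * t) else 0) := by
      funext n
      by_cases h : n = n₀
      · simp [h]
      · simp [h]
    rw [hfun]
    exact hs2
  exact hb t htm _ hs3

/-! ### the Eisenstein series -/

theorem e2_HP : HP 0 e2 := ⟨e2_hol, fun _ ht => e2_T ht⟩

theorem e2_E2 (z : UpperHalfPlane) : e2 (z : ℂ) = EisensteinSeries.E2 z := by
  have h := ModularForm.logDeriv_eta_eq_E2 z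
  unfold e2
  rw [h]
  have hpi : (Real.pi : ℂ) ≠ 0 := by exact_mod_cast Real.pi_ne_zero
  have hI := Complex.I_ne_zero
  field_simp

theorem e2_sub : Gr 1 (fun t => e2 t - 1) := by
  refine ⟨⟨e2_hol.sub (by fun_prop), fun t ht => ?_⟩, ?_⟩
  · rw [e2_T ht]
  set c : ℕ → ℂ := fun m => (if m = 0 then 1 else -24 * (ArithmeticFunction.sigma 1 m : ℂ) : ℂ)
    with hc
  have hs : ∀ z : UpperHalfPlane, HasSum (fun m : ℕ => c m * Complex.exp (2 * Real.pi * Complex.I * z) ^ m)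
      (e2 z) := by
    intro z
    rw [e2_E2]
    have := EisensteinSeries.hasSum_qExpansion_E2 (z := z)
    simpa only [smul_eq_mul] using this
  have hI2 : 0 < (((1 / 2 : ℝ) : ℂ) * Complex.I).im := by
    rw [Complex.im_ofReal_mul]; norm_num
  set z₀ : UpperHalfPlane := ⟨((1 / 2 : ℝ) : ℂ) * Complex.I, hI2⟩ with hz₀
  have hq : ∀ z : ℂ, ‖Complex.exp (2 * Real.pi * Complex.I * z)‖ = Real.exp (-(2 * Real.pi * z.im)) :=
    fun z => norm_ee z
  have h0 : Summable fun m : ℕ => ‖c (m + 1) * Complex.exp (2 * Real.pi * Complex.I * z₀) ^ (m + 1)‖ :=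
    (summable_nat_add_iff 1).2 (hs z₀).summable.norm
  have hz₀im : ((z₀ : UpperHalfPlane) : ℂ).im = 1 / 2 := by
    show (((1 / 2 : ℝ) : ℂ) * Complex.I).im = 1 / 2
    rw [Complex.im_ofReal_mul]; norm_num
  have hpi := Real.pi_pos
  set B := ∑' m : ℕ, ‖c (m + 1) * Complex.exp (2 * Real.pi * Complex.I * z₀) ^ (m + 1)‖ with hB
  have hB0 : 0 ≤ B := tsum_nonneg fun n => norm_nonneg _
  refine ⟨B * Real.exp Real.pi, by positivity, fun t ht => ?_⟩
  have h1 := hs ⟨t, by linarith⟩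
  have h2 := (hasSum_nat_add_iff' 1).2 h1
  have h3 : e2 t - 1 = ∑' m : ℕ, c (m + 1) * Complex.exp (2 * Real.pi * Complex.I * t) ^ (m + 1) := by
    rw [h2.tsum_eq]
    simp [hc]
  have hterm : ∀ m : ℕ, ‖c (m + 1) * Complex.exp (2 * Real.pi * Complex.I * t) ^ (m + 1)‖ ≤
      ‖c (m + 1) * Complex.exp (2 * Real.pi * Complex.I * z₀) ^ (m + 1)‖ *
        (Real.exp Real.pi * Real.exp (-(2 * Real.pi * 1 * t.im))) := by
    intro m
    rw [norm_mul, norm_mul, norm_pow, norm_pow, hq, hq, hz₀im, mul_assoc ‖c (m + 1)‖,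
      ← Real.exp_nat_mul, ← Real.exp_nat_mul, ← Real.exp_add, ← Real.exp_add]
    refine mul_le_mul_of_nonneg_left (Real.exp_le_exp.2 ?_) (norm_nonneg _)
    push_cast
    have h4 : 0 ≤ (m : ℝ) * (Real.pi * (t.im - 1 / 2)) :=
      mul_nonneg (Nat.cast_nonneg m) (mul_nonneg hpi.le (by linarith))
    nlinarith
  have hsum2 := h0.mul_right (Real.exp Real.pi * Real.exp (-(2 * Real.pi * 1 * t.im)))
  have h4 := tsum_of_norm_bounded hsum2.hasSum hterm
  rw [← h3, tsum_mul_right] at h4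
  rw [mul_assoc]
  exact h4

theorem e2_gr : Gr 0 e2 :=
  ((e2_sub.mono zero_le_one).add (Gr.const 1)).congr fun t _ => by ring

theorem dde2_gr : Gr 1 (DD e2) := by
  refine (e2_sub.dd).congr fun t ht => ?_
  unfold DD
  congr 1
  exact (deriv_sub_const (f := e2) (x := t) 1).symm

/-! ### the operator on `q^x g` -/

/-- the operator conjugated with `q^x` -/
def LX (x : ℂ) (g : ℂ → ℂ) (t : ℂ) : ℂ :=
  DD (DD g) t + 2 * x * DD g t + x ^ 2 * g t + 3 / 2 * (e2 t * (DD g t + x * g t)) +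
    (3 / 2 * DD e2 t + 1 / 2 * (e2 t * e2 t)) * g t

theorem dd_q {g : ℂ → ℂ} (hg : DifferentiableOn ℂ g {τ | 0 < τ.im}) (x : ℂ) {t : ℂ}
    (ht : 0 < t.im) : DD (fun t => ee (x * t) * g t) t = ee (x * t) * (DD g t + x * g t) := by
  have hpi : (2 * (Real.pi : ℂ) * Complex.I) ≠ 0 := by simp [Real.pi_ne_zero]
  have h2 : HasDerivAt (fun t : ℂ => ee (x * t)) (ee (x * t) * (2 * Real.pi * Complex.I * x)) t := by
    have h3 : HasDerivAt (fun t : ℂ => 2 * Real.pi * Complex.I * (x * t))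
        (2 * Real.pi * Complex.I * x) t := by
      have := ((hasDerivAt_id t).const_mul (2 * Real.pi * Complex.I * x))
      rw [mul_one] at this
      refine this.congr_of_eventuallyEq ?_
      filter_upwards with t
      simp only [id]
      ring
    exact h3.cexp
  have h3 := dd_of (h2.mul (hda hg ht))
  have h4 : DD (fun t => ee (x * t) * g t) t = DD ((fun t => ee (x * t)) * g) t := rfl
  rw [h4, h3]
  field_simp
  ring

theorem LL_q {g : ℂ → ℂ} (hg : DifferentiableOn ℂ g {τ | 0 < τ.im}) (x : ℂ) {t : ℂ}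
    (ht : 0 < t.im) : LL (fun t => ee (x * t) * g t) t = ee (x * t) * LX x g t := by
  have h1 := dd_hol hg
  have h2 : DD (DD fun t => ee (x * t) * g t) t =
      ee (x * t) * (DD (DD g) t + x * DD g t + x * (DD g t + x * g t)) := by
    rw [dd_congr (fun s hs => dd_q hg x hs) ht]
    rw [dd_q (g := fun t => DD g t + x * g t) (by fun_prop) x ht]
    rw [dd_add (u := DD g) (v := fun t => x * g t) h1 (by fun_prop) ht, dd_smul hg x ht]
  unfold LL LX
  rw [h2, dd_q hg x ht]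
  ring

theorem LX_gr {a : ℝ} {g : ℂ → ℂ} (hg : Gr a g) (x : ℂ) : Gr a (LX x g) := by
  have h1 := hg.dd
  have h2 := h1.dd
  have h3 : Gr a (fun t => e2 t * (DD g t + x * g t)) := by
    have := e2_gr.mul (h1.add (hg.smul x))
    rwa [zero_add] at this
  have h4 : Gr a (fun t => (3 / 2 * DD e2 t + 1 / 2 * (e2 t * e2 t)) * g t) := by
    have h5 : Gr 0 (fun t => e2 t * e2 t) := by
      have := e2_gr.mul e2_gr
      rwa [zero_add] at this
    have := (((dde2_gr.mono zero_le_one).smul (3 / 2)).add (h5.smul (1 / 2))).mul hg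
    rwa [zero_add] at this
  exact ((((h2.add (h1.smul (2 * x))).add (hg.smul (x ^ 2))).add (h3.smul (3 / 2))).add h4)

theorem LX_gr1 {n₀ : ℤ} {g : ℂ → ℂ} (hg : Gr n₀ g) (x : ℂ)
    (hx : (n₀ + x) ^ 2 + 3 / 2 * (n₀ + x) + 1 / 2 = 0) : Gr (n₀ + 1) (LX x g) := by
  set b := Pool.Agent.Y683.RL.fco 0 g n₀ with hb
  set r : ℂ → ℂ := fun t => g t - b * ee (n₀ * t) with hr
  have hgr : Gr (n₀ + 1) r := hg.rem
  have hq : Gr n₀ (fun t => ee (n₀ * t)) := Gr.q n₀
  have hLr := LX_gr hgr x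
  -- the leading term
  have h1 : Gr (n₀ + 1) (fun t => b * (ee (n₀ * t) * (3 / 2 * (n₀ + x) * (e2 t - 1) +
      3 / 2 * DD e2 t + 1 / 2 * ((e2 t - 1) * (e2 t + 1))))) := by
    have h2 : Gr 1 (fun t => (e2 t - 1) * (e2 t + 1)) := by
      have := e2_sub.mul (e2_gr.add (Gr.const 1))
      rwa [add_zero] at this
    exact (hq.mul (((e2_sub.smul (3 / 2 * (n₀ + x))).add (dde2_gr.smul (3 / 2))).add
      (h2.smul (1 / 2)))).smul b
  refine (h1.add hLr).congr fun t ht => ?_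
  have hdq : ∀ s : ℂ, 0 < s.im → DD (fun t => ee (n₀ * t)) s = n₀ * ee (n₀ * s) := by
    intro s hs
    have h3 := dd_q (g := fun _ => 1) (by fun_prop) (n₀ : ℂ) hs
    have h4 : DD (fun _ : ℂ => (1 : ℂ)) s = 0 := by
      unfold DD
      simp
    rw [h4] at h3
    simp only [mul_one, zero_add] at h3
    rw [h3]
    ring
  have hqh : DifferentiableOn ℂ (fun t : ℂ => ee (n₀ * t)) {τ | 0 < τ.im} := hq.hp.holo
  have hbq : DifferentiableOn ℂ (fun t : ℂ => b * ee (n₀ * t)) {τ | 0 < τ.im} := hqh.const_mul b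
  have hg1 : ∀ s : ℂ, 0 < s.im → DD g s = b * (n₀ * ee (n₀ * s)) + DD r s := by
    intro s hs
    have h5 : ∀ t : ℂ, 0 < t.im → g t = b * ee (n₀ * t) + r t := fun t _ => by
      simp only [hr]
      ring
    rw [dd_congr h5 hs, dd_add (u := fun t => b * ee (n₀ * t)) hbq hgr.hp.holo hs,
      dd_smul (u := fun t => ee (n₀ * t)) hqh b hs, hdq s hs]
  have hg2 : DD (DD g) t = b * (n₀ * (n₀ * ee (n₀ * t))) + DD (DD r) t := by
    rw [dd_congr hg1 ht, dd_add (u := fun t => b * (n₀ * ee (n₀ * t)))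
      ((hqh.const_mul _).const_mul _) (dd_hol hgr.hp.holo) ht,
      dd_smul (u := fun t => n₀ * ee (n₀ * t)) (hqh.const_mul _) b ht,
      dd_smul (u := fun t => ee (n₀ * t)) hqh _ ht, hdq t ht]
  have hg0 : g t = b * ee (n₀ * t) + r t := by
    simp only [hr]
    ring
  unfold LX
  rw [hg2, hg1 t ht, hg0]
  linear_combination (b * ee (n₀ * t)) * hx

theorem ode2 : JobODE2 := by
  intro x u C hu hT hb
  have hpi := Real.pi_pos
  set g : ℂ → ℂ := fun t => ee (-(x * t)) * u t with hg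
  have hgh : DifferentiableOn ℂ g {τ | 0 < τ.im} := by
    have h1 : Differentiable ℂ ee := ee_diff
    refine DifferentiableOn.mul ?_ hu
    fun_prop
  have hHP : HP 0 g := by
    refine ⟨hgh, fun t ht => ?_⟩
    simp only [hg]
    rw [hT t ht, show -((x : ℂ) * (t + 1)) = -(x * t) + -x by ring,
      Pool.Agent.Y683.RL.ee_add,
      show ee (-(x * t)) * ee (-x) * (ee x * u t) = ee (-(x * t)) * (ee (-x) * ee x) * u t by ring,
      ee_neg_mul, mul_one]
  have hug : ∀ t : ℂ, 0 < t.im → u t = ee (x * t) * g t := by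
    intro t _
    simp only [hg]
    rw [← mul_assoc, mul_comm (ee (x * t)), ee_neg_mul, one_mul]
  -- growth of `g` from growth of `u`
  have hgrow : ∀ d : ℝ, (∀ τ : ℂ, 1 / 2 ≤ τ.im → ‖u τ‖ ≤ C * Real.exp (2 * Real.pi * d * τ.im)) →
      ∀ n : ℤ, (n : ℝ) + x < -d → fco 0 g n = 0 := by
    intro d hd n hn
    refine fco_zero hHP (M := C) (a := 2 * Real.pi * (d + x)) (fun t ht => ?_) ?_
    · simp only [hg]
      rw [norm_mul, norm_ee]
      have e1 : (-((x : ℂ) * t)).im = -(x * t.im) := by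
        rw [Complex.neg_im, Complex.mul_im]; simp
      rw [e1]
      calc Real.exp (-(2 * Real.pi * -(x * t.im))) * ‖u t‖ ≤
            Real.exp (-(2 * Real.pi * -(x * t.im))) * (C * Real.exp (2 * Real.pi * d * t.im)) :=
            mul_le_mul_of_nonneg_left (hd t (by linarith)) (Real.exp_pos _).le
        _ = _ := by
            rw [mul_left_comm, ← Real.exp_add]
            congr 2
            ring
    · nlinarith
  -- conclusion from growth of `LX`
  have hfin : ∀ b : ℝ, -(1 / 2 : ℝ) < b + x → Gr b (LX x g) → ∃ κ C' : ℝ, -(1 / 2 : ℝ) < κ ∧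
      ∀ τ : ℂ, 1 / 2 ≤ τ.im → ‖LL u τ‖ ≤ C' * Real.exp (-(2 * Real.pi * κ * τ.im)) := by
    intro b hb h
    obtain ⟨C', hC', h'⟩ := h.gr
    refine ⟨b + x, C', hb, fun t ht => ?_⟩
    have ht0 : 0 < t.im := by linarith
    rw [LL_congr hug ht0, LL_q hgh x ht0, norm_mul, norm_ee]
    have e1 : ((x : ℂ) * t).im = x * t.im := by
      rw [Complex.mul_im]; simp
    rw [e1]
    calc Real.exp (-(2 * Real.pi * (x * t.im))) * ‖LX x g t‖ ≤
          Real.exp (-(2 * Real.pi * (x * t.im))) * (C' * Real.exp (-(2 * Real.pi * b * t.im))) :=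
          mul_le_mul_of_nonneg_left (h' t ht) (Real.exp_pos _).le
      _ = _ := by
          rw [mul_left_comm, ← Real.exp_add]
          congr 2
          ring
  rcases hb with ⟨⟨m, hm⟩, hb⟩ | hb
  · -- integral exponents
    have h1 := hgrow 1 (fun τ hτ => by rw [mul_one]; exact hb τ hτ)
    have h2 : Gr ((-1 - m : ℤ) : ℝ) g := Gr.of_fco hHP fun n hn => h1 n (by
      push_cast at hn
      rw [hm]
      linarith)
    refine hfin (((-1 - m : ℤ) : ℝ) + 1) ?_ (LX_gr1 h2 x ?_)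
    · rw [hm]
      push_cast
      linarith
    · rw [hm]
      push_cast
      ring
  · have h1 := hgrow (1 / 2) (fun τ hτ => by
      rw [show 2 * Real.pi * (1 / 2) * τ.im = Real.pi * τ.im by ring]
      exact hb τ hτ)
    by_cases hex : ∃ n₀ : ℤ, (n₀ : ℝ) + x = -(1 / 2)
    · obtain ⟨n₀, hn₀⟩ := hex
      have h2 : Gr (n₀ : ℝ) g := Gr.of_fco hHP fun n hn => h1 n (by linarith)
      refine hfin (n₀ + 1) (by linarith) (LX_gr1 h2 x ?_)
      have h3 : (n₀ : ℂ) + x = -(1 / 2) := by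
        have : (((n₀ : ℝ) + x : ℝ) : ℂ) = ((-(1 / 2) : ℝ) : ℂ) := by rw [hn₀]
        push_cast at this
        exact this
      rw [h3]
      norm_num
    · have h2 : Gr ((⌈-(1 / 2) - x⌉ : ℤ) : ℝ) g := Gr.of_fco hHP fun n hn => h1 n (by
        have h3 : n < ⌈-(1 / 2) - x⌉ := by exact_mod_cast hn
        have h4 := Int.lt_ceil.1 h3
        linarith)
      refine hfin _ ?_ (LX_gr h2 x)
      have h3 := Int.le_ceil (-(1 / 2) - x)
      refine lt_of_le_of_ne (by linarith) fun h4 => hex ⟨⌈-(1 / 2) - x⌉, h4.symm⟩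

end

end Pool.Agent.Run7.h352.RL.ODE2
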