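import Pool.Agent.Run7.h352.RL.ODE2
import Pool.Agent.Run7.h352.RL.FF

set_option autoImplicit false

/-!
# Piece ODE3 of the project on MP_f1d0b6_nt (written by helper690)

The conclusion on the discriminant form from the differential equation.
-/

namespace Pool.Agent.Run7.h352.RL.ODE3

open Complex Set Topology Filter MeasureTheory Pool.Agent.Y813.RL Pool.Agent.Run7.h352.RL
open Pool.Agent.Run7.h352.RL.ODE1 Pool.Agent.Run7.h352.RL.ODE2 Pool.Agent.Y683.RL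

noncomputable section

/-- `u = O(q^a)` -/
def Ob (a : ℝ) (u : ℂ → ℂ) : Prop :=
  ∃ C : ℝ, 0 ≤ C ∧ ∀ t : ℂ, 1 / 2 ≤ t.im → ‖u t‖ ≤ C * Real.exp (-(2 * Real.pi * a * t.im))

theorem Ob.mul {a b : ℝ} {u v : ℂ → ℂ} (hu : Ob a u) (hv : Ob b v) :
    Ob (a + b) (fun t => u t * v t) := by
  obtain ⟨C, hC, h⟩ := hu
  obtain ⟨C', hC', h'⟩ := hv
  refine ⟨C * C', by positivity, fun t ht => ?_⟩
  rw [norm_mul, show -(2 * Real.pi * (a + b) * t.im) =
    -(2 * Real.pi * a * t.im) + -(2 * Real.pi * b * t.im) by ring, Real.exp_add]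
  calc ‖u t‖ * ‖v t‖ ≤ (C * Real.exp (-(2 * Real.pi * a * t.im))) *
        (C' * Real.exp (-(2 * Real.pi * b * t.im))) :=
        mul_le_mul (h t ht) (h' t ht) (norm_nonneg _) (by positivity)
    _ = _ := by ring

theorem Ob.sub {a : ℝ} {u v : ℂ → ℂ} (hu : Ob a u) (hv : Ob a v) :
    Ob a (fun t => u t - v t) := by
  obtain ⟨C, hC, h⟩ := hu
  obtain ⟨C', hC', h'⟩ := hv
  refine ⟨C + C', by positivity, fun t ht => ?_⟩
  rw [add_mul]
  exact (norm_sub_le _ _).trans (add_le_add (h t ht) (h' t ht))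

theorem small {a C : ℝ} (h : ∀ y : ℝ, 1 / 2 ≤ y → a ≤ C * Real.exp (-(2 * Real.pi * y))) :
    a ≤ 0 := by
  have hpi := Real.pi_pos
  have ht : Filter.Tendsto (fun T : ℝ => C * Real.exp (-(2 * Real.pi * T))) Filter.atTop
      (𝓝 (C * 0)) := by
    refine Filter.Tendsto.const_mul _ ?_
    refine Real.tendsto_exp_atBot.comp ?_
    have h1 : (fun T : ℝ => -(2 * Real.pi * T)) = fun T => (-(2 * Real.pi)) * T := by
      funext T
      ring
    rw [h1]
    exact Filter.Tendsto.const_mul_atTop_of_neg (by linarith) Filter.tendsto_id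
  rw [mul_zero] at ht
  refine ge_of_tendsto ht ?_
  filter_upwards [Filter.eventually_ge_atTop (1 / 2 : ℝ)] with y hy
  exact h y hy

theorem im_vert (y : ℝ) : ((y : ℂ) * Complex.I).im = y := by simp

theorem gr_of {x a : ℝ} {u : ℂ → ℂ} (hu : DifferentiableOn ℂ u {τ | 0 < τ.im})
    (hT : ∀ τ : ℂ, 0 < τ.im → u (τ + 1) = ee x * u τ) (hb : Ob a u) :
    Gr (a - x) (fun t => ee (-(x * t)) * u t) := by
  refine ⟨⟨?_, fun t ht => ?_⟩, ?_⟩
  · have h1 : Differentiable ℂ ee := ee_diff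
    refine DifferentiableOn.mul ?_ hu
    fun_prop
  · rw [hT t ht, show -((x : ℂ) * (t + 1)) = -(x * t) + -x by ring, Pool.Agent.Y683.RL.ee_add,
      show ee (-(x * t)) * ee (-x) * (ee x * u t) = ee (-(x * t)) * (ee (-x) * ee x) * u t by ring,
      ee_neg_mul, mul_one]
  · obtain ⟨C, hC, h⟩ := hb
    refine ⟨C, hC, fun t ht => ?_⟩
    rw [norm_mul, norm_ee]
    have e1 : (-((x : ℂ) * t)).im = -(x * t.im) := by
      rw [Complex.neg_im, Complex.mul_im]; simp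
    rw [e1]
    calc Real.exp (-(2 * Real.pi * -(x * t.im))) * ‖u t‖ ≤
          Real.exp (-(2 * Real.pi * -(x * t.im))) * (C * Real.exp (-(2 * Real.pi * a * t.im))) :=
          mul_le_mul_of_nonneg_left (h t ht) (Real.exp_pos _).le
      _ = _ := by
          rw [mul_left_comm, ← Real.exp_add]
          congr 2
          ring

theorem ug {x : ℝ} {u : ℂ → ℂ} (t : ℂ) : u t = ee (x * t) * (ee (-(x * t)) * u t) := by
  rw [← mul_assoc, mul_comm (ee (x * t)), ee_neg_mul, one_mul]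

theorem dd_ob {x a : ℝ} {u : ℂ → ℂ} (hu : DifferentiableOn ℂ u {τ | 0 < τ.im})
    (hT : ∀ τ : ℂ, 0 < τ.im → u (τ + 1) = ee x * u τ) (hb : Ob a u) : Ob a (DD u) := by
  have hg := gr_of hu hT hb
  obtain ⟨C, hC, h⟩ := (hg.dd.add (hg.smul x)).gr
  refine ⟨C, hC, fun t ht => ?_⟩
  have ht0 : 0 < t.im := by linarith
  rw [dd_congr (v := fun t => ee (x * t) * (ee (-(x * t)) * u t)) (fun s _ => ug s) ht0,
    dd_q (g := fun t => ee (-(x * t)) * u t) hg.hp.holo x ht0, norm_mul, norm_ee]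
  have e1 : ((x : ℂ) * t).im = x * t.im := by
    rw [Complex.mul_im]; simp
  rw [e1]
  calc Real.exp (-(2 * Real.pi * (x * t.im))) *
        ‖DD (fun t => ee (-(x * t)) * u t) t + x * (ee (-(x * t)) * u t)‖ ≤
        Real.exp (-(2 * Real.pi * (x * t.im))) * (C * Real.exp (-(2 * Real.pi * (a - x) * t.im))) :=
        mul_le_mul_of_nonneg_left (h t ht) (Real.exp_pos _).le
    _ = _ := by
        rw [mul_left_comm, ← Real.exp_add]
        congr 2
        ring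

/-! ### the discriminant -/

theorem eta24_gr : Ob 1 (fun t => ModularForm.eta t ^ 24) := by
  have hT : ∀ t : ℂ, ModularForm.eta (t + 1) ^ 24 = ModularForm.eta t ^ 24 := by
    intro t
    rw [eta_T, mul_pow, ← Complex.exp_nat_mul]
    rw [show ((24 : ℕ) : ℂ) * (2 * Real.pi * Complex.I / 24) = 2 * Real.pi * Complex.I by
      push_cast; ring, Complex.exp_two_pi_mul_I, one_mul]
  have hhol : DifferentiableOn ℂ (fun t => ModularForm.eta t ^ 24) {τ | 0 < τ.im} :=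
    eta_hol.pow 24
  have hHP : HP 0 (fun t => ModularForm.eta t ^ 24) := ⟨hhol, fun t _ => hT t⟩
  have hz : ∀ ε : ℝ, 0 < ε → ∃ T : ℝ, ∀ t : ℂ, 0 < t.im → T ≤ t.im →
      ‖ModularForm.eta t ^ 24‖ ≤ ε := by
    intro ε hε
    obtain ⟨A, hA⟩ := UpperHalfPlane.isZeroAtImInfty_iff.1
      ModularForm.discriminant_isZeroAtImInfty ε hε
    exact ⟨A, fun t ht0 ht => hA ⟨t, ht0⟩ ht⟩
  have hg : Gr 1 (fun t => ModularForm.eta t ^ 24) := by
    refine Gr.of_fco hHP fun n hn => ?_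
    rw [hHP.fco_eq n (w := Complex.I) (by simp)]
    refine HP_line_zero (f := fun t => ModularForm.eta t ^ 24 * ee (-(n * t))) (hHP.mul_ee n) ?_
      (by simp)
    intro ε hε
    obtain ⟨T, hT⟩ := hz ε hε
    refine ⟨max T 1, fun t ht => ?_⟩
    have h1 : T ≤ t.im := (le_max_left _ _).trans ht
    have h2 : 1 ≤ t.im := (le_max_right _ _).trans ht
    have h3 : n ≤ 0 := by
      have : n < 1 := by exact_mod_cast hn
      omega
    have h3' : (n : ℝ) ≤ 0 := by exact_mod_cast h3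
    have hpi := Real.pi_pos
    rw [norm_mul, norm_ee]
    have e1 : (-((n : ℂ) * t)).im = -(n * t.im) := by
      rw [Complex.neg_im, Complex.mul_im]; simp
    rw [e1]
    have h4 : Real.exp (-(2 * Real.pi * -(n * t.im))) ≤ 1 := by
      rw [Real.exp_le_one_iff]
      have : (n : ℝ) * t.im ≤ 0 := mul_nonpos_of_nonpos_of_nonneg h3' (by linarith)
      nlinarith
    calc ‖ModularForm.eta t ^ 24‖ * Real.exp (-(2 * Real.pi * -(n * t.im))) ≤ ε * 1 :=
          mul_le_mul (hT t (by linarith) h1) h4 (Real.exp_pos _).le hε.le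
      _ = ε := mul_one ε
  exact hg.gr

theorem hda_eta24 {τ : ℂ} (hτ : 0 < τ.im) : HasDerivAt (fun t => ModularForm.eta t ^ 24)
    (2 * Real.pi * Complex.I * (e2 τ * ModularForm.eta τ ^ 24)) τ := by
  have h1 := (dat eta_hol hτ).hasDerivAt.pow 24
  have hn := ModularForm.eta_ne_zero (z := τ) hτ
  have hpi : (Real.pi : ℂ) ≠ 0 := by exact_mod_cast Real.pi_ne_zero
  have hI := Complex.I_ne_zero
  have h2 : 2 * Real.pi * Complex.I * (e2 τ * ModularForm.eta τ ^ 24) =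
      ((24 : ℕ) : ℂ) * ModularForm.eta τ ^ (24 - 1) * deriv ModularForm.eta τ := by
    rw [e2_eq]
    push_cast
    field_simp
    ring
  rw [h2]
  exact h1

/-! ### the Wronskian -/

theorem wr_zero {u v : ℂ → ℂ} {x y : ℝ} (hu : DifferentiableOn ℂ u {τ | 0 < τ.im})
    (hv : DifferentiableOn ℂ v {τ | 0 < τ.im})
    (hTu : ∀ τ : ℂ, 0 < τ.im → u (τ + 1) = ee x * u τ)
    (hTv : ∀ τ : ℂ, 0 < τ.im → v (τ + 1) = ee y * v τ)
    (hbu : Ob (-(1 / 2)) u) (hbv : Ob (-(1 / 2)) v)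
    (hLu : ∀ τ : ℂ, 0 < τ.im → LL u τ = 0) (hLv : ∀ τ : ℂ, 0 < τ.im → LL v τ = 0)
    {τ : ℂ} (hτ : 0 < τ.im) : u τ * DD v τ - v τ * DD u τ = 0 := by
  have hdu := dd_hol hu
  have hdv := dd_hol hv
  set W : ℂ → ℂ := fun t => u t * DD v t - v t * DD u t with hW
  set e : ℂ → ℂ := fun t => ModularForm.eta t ^ 24 with he
  have hWd : ∀ t : ℂ, 0 < t.im →
      HasDerivAt W (2 * Real.pi * Complex.I * (-(3 / 2) * e2 t * W t)) t := by
    intro t ht
    have h1 := ((hda hu ht).mul (hda hdv ht)).sub ((hda hv ht).mul (hda hdu ht))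
    have h2 := hLu t ht
    have h3 := hLv t ht
    have h4 : 2 * Real.pi * Complex.I * (-(3 / 2) * e2 t * W t) =
        (2 * Real.pi * Complex.I * DD u t) * DD v t + u t * (2 * Real.pi * Complex.I * DD (DD v) t) -
        ((2 * Real.pi * Complex.I * DD v t) * DD u t +
          v t * (2 * Real.pi * Complex.I * DD (DD u) t)) := by
      unfold LL at h2 h3
      simp only [hW]
      linear_combination (2 * Real.pi * Complex.I) * v t * h2 - (2 * Real.pi * Complex.I) * u t * h3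
    rw [h4]
    exact h1
  set K : ℂ → ℂ := fun t => (W t * W t) * ((e t * e t) * e t) with hK
  have hKd : ∀ t : ℂ, 0 < t.im → HasDerivAt K 0 t := by
    intro t ht
    have h1 := hWd t ht
    have h2 := hda_eta24 ht
    have h3 := (h1.mul h1).mul ((h2.mul h2).mul h2)
    have h4 : (0 : ℂ) = (2 * Real.pi * Complex.I * (-(3 / 2) * e2 t * W t) * W t +
        W t * (2 * Real.pi * Complex.I * (-(3 / 2) * e2 t * W t))) * ((e t * e t) * e t) +
        (W t * W t) * ((2 * Real.pi * Complex.I * (e2 t * e t) * e t +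
          e t * (2 * Real.pi * Complex.I * (e2 t * e t))) * e t +
          (e t * e t) * (2 * Real.pi * Complex.I * (e2 t * e t))) := by
      ring
    rw [h4]
    exact h3
  have hconst : ∀ t : ℂ, 0 < t.im → K t = K τ := by
    intro t ht
    refine isOpenH.is_const_of_deriv_eq_zero (convex_halfSpace_im_gt 0).isPreconnected
      (fun s hs => (hKd s hs).differentiableAt.differentiableWithinAt)
      (fun s hs => (hKd s hs).deriv) ht hτ
  have hKb : Ob (-(1 / 2) + -(1 / 2) + (-(1 / 2) + -(1 / 2)) + (1 + 1 + 1)) K := by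
    have h1 := (hbu.mul (dd_ob hv hTv hbv)).sub (hbv.mul (dd_ob hu hTu hbu))
    exact (h1.mul h1).mul ((eta24_gr.mul eta24_gr).mul eta24_gr)
  have hK0 : K τ = 0 := by
    obtain ⟨C, hC, h⟩ := hKb
    have : ‖K τ‖ ≤ 0 := by
      refine small (C := C) fun y hy => ?_
      have h1 := h ((y : ℂ) * Complex.I) (by rw [im_vert]; exact hy)
      rw [hconst _ (by rw [im_vert]; linarith), im_vert] at h1
      refine h1.trans (le_of_eq ?_)
      congr 2
      ring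
    exact norm_le_zero_iff.1 this
  have hn : e τ ≠ 0 := pow_ne_zero _ (ModularForm.eta_ne_zero (z := τ) hτ)
  have h1 : W τ * W τ = 0 := by
    rcases mul_eq_zero.1 hK0 with h | h
    · exact h
    · exact absurd h (mul_ne_zero (mul_ne_zero hn hn) hn)
  exact mul_self_eq_zero.1 h1

theorem identity {u : ℂ → ℂ} (hu : DifferentiableOn ℂ u {τ | 0 < τ.im}) {τ₀ : ℂ} (h0 : 0 < τ₀.im)
    (h : u =ᶠ[𝓝 τ₀] 0) {τ : ℂ} (hτ : 0 < τ.im) : u τ = 0 :=
  (hu.analyticOnNhd isOpenH).eqOn_zero_of_preconnected_of_eventuallyEq_zero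
    (convex_halfSpace_im_gt 0).isPreconnected h0 h hτ

theorem prop_of_wr {u v : ℂ → ℂ} (hu : DifferentiableOn ℂ u {τ | 0 < τ.im})
    (hv : DifferentiableOn ℂ v {τ | 0 < τ.im})
    (hW : ∀ τ : ℂ, 0 < τ.im → u τ * DD v τ - v τ * DD u τ = 0) {τ₀ : ℂ} (h0 : 0 < τ₀.im)
    (hne : u τ₀ ≠ 0) : ∃ c : ℂ, ∀ τ : ℂ, 0 < τ.im → v τ = c * u τ := by
  have hopen : {t : ℂ | 0 < t.im ∧ u t ≠ 0} ∈ 𝓝 τ₀ := by
    have h1 := (dat hu h0).continuousAt.eventually_ne hne
    filter_upwards [memH h0, h1] with t ht h2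
    exact ⟨ht, h2⟩
  obtain ⟨r, hr, hball⟩ := Metric.mem_nhds_iff.1 hopen
  have hd : ∀ t ∈ Metric.ball τ₀ r, HasDerivAt (fun t => v t / u t) 0 t := by
    intro t ht
    obtain ⟨h1, h2⟩ := hball ht
    have h3 := (hda hv h1).div (hda hu h1) h2
    have h4 : (0 : ℂ) = (2 * Real.pi * Complex.I * DD v t * u t -
        v t * (2 * Real.pi * Complex.I * DD u t)) / u t ^ 2 := by
      have h5 : 2 * Real.pi * Complex.I * DD v t * u t -
        v t * (2 * Real.pi * Complex.I * DD u t) = 0 := by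
        linear_combination (2 * Real.pi * Complex.I) * hW t h1
      rw [h5, zero_div]
    rw [h4]
    exact h3
  refine ⟨v τ₀ / u τ₀, fun τ hτ => ?_⟩
  have h1 : ∀ t ∈ Metric.ball τ₀ r, v t / u t = v τ₀ / u τ₀ := by
    intro t ht
    exact Metric.isOpen_ball.is_const_of_deriv_eq_zero (f := fun t => v t / u t)
      (convex_ball τ₀ r).isPreconnected
      (fun s hs => (hd s hs).differentiableAt.differentiableWithinAt)
      (fun s hs => (hd s hs).deriv) ht (Metric.mem_ball_self hr)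
  have h2 : (fun t => v t - v τ₀ / u τ₀ * u t) =ᶠ[𝓝 τ₀] 0 := by
    filter_upwards [Metric.ball_mem_nhds τ₀ hr] with t ht
    have h3 := (hball ht).2
    rw [← h1 t ht, div_mul_cancel₀ _ h3]
    simp
  have h3 := identity (hv.sub (hu.const_mul (v τ₀ / u τ₀))) h0 h2 hτ
  exact sub_eq_zero.1 h3

/-! ### the leading exponent -/

theorem LX_lead {n₀ : ℤ} {g : ℂ → ℂ} (hg : Gr n₀ g) (x : ℂ) : Gr (n₀ + 1) (fun t => LX x g t -
    Pool.Agent.Y683.RL.fco 0 g n₀ * ((n₀ + x) ^ 2 + 3 / 2 * (n₀ + x) + 1 / 2) * ee (n₀ * t)) := by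
  set b := Pool.Agent.Y683.RL.fco 0 g n₀ with hb
  set r : ℂ → ℂ := fun t => g t - b * ee (n₀ * t) with hr
  have hgr : Gr (n₀ + 1) r := hg.rem
  have hq : Gr n₀ (fun t => ee (n₀ * t)) := Gr.q n₀
  have hLr := LX_gr hgr x
  have h1 : Gr (n₀ + 1) (fun t => b * (ee (n₀ * t) * (3 / 2 * (n₀ + x) * (e2 t - 1) +
      3 / 2 * DD e2 t + 1 / 2 * ((e2 t - 1) * (e2 t + 1))))) := by
    have h2 : Gr 1 (fun t => (e2 t - 1) * (e2 t + 1)) := by
      have := e2_sub.mul (e2_gr.add (Gr.const 1))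
      rwa [add_zero] at this
    exact (hq.mul (((e2_sub.smul (3 / 2 * (n₀ + x))).add (dde2_gr.smul (3 / 2))).add
      (h2.smul (1 / 2)))).smul b
  refine (h1.add hLr).congr fun t ht => ?_
  have hdq : ∀ s : ℂ, 0 < s.im → DD (fun t => ee (n₀ * t)) s = n₀ * ee (n₀ * s) := by
    intro s hs
    have h3 := dd_q (g := fun _ => 1) (by fun_prop) (n₀ : ℂ) hs
    have h4 : DD (fun _ : ℂ => (1 : ℂ)) s = 0 := by
      unfold DD
      simp
    rw [h4] at h3
    simp only [mul_one, zero_add] at h3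
    rw [h3]
    ring
  have hqh : DifferentiableOn ℂ (fun t : ℂ => ee (n₀ * t)) {τ | 0 < τ.im} := hq.hp.holo
  have hbq : DifferentiableOn ℂ (fun t : ℂ => b * ee (n₀ * t)) {τ | 0 < τ.im} := hqh.const_mul b
  have hg1 : ∀ s : ℂ, 0 < s.im → DD g s = b * (n₀ * ee (n₀ * s)) + DD r s := by
    intro s hs
    have h5 : ∀ t : ℂ, 0 < t.im → g t = b * ee (n₀ * t) + r t := fun t _ => by
      simp only [hr]
      ring
    rw [dd_congr h5 hs, dd_add (u := fun t => b * ee (n₀ * t)) hbq hgr.hp.holo hs,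
      dd_smul (u := fun t => ee (n₀ * t)) hqh b hs, hdq s hs]
  have hg2 : DD (DD g) t = b * (n₀ * (n₀ * ee (n₀ * t))) + DD (DD r) t := by
    rw [dd_congr hg1 ht, dd_add (u := fun t => b * (n₀ * ee (n₀ * t)))
      ((hqh.const_mul _).const_mul _) (dd_hol hgr.hp.holo) ht,
      dd_smul (u := fun t => n₀ * ee (n₀ * t)) (hqh.const_mul _) b ht,
      dd_smul (u := fun t => ee (n₀ * t)) hqh _ ht, hdq t ht]
  have hg0 : g t = b * ee (n₀ * t) + r t := by
    simp only [hr]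
    ring
  unfold LX
  rw [hg2, hg1 t ht, hg0]
  ring

theorem lead {u : ℂ → ℂ} {x : ℝ} (hu : DifferentiableOn ℂ u {τ | 0 < τ.im})
    (hT : ∀ τ : ℂ, 0 < τ.im → u (τ + 1) = ee x * u τ) (hb : Ob (-(1 / 2)) u)
    (hL : ∀ τ : ℂ, 0 < τ.im → LL u τ = 0) (hne : ∃ τ : ℂ, 0 < τ.im ∧ u τ ≠ 0) :
    ∃ n : ℤ, (n : ℝ) + x = -(1 / 2) := by
  have hg := gr_of hu hT hb
  set g : ℂ → ℂ := fun t => ee (-(x * t)) * u t with hgdef
  have hLX : ∀ t : ℂ, 0 < t.im → LX x g t = 0 := by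
    intro t ht
    have h1 := hL t ht
    rw [LL_congr (v := fun t => ee (x * t) * g t) (fun s _ => ug s) ht,
      LL_q hg.hp.holo x ht] at h1
    rcases mul_eq_zero.1 h1 with h | h
    · exact absurd h (ee_ne _)
    · exact h
  have h1 : ∃ n : ℤ, fco 0 g n ≠ 0 := by
    by_contra hcon
    push Not at hcon
    obtain ⟨t, ht, hft⟩ := hne
    have h2 := (hg.hp.hasSum ht).2
    simp only [hcon, zero_mul] at h2
    have h3 := h2.unique hasSum_zero
    rcases mul_eq_zero.1 h3 with h | h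
    · exact absurd h (ee_ne _)
    · exact hft h
  have h2 : ∀ n : ℤ, fco 0 g n ≠ 0 → ⌈-(1 / 2) - x⌉ ≤ n := by
    intro n hn
    by_contra hlt
    push Not at hlt
    exact hn (hg.fco n (Int.lt_ceil.1 hlt))
  obtain ⟨n₀, hn₀, hmin⟩ := Int.exists_least_of_bdd (P := fun n => fco 0 g n ≠ 0) ⟨_, h2⟩ h1
  have hg0 : Gr n₀ g := Gr.of_fco hg.hp fun n hn => by
    by_contra h3
    have h4 := hmin n h3
    have h5 : n < n₀ := by exact_mod_cast hn
    omega
  have hlow : -(1 / 2) - x ≤ n₀ := (Int.le_ceil _).trans (by exact_mod_cast h2 n₀ hn₀)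
  -- the leading coefficient
  set P : ℂ := (n₀ + x) ^ 2 + 3 / 2 * (n₀ + x) + 1 / 2 with hP
  obtain ⟨C, hC, hbd⟩ := (LX_lead hg0 x).gr
  have hcoef : fco 0 g n₀ * P = 0 := by
    have : ‖fco 0 g n₀ * P‖ ≤ 0 := by
      refine small (C := C) fun y hy => ?_
      have h3 := hbd ((y : ℂ) * Complex.I) (by rw [im_vert]; exact hy)
      rw [hLX _ (by rw [im_vert]; linarith), zero_sub, norm_neg, norm_mul, norm_ee, im_vert] at h3
      have e1 : ((n₀ : ℂ) * ((y : ℂ) * Complex.I)).im = n₀ * y := by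
        rw [Complex.mul_im, im_vert]; simp
      rw [e1] at h3
      have h4 : Real.exp (-(2 * Real.pi * ((n₀ : ℝ) + 1) * y)) =
          Real.exp (-(2 * Real.pi * y)) * Real.exp (-(2 * Real.pi * (n₀ * y))) := by
        rw [← Real.exp_add]
        congr 1
        ring
      rw [h4, ← mul_assoc C] at h3
      exact le_of_mul_le_mul_right h3 (Real.exp_pos _)
    exact norm_le_zero_iff.1 this
  have hP0 : P = 0 := by
    rcases mul_eq_zero.1 hcoef with h | h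
    · exact absurd h hn₀
    · exact h
  have hfac : (((n₀ : ℝ) + x + 1) * ((n₀ : ℝ) + x + 1 / 2) : ℝ) = 0 := by
    have : ((((n₀ : ℝ) + x + 1) * ((n₀ : ℝ) + x + 1 / 2) : ℝ) : ℂ) = 0 := by
      push_cast
      rw [← hP0, hP]
      ring
    exact_mod_cast this
  refine ⟨n₀, ?_⟩
  rcases mul_eq_zero.1 hfac with h | h
  · linarith
  · linarith

/-! ### the theorem -/

theorem SS {τ : ℂ} : -1 / (-1 / τ) = τ := by
  rw [div_div_eq_mul_div]
  simp

theorem ob_of {u : ℂ → ℂ} {C : ℝ}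
    (h : ∀ τ : ℂ, 1 / 2 ≤ τ.im → ‖u τ‖ ≤ C * Real.exp (Real.pi * τ.im)) : Ob (-(1 / 2)) u := by
  refine ⟨|C|, abs_nonneg _, fun t ht => (h t ht).trans ?_⟩
  rw [show -(2 * Real.pi * -(1 / 2) * t.im) = Real.pi * t.im by ring]
  exact mul_le_mul_of_nonneg_right (le_abs_self C) (Real.exp_pos _).le

theorem ode3 (hVV : JobVV) (hFF : JobFF) : JobODE3 := by
  classical
  intro G R f hG hev hR hV hg1 hg2 hne hLL
  obtain ⟨hdet, -, hF⟩ := hFF G hG
  obtain ⟨hcard, hun⟩ := hF R hR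
  have hdetR : (0 : ℝ) < (G.det : ℝ) := by exact_mod_cast hdet
  have hsq : (Real.sqrt (G.det : ℝ) : ℂ) ≠ 0 := by
    exact_mod_cast (Real.sqrt_pos.2 hdetR).ne'
  -- representative of zero
  obtain ⟨ρ₀, ⟨hρR, v₀, hv₀⟩, huniq⟩ := hR 0
  have hρ0 : ρ₀ = G.mulVec (-v₀) := by
    rw [Matrix.mulVec_neg]
    exact eq_neg_of_add_eq_zero_left hv₀.symm
  have hnS : ∀ ρ ∈ R, ρ ≠ ρ₀ → ¬ ∃ v : Fin 20 → ℤ, ρ = G.mulVec v := by
    rintro ρ hρ hne' ⟨v, hv⟩
    apply hne'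
    refine huniq ρ ⟨hρ, -v, ?_⟩
    rw [Matrix.mulVec_neg, ← hv, add_neg_cancel]
  have hf0 : ∀ (v : Fin 20 → ℤ) (τ : ℂ), 0 < τ.im → f (G.mulVec v) τ = f 0 τ := by
    intro v τ hτ
    have := hV.inv 0 v τ hτ
    rwa [zero_add] at this
  have hfρ : ∀ τ : ℂ, 0 < τ.im → f ρ₀ τ = f 0 τ := by
    intro τ hτ
    rw [hρ0]
    exact hf0 _ τ hτ
  have hch : ∀ μ, ee (-(bd G μ ρ₀ : ℂ)) = 1 := by
    intro μ
    rw [hρ0, FF.bd_mulVec hG]
    have : (-(((∑ i, μ i * (-v₀) i : ℤ) : ℝ) : ℂ)) = ((-(∑ i, μ i * (-v₀) i) : ℤ) : ℂ) := by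
      push_cast
      ring
    rw [this]
    exact Pool.Agent.Y683.RL.ee_int _
  have hSl : ∀ μ (τ : ℂ), 0 < τ.im → f μ τ = -(τ ^ 10) / (Real.sqrt (G.det : ℝ) : ℂ) *
      (f 0 (-1 / τ) + ∑ ρ ∈ R.erase ρ₀, ee (-(bd G μ ρ : ℂ)) * f ρ (-1 / τ)) := by
    intro μ τ hτ
    rw [hV.S μ τ hτ, ← Finset.add_sum_erase R _ hρR, hch, one_mul, hfρ _ (imS hτ)]
  -- a function vanishing identically at `-1/τ`
  have hinvS : ∀ u : ℂ → ℂ, (∀ τ : ℂ, 0 < τ.im → u (-1 / τ) = 0) → ∀ τ : ℂ, 0 < τ.im → u τ = 0 := by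
    intro u h τ hτ
    have := h (-1 / τ) (imS hτ)
    rwa [SS] at this
  have hzero : (∀ μ, (¬ ∃ v : Fin 20 → ℤ, μ = G.mulVec v) → ∀ τ : ℂ, 0 < τ.im → f μ τ = 0) →
      (∀ τ : ℂ, 0 < τ.im → f 0 τ = 0) → False := by
    intro h1 h2
    obtain ⟨μ, τ, hτ, hn⟩ := hne
    by_cases hμ : ∃ v : Fin 20 → ℤ, μ = G.mulVec v
    · obtain ⟨v, rfl⟩ := hμ
      exact hn (by rw [hf0 v τ hτ, h2 τ hτ])
    · exact hn (h1 μ hμ τ hτ)
  have hT0 : ∀ τ : ℂ, 0 < τ.im → f 0 (τ + 1) = f 0 τ := by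
    intro τ hτ
    have h1 : bd G 0 0 = 0 := by simp [bd]
    rw [hV.T 0 τ hτ, h1]
    simp [ee]
  -- case A
  have hA : ∃ μ, (¬ ∃ v : Fin 20 → ℤ, μ = G.mulVec v) ∧ ∃ τ : ℂ, 0 < τ.im ∧ f μ τ ≠ 0 := by
    by_contra hA
    push Not at hA
    have hA' : ∀ μ, (¬ ∃ v : Fin 20 → ℤ, μ = G.mulVec v) → ∀ τ : ℂ, 0 < τ.im → f μ τ = 0 := by
      intro μ hμ
      push Not at hμ
      exact hA μ hμ
    have hS0 : ∀ μ (τ : ℂ), 0 < τ.im → f μ τ = -(τ ^ 10) / (Real.sqrt (G.det : ℝ) : ℂ) *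
        f 0 (-1 / τ) := by
      intro μ τ hτ
      rw [hSl μ τ hτ, Finset.sum_eq_zero, add_zero]
      intro ρ hρ
      rw [hA' ρ (hnS ρ (Finset.mem_of_mem_erase hρ) (Finset.ne_of_mem_erase hρ)) _ (imS hτ),
        mul_zero]
    by_cases hS : ∃ μ, ¬ ∃ v : Fin 20 → ℤ, μ = G.mulVec v
    · obtain ⟨μ, hμ⟩ := hS
      refine hzero hA' (hinvS (f 0) fun τ hτ => ?_)
      have h1 := hS0 μ τ hτ
      rw [hA' μ hμ τ hτ] at h1
      rcases mul_eq_zero.1 h1.symm with h | h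
      · exfalso
        rcases div_eq_zero_iff.1 h with h | h
        · exact pow_ne_zero 10 (ne0 hτ) (neg_eq_zero.1 h)
        · exact hsq h
      · exact h
    · push Not at hS
      have hcard1 : R = {ρ₀} := by
        apply Finset.eq_singleton_iff_unique_mem.2
        refine ⟨hρR, fun ρ hρ => ?_⟩
        by_contra hne'
        obtain ⟨v, hv⟩ := hS ρ
        exact hnS ρ hρ hne' ⟨v, hv⟩
      have hdet1 : (G.det : ℝ) = 1 := by
        rw [hcard1, Finset.card_singleton] at hcard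
        exact_mod_cast hcard.symm
      have hS1 : ∀ τ : ℂ, 0 < τ.im → f 0 τ = -(τ ^ 10) * f 0 (-1 / τ) := by
        intro τ hτ
        have h1 := hS0 0 τ hτ
        rw [hdet1, Real.sqrt_one] at h1
        simpa using h1
      refine hzero hA' fun τ hτ => ?_
      have h0 := ne0 hτ
      have h1 : 0 < (τ + 1).im := imT hτ
      have h10 := ne0 h1
      have h2 : 0 < (-1 / (τ + 1)).im := imS h1
      have h3 : 0 < (-1 / (τ + 1) + 1).im := imT h2
      have h4 : 0 < (-1 / τ).im := imS hτ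
      have e1 := hS1 (τ + 1) h1
      have e2 := hS1 (-1 / (τ + 1) + 1) h3
      have e3 := hS1 τ hτ
      rw [hT0 τ hτ] at e1
      rw [hT0 _ h2] at e2
      have e4 : -1 / (-1 / (τ + 1) + 1) = -1 / τ + -1 := by
        have : -1 / (τ + 1) + 1 ≠ 0 := ne0 h3
        have h5 : -1 / (τ + 1) + 1 = τ / (τ + 1) := by
          field_simp
          ring
        rw [h5]
        field_simp
        ring
      have h6 : 0 < (-1 / τ + -1).im := by
        rw [← e4]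
        exact imS h3
      have e5 : f 0 (-1 / τ) = f 0 (-1 / τ + -1) := by
        have := hT0 (-1 / τ + -1) h6
        rw [← this]
        congr 1
        ring
      rw [e4, ← e5] at e2
      have h7 : (-1 / (τ + 1) + 1) = τ / (τ + 1) := by
        field_simp
        ring
      rw [h7] at e2
      have e6 : f 0 τ = f 0 τ * -1 := by
        calc f 0 τ = -((τ + 1) ^ 10) * f 0 (-1 / (τ + 1)) := e1
          _ = -((τ + 1) ^ 10) * (-((τ / (τ + 1)) ^ 10) * f 0 (-1 / τ)) := by rw [e2]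
          _ = τ ^ 10 * f 0 (-1 / τ) := by
              rw [div_pow]
              have : (τ + 1) ^ 10 ≠ 0 := pow_ne_zero _ h10
              field_simp
          _ = f 0 τ * -1 := by
              rw [e3]
              ring
      have e7 : 2 * f 0 τ = 0 := by linear_combination e6
      simpa using e7
  obtain ⟨μ₁, hμ₁, τ₁, hτ₁, hne₁⟩ := hA
  have hT : ∀ μ (τ : ℂ), 0 < τ.im → f μ (τ + 1) = ee ((-(bd G μ μ / 2) : ℝ) : ℂ) * f μ τ := by
    intro μ τ hτ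
    rw [hV.T μ τ hτ]
    congr 2
    push_cast
    ring
  have hOb : ∀ μ, (¬ ∃ v : Fin 20 → ℤ, μ = G.mulVec v) → Ob (-(1 / 2)) (f μ) := by
    intro μ hμ
    obtain ⟨C, hC⟩ := hg2 μ hμ
    exact ob_of hC
  have hprop : ∀ μ, (¬ ∃ v : Fin 20 → ℤ, μ = G.mulVec v) →
      ∃ c : ℂ, ∀ τ : ℂ, 0 < τ.im → f μ τ = c * f μ₁ τ := by
    intro μ hμ
    refine prop_of_wr (hV.holo μ₁) (hV.holo μ) (fun τ hτ => ?_) hτ₁ hne₁
    exact wr_zero (hV.holo μ₁) (hV.holo μ) (hT μ₁) (hT μ) (hOb μ₁ hμ₁) (hOb μ hμ) (hLL μ₁)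
      (hLL μ) hτ
  choose! c hc using hprop
  have hdet1 : G.det ≠ 1 := by
    intro h1
    apply hμ₁
    refine ⟨G.adjugate.mulVec μ₁, ?_⟩
    rw [Matrix.mulVec_mulVec, Matrix.mul_adjugate, h1, one_smul, Matrix.one_mulVec]
  refine ⟨?_, hdet1⟩
  -- case B
  have hB : ¬ ∃ d : ℂ, ∀ τ : ℂ, 0 < τ.im → f 0 τ = d * f μ₁ τ := by
    rintro ⟨d, hd⟩
    have hObA : ∀ μ, Ob (-(1 / 2)) (f μ) := by
      intro μ
      by_cases hμ : ∃ v : Fin 20 → ℤ, μ = G.mulVec v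
      · obtain ⟨v, rfl⟩ := hμ
        obtain ⟨C, hC, h⟩ := hOb μ₁ hμ₁
        refine ⟨‖d‖ * C, by positivity, fun t ht => ?_⟩
        have ht0 : 0 < t.im := by linarith
        rw [hf0 v t ht0, hd t ht0, norm_mul, mul_assoc]
        exact mul_le_mul_of_nonneg_left (h t ht) (norm_nonneg _)
      · exact hOb μ hμ
    choose C hC hCb using hObA
    have hvv := hVV R 10 (-(1 / 2)) (fun τ i => f i.1 τ) (by norm_num)
      (differentiableOn_pi.2 fun i => hV.holo i.1) ?_ ?_ ?_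
    · obtain ⟨ρ, ⟨hρ, v, hv⟩, -⟩ := hR μ₁
      apply hne₁
      rw [hv, hV.inv ρ v τ₁ hτ₁]
      exact hvv τ₁ hτ₁ ⟨ρ, hρ⟩
    · intro τ hτ
      refine Finset.sum_congr rfl fun i _ => ?_
      rw [hT i.1 τ hτ, norm_mul, norm_ee, Complex.ofReal_im, mul_zero, neg_zero, Real.exp_zero,
        one_mul]
    · intro τ hτ
      have h1 := hun (fun ρ => f ρ (-1 / τ))
      have h2 : ∀ μ, ‖f μ τ‖ ^ 2 = ‖τ‖ ^ 20 / (G.det : ℝ) *
          ‖∑ ρ ∈ R, ee (-(bd G μ ρ : ℂ)) * f ρ (-1 / τ)‖ ^ 2 := by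
        intro μ
        rw [hV.S μ τ hτ, norm_mul, norm_div, norm_neg, norm_pow, mul_pow, div_pow, ← pow_mul]
        congr 2
        rw [Complex.norm_real, Real.norm_eq_abs, sq_abs, Real.sq_sqrt hdetR.le]
      have h3 : ∑ i : R, ‖f i.1 (-1 / τ)‖ ^ 2 = ∑ ρ ∈ R, ‖f ρ (-1 / τ)‖ ^ 2 :=
        Finset.sum_coe_sort R (fun ρ => ‖f ρ (-1 / τ)‖ ^ 2)
      have h4 : ∑ i : R, ‖f i.1 τ‖ ^ 2 = ∑ ρ ∈ R, ‖f ρ τ‖ ^ 2 :=
        Finset.sum_coe_sort R (fun ρ => ‖f ρ τ‖ ^ 2)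
      rw [h3, h4, Finset.sum_congr rfl fun μ _ => h2 μ, ← Finset.mul_sum, h1]
      field_simp
      ring
    · refine ⟨∑ i : R, C i.1, fun τ hτ i => (hCb i.1 τ hτ).trans ?_⟩
      refine mul_le_mul_of_nonneg_right ?_ (Real.exp_pos _).le
      exact Finset.single_le_sum (f := fun i : R => C i.1) (fun j _ => hC j.1) (Finset.mem_univ i)
  -- case C
  have hSc : ∀ μ, (¬ ∃ v : Fin 20 → ℤ, μ = G.mulVec v) → ∃ s : ℂ, ∀ τ : ℂ, 0 < τ.im →
      c μ * f μ₁ τ = -(τ ^ 10) / (Real.sqrt (G.det : ℝ) : ℂ) *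
        (f 0 (-1 / τ) + s * f μ₁ (-1 / τ)) := by
    intro μ hμ
    refine ⟨∑ ρ ∈ R.erase ρ₀, ee (-(bd G μ ρ : ℂ)) * c ρ, fun τ hτ => ?_⟩
    rw [← hc μ hμ τ hτ, hSl μ τ hτ, Finset.sum_mul]
    congr 2
    refine Finset.sum_congr rfl fun ρ hρ => ?_
    rw [hc ρ (hnS ρ (Finset.mem_of_mem_erase hρ) (Finset.ne_of_mem_erase hρ)) _ (imS hτ)]
    ring
  have hceq : ∀ μ, (¬ ∃ v : Fin 20 → ℤ, μ = G.mulVec v) → c μ = c μ₁ := by
    intro μ hμ
    by_contra hcne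
    obtain ⟨s, hs⟩ := hSc μ hμ
    obtain ⟨s₁, hs₁⟩ := hSc μ₁ hμ₁
    apply hB
    refine ⟨-(c μ₁ * s - c μ * s₁) / (c μ₁ - c μ), fun τ hτ => ?_⟩
    have hτ' := imS hτ
    have h1 := hs _ hτ'
    have h2 := hs₁ _ hτ'
    rw [SS] at h1 h2
    have hX : -((-1 / τ) ^ 10) / (Real.sqrt (G.det : ℝ) : ℂ) ≠ 0 :=
      div_ne_zero (neg_ne_zero.2 (pow_ne_zero _ (ne0 hτ'))) hsq
    have h3 : -((-1 / τ) ^ 10) / (Real.sqrt (G.det : ℝ) : ℂ) *
        ((c μ₁ - c μ) * f 0 τ + (c μ₁ * s - c μ * s₁) * f μ₁ τ) = 0 := by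
      linear_combination c μ * h2 - c μ₁ * h1
    have h4 : (c μ₁ - c μ) * f 0 τ + (c μ₁ * s - c μ * s₁) * f μ₁ τ = 0 := by
      rcases mul_eq_zero.1 h3 with h | h
      · exact absurd h hX
      · exact h
    have h5 : c μ₁ - c μ ≠ 0 := sub_ne_zero.2 fun h => hcne h.symm
    field_simp
    linear_combination h4
  have hc1 : c μ₁ = 1 := by
    have h1 := hc μ₁ hμ₁ τ₁ hτ₁
    have h2 : (c μ₁ - 1) * f μ₁ τ₁ = 0 := by linear_combination -h1
    rcases mul_eq_zero.1 h2 with h | h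
    · exact sub_eq_zero.1 h
    · exact absurd h hne₁
  intro μ hμ
  have hneμ : f μ τ₁ ≠ 0 := by
    rw [hc μ hμ τ₁ hτ₁, hceq μ hμ, hc1, one_mul]
    exact hne₁
  obtain ⟨n, hn⟩ := lead (hV.holo μ) (hT μ) (hOb μ hμ) (hLL μ) ⟨τ₁, hτ₁, hneμ⟩
  exact ⟨n, by linarith⟩

end

end Pool.Agent.Run7.h352.RL.ODE3
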