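import Pool.Agent.Run7.h352.RL.Grow

set_option autoImplicit false

/-!
# Growth of the theta components in index one
-/

namespace Pool.Agent.Run7.h352.RL

open MeasureTheory Complex Set Finset Topology Pool.Agent.Y813.RL Pool.Agent.Y683.RL

noncomputable section

variable {G : Matrix (Fin 20) (Fin 20) ℤ} {k : ℤ} {F : TP → ℂ}
  {φ : ℕ → ℂ × (Fin 20 → ℂ) → ℂ} {C m : ℕ}

/-- the height of a zero is larger than `η` -/
theorem height_gt {x : Fin 20 → ℝ} {η : ℝ} {τ : ℂ} (hτ : 0 < τ.im) {s ω : ℂ} (hs0 : s ≠ 0)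
    (him : ω.im = -Real.log ‖s‖ / (2 * Real.pi)) (hs : ‖s‖ < rad G x η τ.im) :
    η < ω.im / τ.im - bf G x x / 2 := by
  have hpi := Real.pi_pos
  have hωv : (η + bf G x x / 2) * τ.im < ω.im := by
    rw [him, lt_div_iff₀ (by positivity)]
    have := Real.log_lt_log (norm_pos_iff.2 hs0) hs
    unfold rad at this
    rw [Real.log_exp] at this
    linarith
  rw [lt_sub_iff_add_lt, lt_div_iff₀ hτ]
  exact hωv

/-- **zero free discs** -/
theorem zero_free_one (h : PosSymm G) (H : CM G k F φ C m) {x : Fin 20 → ℝ} (hg : GenX G x) {η : ℝ}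
    (hη : 1 / 2 ≤ η)
    (hv : ∀ v : Fin 20 → ℤ, 1 - bf G ((fun i => (v i : ℝ)) + x) ((fun i => (v i : ℝ)) + x) / 2 ≤ η)
    (τ : ℂ) (y : Fin 20 → ℝ) (hτ : 2 ≤ τ.im) (s : ℂ) (hs : ‖s‖ < rad G x η τ.im) :
    gp φ C m (pt x τ (fun i => (y i : ℂ))) s ≠ 0 := by
  intro hz
  have hT0 : 0 < τ.im := by linarith
  obtain ⟨ω, b, m', n', μ, hω, him, hm', hw, he, hnu⟩ :=
    zero_info h H hg (by linarith) y (by linarith) (by nlinarith) hs hz
  have hs0 : s ≠ 0 := by rw [← hω]; exact ee_ne_zero _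
  have hgt := height_gt (G := G) hT0 hs0 him hs
  set t := ω.im / τ.im - bf G x x / 2 with ht
  have hm1 : (1 : ℝ) ≤ m' := by exact_mod_cast hm'
  have hnn := h.nonneg (lam G μ + (m' : ℝ) • x)
  have hle : (m' : ℝ) ^ 2 * t ≤ nu G 0 b m' n' μ := by rw [hnu]; linarith
  unfold nu at hle hnu
  rcases hw with ⟨h1, v, hv'⟩ | ⟨h1, h2⟩
  · rw [h1] at hle hnu
    rcases eq_or_lt_of_le (show 1 ≤ m' by omega) with hm2 | hm2
    · rw [← hm2] at hnu
      have hl : lam G μ = fun i => (v i : ℝ) := by rw [hv']; exact lam_mulVec h v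
      rw [hl] at hnu
      have := hv v
      simp only [Int.cast_one, one_pow, one_mul, one_smul] at hnu
      linarith
    · have hm3 : (2 : ℝ) ≤ m' := by exact_mod_cast (show (2 : ℤ) ≤ m' by omega)
      have h4 : (4 : ℝ) ≤ (m' : ℝ) ^ 2 := by nlinarith
      have h5 : 4 * t ≤ (m' : ℝ) ^ 2 * t := mul_le_mul_of_nonneg_right h4 (by linarith)
      linarith
  · have h3 : t ≤ (m' : ℝ) ^ 2 * t := le_mul_of_one_le_left (by linarith) (one_le_pow₀ hm1)
    linarith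

theorem lam_add (μ ν : Fin 20 → ℤ) : lam G (μ + ν) = lam G μ + lam G ν := by
  unfold lam
  rw [← Matrix.mulVec_add]
  congr 1
  funext j
  simp

theorem bd_add_mulVec (h : PosSymm G) (μ v : Fin 20 → ℤ) :
    bd G (μ + G.mulVec v) (μ + G.mulVec v) =
      bf G ((fun i => (v i : ℝ)) + lam G μ) ((fun i => (v i : ℝ)) + lam G μ) := by
  rw [← bf_lam_lam h, lam_add, lam_mulVec h, add_comm]

/-- minimal representatives -/
theorem exists_min (h : PosSymm G) (μ : Fin 20 → ℤ) : ∃ v : Fin 20 → ℤ, ∀ w : Fin 20 → ℤ,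
    bd G (μ + G.mulVec v) (μ + G.mulVec v) ≤ bd G (μ + G.mulVec w) (μ + G.mulVec w) := by
  set S : Set (Fin 20 → ℤ) := {ν | bd G ν ν ≤ bd G μ μ ∧ ∃ v, ν = μ + G.mulVec v} with hS
  have hfin : S.Finite := (short_finite h (bd G μ μ)).subset fun ν hν => hν.1
  have hne : S.Nonempty := ⟨μ, le_rfl, 0, by simp⟩
  obtain ⟨ν, ⟨hν1, v, hν2⟩, hmin⟩ := Set.exists_min_image S (fun ν => bd G ν ν) hfin hne
  refine ⟨v, fun w => ?_⟩
  rw [← hν2]
  by_cases hw : bd G (μ + G.mulVec w) (μ + G.mulVec w) ≤ bd G μ μ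
  · exact hmin _ ⟨hw, w, rfl⟩
  · push Not at hw
    linarith

/-- Young's inequality for the form -/
theorem young (h : PosSymm G) (a u : Fin 20 → ℝ) {t : ℝ} (ht : 0 < t) :
    (1 - t) * bf G a a - bf G u u / t ≤ bf G (a + u) (a + u) := by
  have h1 := h.nonneg (t • a + u)
  have h2 := h.nonneg u
  have e1 : bf G (t • a + u) (t • a + u) = t ^ 2 * bf G a a + 2 * t * bf G a u + bf G u u := by
    rw [bf_add_left, bf_add_right, bf_add_right, bf_smul_left, bf_smul_left, bf_smul_right,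
      bf_smul_right, bf_comm h.symm u a]
    ring
  have e2 : bf G (a + u) (a + u) = bf G a a + 2 * bf G a u + bf G u u := by
    rw [bf_add_left, bf_add_right, bf_add_right, bf_comm h.symm u a]
    ring
  rw [e1] at h1
  rw [e2]
  have h3 : 0 ≤ (t ^ 2 * bf G a a + 2 * t * bf G a u + bf G u u) / t := div_nonneg h1 ht.le
  have e3 : (t ^ 2 * bf G a a + 2 * t * bf G a u + bf G u u) / t =
      t * bf G a a + 2 * bf G a u + bf G u u / t := by
    field_simp
  rw [e3] at h3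
  linarith

theorem genX_of_gen (h : PosSymm G) : ∃ Q : ℕ, ∀ x : Fin 20 → ℝ,
    (∀ ν : Fin 20 → ℤ, ν ≠ 0 → (∀ i, |ν i| ≤ Q) → ∀ k : ℤ, dt ν x ≠ k) → GenX G x := by
  obtain ⟨Q, hQ⟩ := short_bound h 2
  refine ⟨Q, fun x hx μ h1 h2 => ?_⟩
  refine hx μ ?_ (hQ μ h2)
  intro h0
  subst h0
  unfold bd at h1
  simp at h1

/-- properties of the theta components -/
theorem vf_props (hT1 : JobTheta1) {A : Matrix (Fin 20) (Fin 20) ℤ} (h : PosSymm A)
    {c : ℂ → (Fin 20 → ℂ) → ℂ} (hc : JacobiZero A c) (μ : Fin 20 → ℤ) :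
    HP 0 (fc c μ) ∧ ContinuousOn (vf A c μ) {τ | 0 < τ.im} ∧
      (∀ τ : ℂ, 0 < τ.im → ‖vf A c μ (τ + 1)‖ = ‖vf A c μ τ‖) ∧
      ∀ τ : ℂ, ‖vf A c μ τ‖ = Real.exp (2 * Real.pi * (bd A μ μ / 2) * τ.im) * ‖fc c μ τ‖ := by
  obtain ⟨h1, h2, -, -, -⟩ := hT1 A c h hc
  have hn : ∀ τ : ℂ, ‖vf A c μ τ‖ =
      Real.exp (2 * Real.pi * (bd A μ μ / 2) * τ.im) * ‖fc c μ τ‖ := by
    intro τ
    unfold vf
    rw [norm_mul, norm_ee]
    have e1 : (-(τ * ((bd A μ μ : ℝ) : ℂ) / 2)).im = -(τ.im * (bd A μ μ / 2)) := by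
      have : -(τ * ((bd A μ μ : ℝ) : ℂ) / 2) = ((-(bd A μ μ / 2) : ℝ) : ℂ) * τ := by
        push_cast
        ring
      rw [this, Complex.im_ofReal_mul]
      ring
    rw [e1]
    congr 2
    ring
  refine ⟨⟨h1 μ, fun t ht => h2 μ t ht⟩, ?_, ?_, hn⟩
  · have h3 := (h1 μ).continuousOn
    unfold vf
    refine ContinuousOn.mul ?_ h3
    unfold ee
    fun_prop
  · intro τ hτ
    rw [hn, hn, h2 μ τ hτ]
    congr 3
    simp

/-- growth with an arbitrarily small loss -/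
theorem growth_eps (hKD : JobKD) (hBC : JobBC) (hT1 : JobTheta1) (h : PosSymm G)
    (H : CM G k F φ C 1) {c : ℂ → (Fin 20 → ℂ) → ℂ} (hc : JacobiZero (((1 : ℕ) : ℤ) • G) c)
    (hcφ : ∀ τ z, 0 < τ.im → φ (C + 1) (τ, z) = φ C (τ, z) * c τ z) (μ : Fin 20 → ℤ)
    (hmin : ∀ w : Fin 20 → ℤ, bd G μ μ ≤ bd G (μ + G.mulVec w) (μ + G.mulVec w)) {ε : ℝ}
    (hε : 0 < ε) : ∃ A : ℝ, ∀ τ : ℂ, 1 / 2 ≤ τ.im → ‖vf (((1 : ℕ) : ℤ) • G) c μ τ‖ ≤
      A * Real.exp (2 * Real.pi * (max (1 / 2) (1 - bd G μ μ / 2) + ε) * τ.im) := by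
  set N0 := bd G μ μ with hN0
  have hN0' : 0 ≤ N0 := by rw [hN0, ← bf_lam_lam h]; exact h.nonneg _
  set E0 := max (1 / 2) (1 - N0 / 2) with hE0
  -- the parameters
  set t := min 1 (ε / (8 * (N0 + 1))) with ht
  have ht0 : 0 < t := by positivity
  set δ := min (t * ε / 8) (ε / 8) with hδ
  have hδ0 : 0 < δ := by positivity
  obtain ⟨Q, hQ⟩ := genX_of_gen h
  have hcont : Continuous fun x : Fin 20 → ℝ => bf G (x + lam G μ) (x + lam G μ) :=
    bf_contR G (by fun_prop) (by fun_prop)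
  obtain ⟨X, N, hN, hxO, hgen⟩ := gen Q
    (isOpen_lt hcont continuous_const : IsOpen {x : Fin 20 → ℝ | bf G (x + lam G μ) (x + lam G μ) < δ})
    ⟨-lam G μ, by
      show bf G (-lam G μ + lam G μ) (-lam G μ + lam G μ) < δ
      rw [neg_add_cancel, bf_zero_left]
      exact hδ0⟩
  set x := xr X N with hx
  have hxO' : bf G (x + lam G μ) (x + lam G μ) < δ := hxO
  have hg : GenX G x := hQ x hgen
  have hv : ∀ v : Fin 20 → ℤ,
      1 - bf G ((fun i => (v i : ℝ)) + x) ((fun i => (v i : ℝ)) + x) / 2 ≤ E0 + ε / 4 := by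
    intro v
    have h1 := hmin (-v)
    rw [bd_add_mulVec h] at h1
    have e1 : (fun i => (((-v) i : ℤ) : ℝ)) + lam G μ = -((fun i => (v i : ℝ)) + -lam G μ) := by
      funext i
      simp
      ring
    rw [e1, bf_neg_left, bf_neg_right, neg_neg] at h1
    have h2 := young h ((fun i => (v i : ℝ)) + -lam G μ) (x + lam G μ) ht0
    have e2 : ((fun i => (v i : ℝ)) + -lam G μ) + (x + lam G μ) = (fun i => (v i : ℝ)) + x := by
      funext i
      simp
      ring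
    rw [e2] at h2
    have h3 : bf G (x + lam G μ) (x + lam G μ) / t ≤ ε / 8 := by
      rw [div_le_iff₀ ht0]
      have := hxO'.le.trans (min_le_left _ _)
      linarith
    have h4 : t * N0 ≤ ε / 8 := by
      have h41 : t * N0 ≤ (ε / (8 * (N0 + 1))) * N0 :=
        mul_le_mul_of_nonneg_right (min_le_right _ _) hN0'
      refine h41.trans ?_
      rw [div_mul_eq_mul_div, div_le_div_iff₀ (by positivity) (by norm_num)]
      nlinarith
    have h5 : 1 - N0 / 2 ≤ E0 := le_max_right _ _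
    set a := bf G ((fun i => (v i : ℝ)) + -lam G μ) ((fun i => (v i : ℝ)) + -lam G μ)
    have h6 : (1 - t) * N0 ≤ (1 - t) * a := by
      apply mul_le_mul_of_nonneg_left h1
      have : t ≤ 1 := min_le_left _ _
      linarith
    nlinarith
  have hη1 : 1 / 2 ≤ E0 + ε / 4 := by
    have := le_max_left (1 / 2) (1 - N0 / 2)
    linarith
  obtain ⟨K, T₂, hK, hT₂, hgr⟩ := slice_growth hKD hBC hT1 h H hc hcφ X hN hg
    (η := E0 + ε / 4) (T₁ := 2) (by linarith)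
    (fun τ y hτ s hs => zero_free_one h H hg hη1 hv τ y hτ s hs) μ
  obtain ⟨-, hco, hper, -⟩ := vf_props hT1 (posSymm_smul h one_pos) hc μ
  have hexp : expo G 1 μ x (E0 + ε / 4) ≤ E0 + ε / 2 := by
    unfold expo
    have h1 : x + ((1 : ℕ) : ℝ)⁻¹ • lam G μ = x + lam G μ := by simp
    rw [h1]
    have h2 := hxO'.le.trans (min_le_right _ _)
    push_cast
    linarith
  have hfin : ∀ τ : ℂ, T₂ ≤ τ.im → ‖vf (((1 : ℕ) : ℤ) • G) c μ τ‖ ≤
      (K / (ε / 2)) * Real.exp ((2 * Real.pi * (E0 + ε)) * τ.im) := by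
    intro τ hτ
    have hT0 : 0 ≤ τ.im := by linarith
    refine (hgr τ hτ).trans ?_
    have h1 : K * τ.im * Real.exp (2 * Real.pi * τ.im * expo G 1 μ x (E0 + ε / 4)) ≤
        K * τ.im * Real.exp (2 * Real.pi * τ.im * (E0 + ε / 2)) := by
      gcongr
    refine h1.trans ((absorb hK.le (by positivity : 0 < ε / 2) hT0).trans (le_of_eq ?_))
    congr 2
    ring
  exact ext_bound hco hper hfin

/-- vanishing of Fourier coefficients from growth with loss -/
theorem fco_zero_of_growth {f : ℂ → ℂ} (hf : HP 0 f) {g : ℂ → ℂ} {β E0 : ℝ}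
    (hn : ∀ τ : ℂ, ‖g τ‖ = Real.exp (2 * Real.pi * (β / 2) * τ.im) * ‖f τ‖)
    (hg : ∀ ε : ℝ, 0 < ε → ∃ A : ℝ, ∀ τ : ℂ, 1 / 2 ≤ τ.im →
      ‖g τ‖ ≤ A * Real.exp (2 * Real.pi * (E0 + ε) * τ.im)) {n : ℤ} (hnn : (n : ℝ) < β / 2 - E0) :
    fco 0 f n = 0 := by
  have hpi := Real.pi_pos
  set ε := (β / 2 - E0 - n) / 2 with hε
  have hε0 : 0 < ε := by rw [hε]; linarith
  obtain ⟨A, hA⟩ := hg ε hε0
  refine fco_zero hf (M := A) (a := 2 * Real.pi * (E0 + ε - β / 2)) ?_ ?_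
  · intro t ht
    have h1 := hA t (by linarith)
    rw [hn] at h1
    have h2 : ‖f t‖ = Real.exp (-(2 * Real.pi * (β / 2) * t.im)) *
        (Real.exp (2 * Real.pi * (β / 2) * t.im) * ‖f t‖) := by
      rw [← mul_assoc, ← Real.exp_add, neg_add_cancel, Real.exp_zero, one_mul]
    rw [h2]
    calc Real.exp (-(2 * Real.pi * (β / 2) * t.im)) *
          (Real.exp (2 * Real.pi * (β / 2) * t.im) * ‖f t‖) ≤
        Real.exp (-(2 * Real.pi * (β / 2) * t.im)) *
          (A * Real.exp (2 * Real.pi * (E0 + ε) * t.im)) := by gcongr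
      _ = A * (Real.exp (-(2 * Real.pi * (β / 2) * t.im)) *
          Real.exp (2 * Real.pi * (E0 + ε) * t.im)) := by ring
      _ = _ := by
        rw [← Real.exp_add]
        congr 2
        ring
  · have : 2 * Real.pi * n + 2 * Real.pi * (E0 + ε - β / 2) = -(2 * Real.pi * ε) := by
      rw [hε]; ring
    rw [this]
    have := mul_pos (mul_pos two_pos hpi) hε0
    linarith

/-- **growth of the theta components in index one** -/
theorem growth_one (hKD : JobKD) (hBC : JobBC) (hT1 : JobTheta1) (h : PosSymm G)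
    (H : CM G k F φ C 1) {c : ℂ → (Fin 20 → ℂ) → ℂ} (hc : JacobiZero (((1 : ℕ) : ℤ) • G) c)
    (hcφ : ∀ τ z, 0 < τ.im → φ (C + 1) (τ, z) = φ C (τ, z) * c τ z) (μ : Fin 20 → ℤ) :
    (∃ A : ℝ, ∀ τ : ℂ, 1 / 2 ≤ τ.im →
      ‖vf (((1 : ℕ) : ℤ) • G) c μ τ‖ ≤ A * Real.exp (2 * Real.pi * τ.im)) ∧
    ((¬ ∃ v : Fin 20 → ℤ, μ = G.mulVec v) → ∃ A : ℝ, ∀ τ : ℂ, 1 / 2 ≤ τ.im →
      ‖vf (((1 : ℕ) : ℤ) • G) c μ τ‖ ≤ A * Real.exp (Real.pi * τ.im)) := by
  have h1 := posSymm_smul h one_pos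
  obtain ⟨v, hv⟩ := exists_min h μ
  set ν := μ + G.mulVec v with hν
  have hG1 : (((1 : ℕ) : ℤ) • G).mulVec v = G.mulVec v := by simp
  have hinv : ∀ τ : ℂ, 0 < τ.im → vf (((1 : ℕ) : ℤ) • G) c μ τ = vf (((1 : ℕ) : ℤ) • G) c ν τ := by
    intro τ hτ
    have := (hT1 _ c h1 hc).2.2.2.1 μ v τ hτ
    rw [hG1] at this
    exact this.symm
  have hmin : ∀ w : Fin 20 → ℤ, bd G ν ν ≤ bd G (ν + G.mulVec w) (ν + G.mulVec w) := by
    intro w
    have := hv (v + w)
    rw [Matrix.mulVec_add, ← add_assoc] at this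
    exact this
  obtain ⟨hHP, hco, hper, hn⟩ := vf_props hT1 h1 hc ν
  have hbd : bd (((1 : ℕ) : ℤ) • G) ν ν = bd G ν ν := by
    rw [bd_smul h one_pos]; simp
  rw [hbd] at hn
  set N0 := bd G ν ν with hN0
  have hN0' : 0 ≤ N0 := by rw [hN0, ← bf_lam_lam h]; exact h.nonneg _
  have hgr := fun (ε : ℝ) (hε : 0 < ε) => growth_eps hKD hBC hT1 h H hc hcφ ν hmin hε
  rw [← hN0] at hgr
  -- growth with exponent `E` if the coefficients vanish below `N0 / 2 - E`
  have key : ∀ E : ℝ, (∀ n : ℤ, (n : ℝ) < N0 / 2 - E → fco 0 (fc c ν) n = 0) →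
      ∃ A : ℝ, 0 ≤ A ∧ ∀ τ : ℂ, 1 / 2 ≤ τ.im →
        ‖vf (((1 : ℕ) : ℤ) • G) c ν τ‖ ≤ A * Real.exp (2 * Real.pi * E * τ.im) := by
    intro E hE
    obtain ⟨A, hA0, hA⟩ := per_growth hHP hE
    refine ⟨A, hA0, fun τ hτ => ?_⟩
    rw [hn]
    calc Real.exp (2 * Real.pi * (N0 / 2) * τ.im) * ‖fc c ν τ‖ ≤
          Real.exp (2 * Real.pi * (N0 / 2) * τ.im) *
            (A * Real.exp (-(2 * Real.pi * (N0 / 2 - E) * τ.im))) := by
          gcongr
          exact hA τ hτ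
      _ = A * (Real.exp (2 * Real.pi * (N0 / 2) * τ.im) *
            Real.exp (-(2 * Real.pi * (N0 / 2 - E) * τ.im))) := by ring
      _ = _ := by
        rw [← Real.exp_add]
        congr 2
        ring
  have hz0 : ∀ n : ℤ, (n : ℝ) < N0 / 2 - max (1 / 2) (1 - N0 / 2) → fco 0 (fc c ν) n = 0 :=
    fun n hn0 => fco_zero_of_growth hHP hn hgr hn0
  constructor
  · obtain ⟨A, hA0, hA⟩ := key 1 (fun n hn0 => hz0 n (by
      have : max (1 / 2) (1 - N0 / 2) ≤ 1 := max_le (by norm_num) (by linarith)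
      linarith))
    refine ⟨A, fun τ hτ => ?_⟩
    rw [hinv τ (by linarith)]
    refine (hA τ hτ).trans (le_of_eq ?_)
    congr 2
    ring
  · intro hμ
    have hν0 : ν ≠ 0 := by
      intro h0
      apply hμ
      refine ⟨-v, ?_⟩
      rw [Matrix.mulVec_neg, eq_neg_iff_add_eq_zero]
      exact h0
    have hN0pos : 0 < N0 := by
      rcases eq_or_lt_of_le hN0' with h2 | h2
      · exfalso
        apply hν0
        have h3 : bf G (lam G ν) (lam G ν) = 0 := by rw [bf_lam_lam h, ← hN0, ← h2]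
        have h4 := h.eq_zero h3
        funext i
        have h5 := mulVec_lam h ν i
        rw [h4, bf_zero_right] at h5
        exact_mod_cast h5
      · exact h2
    obtain ⟨A, hA0, hA⟩ := key (1 / 2) (fun n hn0 => by
      rcases le_or_gt 1 N0 with h2 | h2
      · apply hz0
        have : max (1 / 2) (1 - N0 / 2) = 1 / 2 := max_eq_left (by linarith)
        rw [this]
        exact hn0
      · apply hz0
        have h3 : max (1 / 2) (1 - N0 / 2) = 1 - N0 / 2 := max_eq_right (by linarith)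
        rw [h3]
        have h4 : (n : ℝ) < 0 := by linarith
        have h5 : n ≤ -1 := by
          have : n < 0 := by exact_mod_cast h4
          omega
        have h6 : (n : ℝ) ≤ -1 := by exact_mod_cast h5
        linarith)
    refine ⟨A, fun τ hτ => ?_⟩
    rw [hinv τ (by linarith)]
    refine (hA τ hτ).trans (le_of_eq ?_)
    congr 2
    ring

end

end Pool.Agent.Run7.h352.RL
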