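import Pool.Agent.Y813.RL.Exp
import Mathlib.NumberTheory.ModularForms.DedekindEta

set_option autoImplicit false

/-!
# Project RL2 (problem MP_f1d0b6_nt, leader helper352): statements of the remaining parts

The statements `JobTheta1`, `JobTheta2`, `JobFinFour`, `JobVV`, `JobODE`, `JobGenus` and all definitions
(`bf`, `dt`, `bd`, `ee`, `fc`, `vf`, `IsReps`, `VV10`, `PosSymm`, `JacobiZero`, `SameGenus`, `gramEED`) are in
the starting file `Pool.Agent.Y813.RL.Stm`; elementary facts on `bf` are in `Pool.Agent.Y813.RL.Bf`, the tube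
domain is in `Pool.Agent.Y813.RL.Tube0` to `Tube5`.

Every `Job...` below is a `Prop`; a piece is a theorem with this statement (sometimes from other jobs as
hypotheses) in a file of its own `Pool/Agent/Run7/h352/RL/<Piece>.lean`.
-/

namespace Pool.Agent.Run7.h352.RL

open MeasureTheory Complex Set Topology Pool.Agent.Y813.RL

noncomputable section

/-! ### The differential equation -/

/-- `D = (2 pi i)⁻¹ d/dτ` -/
def DD (u : ℂ → ℂ) (τ : ℂ) : ℂ := (2 * Real.pi * Complex.I)⁻¹ * deriv u τ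

/-- the Eisenstein series `E₂ = DΔ/Δ = 24 Dη/η` as a function on the complex numbers (it equals
`EisensteinSeries.E2` on the upper half plane by `ModularForm.logDeriv_eta_eq_E2`) -/
def e2 (τ : ℂ) : ℂ := 12 / (Real.pi * Complex.I) * logDeriv ModularForm.eta τ

/-- the operator `∂_{-8} ∂_{-10} - E₄/18` in terms of `E₂`, using `E₄ = E₂² - 12 D E₂` -/
def LL (u : ℂ → ℂ) (τ : ℂ) : ℂ :=
  DD (DD u) τ + 3 / 2 * e2 τ * DD u τ + (3 / 2 * DD e2 τ + 1 / 2 * e2 τ ^ 2) * u τ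

/-- FF: representatives and unitarity of the finite Fourier transform, for every set of
representatives.  Proof: `M = Z^20 / A Z^20` has `det A` elements (index of a sublattice); the pairing
`(μ, ν) ↦ e(-bd μ ν)` is biadditive, depends only on the classes (`bd μ (A v) = dt μ v` is an integer)
and is nondegenerate (if `bd μ ν` is an integer for all `ν` then `A⁻¹ μ` is integral); hence
`∑_μ e(-bd μ (ρ - ρ'))` is `det A` or `0`, and expand the square. -/
def JobFF : Prop := ∀ (A : Matrix (Fin 20) (Fin 20) ℤ), PosSymm A →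
  0 < A.det ∧ (∃ R : Finset (Fin 20 → ℤ), IsReps A R) ∧
  ∀ R : Finset (Fin 20 → ℤ), IsReps A R → (R.card : ℤ) = A.det ∧
    ∀ a : (Fin 20 → ℤ) → ℂ,
      ∑ μ ∈ R, ‖∑ ρ ∈ R, ee (-(bd A μ ρ : ℂ)) * a ρ‖ ^ 2 = (A.det : ℝ) * ∑ ρ ∈ R, ‖a ρ‖ ^ 2

/-- ODE1: holomorphy and the transformation laws of `LL`.  Proof: holomorphy is clear as `eta` is
holomorphic and nonvanishing on the half plane.  `S`: `e2 (-1/τ) = τ² e2 τ + 6 τ / (π i)`
(`EisensteinSeries.E2_slash_action` for `ModularGroup.S`, or differentiate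
`ModularForm.eta_comp_eq_csqrt_I_inv`); for `w(τ) = u(-1/τ)` one has `(DD u)(-1/τ) = τ² DD w τ`; hence
all terms at `-1/τ` are expressed by derivatives at `τ`, and the identity is polynomial. -/
def JobODE1 : Prop :=
  (∀ u : ℂ → ℂ, DifferentiableOn ℂ u {τ | 0 < τ.im} → DifferentiableOn ℂ (LL u) {τ | 0 < τ.im}) ∧
  (∀ u v : ℂ → ℂ, DifferentiableOn ℂ u {τ | 0 < τ.im} → DifferentiableOn ℂ v {τ | 0 < τ.im} →
    (∀ τ : ℂ, 0 < τ.im → v τ = u (τ + 1)) → ∀ τ : ℂ, 0 < τ.im → LL v τ = LL u (τ + 1)) ∧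
  (∀ u v : ℂ → ℂ, DifferentiableOn ℂ u {τ | 0 < τ.im} → DifferentiableOn ℂ v {τ | 0 < τ.im} →
    (∀ τ : ℂ, 0 < τ.im → v τ = τ ^ 10 * u (-1 / τ)) →
      ∀ τ : ℂ, 0 < τ.im → LL v τ = τ ^ 6 * LL u (-1 / τ)) ∧
  (∀ (ι : Type) (s : Finset ι) (u : ι → ℂ → ℂ) (a : ι → ℂ),
    (∀ i ∈ s, DifferentiableOn ℂ (u i) {τ | 0 < τ.im}) →
      ∀ τ : ℂ, 0 < τ.im → LL (fun t => ∑ i ∈ s, a i * u i t) τ = ∑ i ∈ s, a i * LL (u i) τ)

/-- ODE2: `LL` kills the leading terms `q^(-1)` and `q^(-1/2)`.  Proof: `g τ = u τ * ee (-(x τ))` is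
holomorphic and periodic, `g = ∑ a_n q^n` (see `Pool.Agent.Y683.RL.Fou`, `Pool.Agent.Y813.RL.Per`:
`HP`, `fco`, `part_bound`, `per_growth`, `fco_zero`), so `u = ∑ a_n q^(n + x)` with `n + x ≥ -1` resp.
`≥ -1/2`.  Put `P(e) = e² + 3/2 e + 1/2 = (e + 1)(e + 1/2)`.  If `n₀ + x` is the smallest exponent then
`u = a q^(n₀ + x) + r` with `r = O(q^(n₀ + x + 1))` and by Cauchy estimates on discs of radius `1/4` the
same for the derivatives of `r`; `e2 = 1 + O(q)` and `DD e2 = O(q)`.  So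
`LL u = P(n₀ + x) a q^(n₀ + x) + O(q^(n₀ + x + 1))`; either `n₀ + x > -1/2`, or
`P(n₀ + x) = 0` (as `n₀ + x = -1` or `-1/2`) and the order is `≥ n₀ + x + 1 ≥ 0`, or `x` is an integer
and `n₀ ≥ 0`. -/
def JobODE2 : Prop := ∀ (x : ℝ) (u : ℂ → ℂ) (C : ℝ), DifferentiableOn ℂ u {τ | 0 < τ.im} →
  (∀ τ : ℂ, 0 < τ.im → u (τ + 1) = ee x * u τ) →
  (((∃ n : ℤ, x = n) ∧ ∀ τ : ℂ, 1 / 2 ≤ τ.im → ‖u τ‖ ≤ C * Real.exp (2 * Real.pi * τ.im)) ∨
    ∀ τ : ℂ, 1 / 2 ≤ τ.im → ‖u τ‖ ≤ C * Real.exp (Real.pi * τ.im)) →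
  ∃ κ C' : ℝ, -(1 / 2 : ℝ) < κ ∧
    ∀ τ : ℂ, 1 / 2 ≤ τ.im → ‖LL u τ‖ ≤ C' * Real.exp (-(2 * Real.pi * κ * τ.im))

/-- ODE3: the conclusion from the differential equation (to be proved from `JobVV` and `JobFF`).
Proof.  `D W = - (3/2) e2 W` for the Wronskian `W = u DD v - v DD u` of two solutions of `LL = 0`, so
`W² η^72` is constant (`e2 = 24 Dη/η`).
(a) `f μ` (`μ` not in `G Z^20`) are `O(q^(-1/2))`, their Wronskians are `O(q^(-1))`, and
`η^(-36) ~ q^(-3/2)`: so their Wronskians vanish and they are proportional: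
`f μ = c_μ F` with a common function `F` (if they are not all zero).
(b) `f_0 := f 0` is periodic.  If `F = 0` or `f_0 = c F` or `f_0 = 0` then all `f μ` are
`O(q^(-1/2))` and `JobVV` (`w = 10`, `κ = -1/2`, unitarity from `JobFF`) gives `f = 0`.  Only the case
`F = 0`, `f_0 ≠ 0` needs a word: then the `S`-law at `μ ∉ G Z^20` says `f_0 (-1/τ) = 0`; if there is
no such `μ` then `det = 1`, and `f_0(-1/τ) = -τ^(-10) f_0(τ)` with `f_0(τ+1) = f_0(τ)` give
`f_0 = -f_0` by the relation `(ST)³ = -1`.  This also proves `det ≠ 1`.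
(c) Otherwise `f_0`, `F` are linearly independent, so also `A(τ) = f_0(-1/τ)`, `B(τ) = F(-1/τ)`.  The
`S`-law at `μ ∉ G Z^20` is `c_μ F = -τ^10/√det (A + s_μ B)` with a number `s_μ`; comparing `μ` and `ν`:
`c_ν (A + s_μ B) = c_μ (A + s_ν B)`, so `c_μ = c_ν`; the common value is not zero as `F ≠ 0`.
(d) So every `f μ`, `μ ∉ G Z^20`, is not zero; its expansion `∑ a_n q^(n - bd μ μ / 2)` starts with an
exponent `e ≥ -1/2`, and `LL (f μ) = 0` gives `(e + 1) (e + 1/2) = 0`, hence `e = -1/2` and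
`bd μ μ = 2 n + 1`. -/
def JobODE3 : Prop := ∀ (G : Matrix (Fin 20) (Fin 20) ℤ) (R : Finset (Fin 20 → ℤ))
  (f : (Fin 20 → ℤ) → ℂ → ℂ), PosSymm G → (∀ i, Even (G i i)) → IsReps G R → VV10 G R f →
  (∀ μ, ∃ C : ℝ, ∀ τ : ℂ, 1 / 2 ≤ τ.im → ‖f μ τ‖ ≤ C * Real.exp (2 * Real.pi * τ.im)) →
  (∀ μ, (¬ ∃ v : Fin 20 → ℤ, μ = G.mulVec v) →
    ∃ C : ℝ, ∀ τ : ℂ, 1 / 2 ≤ τ.im → ‖f μ τ‖ ≤ C * Real.exp (Real.pi * τ.im)) →
  (∃ μ, ∃ τ : ℂ, 0 < τ.im ∧ f μ τ ≠ 0) →
  (∀ μ, ∀ τ : ℂ, 0 < τ.im → LL (f μ) τ = 0) →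
  (∀ μ, (¬ ∃ v : Fin 20 → ℤ, μ = G.mulVec v) → ∃ k : ℤ, bd G μ μ = 2 * k + 1) ∧ G.det ≠ 1

/-! ### The genus -/

/-- GODD: unimodular lattices over `ℤ_p`, `p` odd, with the same determinant.  Proof: by induction on the
rank every unimodular form over `ℤ_p`, `p` odd, has an orthogonal basis with Gram matrix
`diag (1, ..., 1, d)`: (1) there is `x` with `(x, x)` a unit (`2 (x, y) = (x+y, x+y) - (x,x) - (y,y)`)
and it splits off; (2) a form `a x² + b y²` with units `a`, `b` represents `1` (count squares modulo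
`p`, then Hensel).  Then `d = 4 (det P)²` for both forms. -/
def JobGOdd : Prop := ∀ (p : ℕ) [Fact p.Prime], p ≠ 2 → ∀ (ι κ : Type) [Fintype ι] [DecidableEq ι]
  [Fintype κ] [DecidableEq κ], Fintype.card ι = Fintype.card κ →
  ∀ (B : Matrix ι ι ℤ) (C : Matrix κ κ ℤ), B.IsSymm → C.IsSymm → B.det = 4 → C.det = 4 →
    ∃ e : (ι → ℤ_[p]) ≃ₗ[ℤ_[p]] (κ → ℤ_[p]), ∀ x y, bf C (e x) (e y) = bf B x y

/-- the condition on the discriminant form of a lattice of determinant 4: all nonzero classes have odd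
norm -/
def OddDisc {ι : Type} [Fintype ι] [DecidableEq ι] (B : Matrix ι ι ℤ) : Prop :=
  ∀ μ : ι → ℤ, (∃ v : ι → ℤ, μ = B.mulVec v) ∨
    ∃ k : ℤ, ∑ i, μ i * (B.adjugate.mulVec μ) i = 8 * k + 4

/-- GTWO: lattices over `ℤ_2`.  Proof: work with finite free `ℤ_2`-modules with an even symmetric form
(or with Gram matrices up to congruence).  (1) If `(x, y)` is a unit then the even plane spanned by `x`,
`y` splits off.  As `4 ∥ det`, `L = P₁ ⊕ ... ⊕ P₉ ⊕ 2 P'` with even unimodular planes `P_i` and a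
unimodular plane `P'`, which is of type `V` (Gram matrix `(2a, b; b, 2c)`, `a`, `b`, `c` odd) by
`OddDisc`.  (2) `P₁ ⊕ P₂` contains a primitive vector `e` with `(e, e) = 0` (a nondegenerate quadratic
form in four variables over `F_2` has a nontrivial zero, lift it with Hensel), so `L = U ⊕ L₁`, and `L₁`
satisfies the same hypotheses; go down to rank 4: `L = U^8 ⊕ P ⊕ 2P'`.  (3) A plane of type `V` is
isometric to `(2, 1; 1, 2)`, a plane `(2a, b; b, 2c)` with `b` odd, `a c` even to `U`.  (4) `P` is of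
type `V` since `det L = 4` and `-3` is not a square in `ℤ_2`. -/
def JobGTwo : Prop := ∀ (ι κ : Type) [Fintype ι] [DecidableEq ι] [Fintype κ] [DecidableEq κ],
  Fintype.card ι = 20 → Fintype.card κ = 20 →
  ∀ (B : Matrix ι ι ℤ) (C : Matrix κ κ ℤ), B.IsSymm → C.IsSymm → (∀ i, Even (B i i)) →
    (∀ i, Even (C i i)) → B.det = 4 → C.det = 4 → OddDisc B → OddDisc C →
    ∃ e : (ι → ℤ_[2]) ≃ₗ[ℤ_[2]] (κ → ℤ_[2]), ∀ x y, bf C (e x) (e y) = bf B x y

/-- GEED: facts on the lattice `2E₈ + D₄` (finite computations; give the integral inverse of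
`CartanMatrix.E₈` and `2 D₄⁻¹` explicitly; positivity from an explicit `L D Lᵀ` decomposition, i.e. a
sum of squares). -/
def JobGEED : Prop := gramEED.IsSymm ∧ (∀ i, Even (gramEED i i)) ∧ gramEED.det = 4 ∧
  OddDisc gramEED ∧
  ∀ x : Fin 8 ⊕ (Fin 8 ⊕ Fin 4) → ℝ, x ≠ 0 → 0 < bf gramEED x x

/-- GREAL: positive definite forms of the same rank are isometric over the reals. -/
def JobGReal : Prop := ∀ (ι κ : Type) [Fintype ι] [DecidableEq ι] [Fintype κ] [DecidableEq κ],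
  Fintype.card ι = Fintype.card κ → ∀ (B : Matrix ι ι ℤ) (C : Matrix κ κ ℤ), B.IsSymm → C.IsSymm →
    (∀ x : ι → ℝ, x ≠ 0 → 0 < bf B x x) → (∀ x : κ → ℝ, x ≠ 0 → 0 < bf C x x) →
    ∃ e : (ι → ℝ) ≃ₗ[ℝ] (κ → ℝ), ∀ x y, bf C (e x) (e y) = bf B x y

/-! ### The tube domain -/

/-- TUBE: a reflective form gives a form on the tube domain.  Proof: take `F W = F₀ (ZW G W) ^ N` with `N`
even and a multiple of the order of the character; all fields of `TubeForm` except `zeros` are the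
transformation law of `F₀` under `tvG_mem` (Eichler transvections for translations and `ei`), `PS_mem`
(`S`), `PW_mem` (`swap`) in `Pool.Agent.Y813.RL.Tube1` to `Tube4`, and `zeros` is
`wall_of_reflective` in `Tube5`; `nonconst` from `cone_param`, homogeneity.  The analogous statement for
another problem is proved in the starting file `Pool.Agent.Y448.LE.Tube`. -/
def JobTube : Prop := ∀ G : Matrix (Fin 20) (Fin 20) ℤ, PosSymm G → (∀ i, Even (G i i)) →
  Pool.Agent.Y813.Refl.IsReflectiveLattice (Pool.Agent.Y813.Refl.gramM G)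
    (Pool.Agent.Y813.Refl.coneM G) → ∃ (k : ℤ) (F : TP → ℂ), TubeForm G k F

end

end Pool.Agent.Run7.h352.RL
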