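import Pool.Agent.Run7.h352.RL.THETA1

set_option autoImplicit false

/-! Part THETA2 of project RL2 (by helper37): the inversion formula of the theta components. -/

namespace Pool.Agent.Run7.h352.RL.THETA2

open MeasureTheory Complex Set Topology Pool.Agent.Y813.RL Pool.Agent.R396.F
  Pool.Agent.Run7.h352.RL.THETA1

noncomputable section

/-! ### unfolding of integrals over the cube -/

theorem measurable_cu (a : Fin 20 → ℝ) : MeasurableSet (cu a) := by
  have : cu a = Set.univ.pi (fun i => Ioc (a i) (a i + 1)) := by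
    ext x; simp [cu]
  rw [this]
  exact MeasurableSet.univ_pi fun i => measurableSet_Ioc

theorem integral_cu_shift {E : Type*} [NormedAddCommGroup E] [NormedSpace ℝ E]
    (G : (Fin 20 → ℝ) → E) (v : Fin 20 → ℤ) :
    ∫ y in cu 0, G (fun i => y i - (v i : ℝ)) = ∫ y in cu (fun i => -(v i : ℝ)), G y := by
  have h4 : MeasurePreserving (fun y : Fin 20 → ℝ => (fun i => -(v i : ℝ)) + y) volume volume :=
    measurePreserving_add_left volume _
  have h5 : MeasurableEmbedding (fun y : Fin 20 → ℝ => (fun i => -(v i : ℝ)) + y) :=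
    measurableEmbedding_addLeft _
  have h6 := h4.setIntegral_preimage_emb h5 G (cu (fun i => -(v i : ℝ)))
  have h7 : (fun y : Fin 20 → ℝ => (fun i => -(v i : ℝ)) + y) ⁻¹' (cu (fun i => -(v i : ℝ))) =
      cu 0 := by
    ext y
    simp only [cu, Set.mem_preimage, Set.mem_ofPred_eq, Pi.add_apply, Pi.zero_apply, Set.mem_Ioc,
      zero_add]
    exact ⟨fun hy i => ⟨by linarith [(hy i).1], by linarith [(hy i).2]⟩,
      fun hy i => ⟨by linarith [(hy i).1], by linarith [(hy i).2]⟩⟩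
  rw [h7] at h6
  rw [← h6]
  refine integral_congr_ae (Filter.Eventually.of_forall (fun y => ?_))
  simp only
  congr 1
  funext i
  simp only [Pi.add_apply]
  ring

theorem hasSum_unfold {E : Type*} [NormedAddCommGroup E] [NormedSpace ℝ E] [CompleteSpace E]
    {G : (Fin 20 → ℝ) → E} (hG : Integrable G) :
    HasSum (fun v : Fin 20 → ℤ => ∫ y in cu 0, G (fun i => y i - (v i : ℝ))) (∫ y, G y) := by
  have hU : (⋃ v : Fin 20 → ℤ, cu (fun i => -(v i : ℝ))) = Set.univ := by
    ext x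
    simp only [mem_iUnion, mem_univ, iff_true]
    refine ⟨fun i => 1 - ⌈x i⌉, fun i => ?_⟩
    rw [mem_Ioc]
    push_cast
    constructor
    · linarith [Int.ceil_lt_add_one (x i)]
    · linarith [Int.le_ceil (x i)]
  have h1 := hasSum_integral_iUnion (μ := (volume : Measure (Fin 20 → ℝ))) (f := G)
    (s := fun v : Fin 20 → ℤ => cu (fun i => -(v i : ℝ))) (fun v => measurable_cu _)
    (by
      intro v v' hvv
      rw [Function.onFun, Set.disjoint_left]
      intro x hx hx'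
      apply hvv
      funext i
      have a1 := (hx i).1
      have a2 := (hx i).2
      have b1 := (hx' i).1
      have b2 := (hx' i).2
      have c1 : (v i : ℝ) < (v' i : ℝ) + 1 := by linarith
      have c2 : (v' i : ℝ) < (v i : ℝ) + 1 := by linarith
      have d1 : v i < v' i + 1 := by exact_mod_cast c1
      have d2 : v' i < v i + 1 := by exact_mod_cast c2
      omega) (by rw [hU]; exact hG.integrableOn)
  rw [hU, Measure.restrict_univ] at h1
  simpa only [integral_cu_shift] using h1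

/-! ### the Gaussian integral -/

section

open scoped MatrixOrder

theorem exists_root_aux (B : Matrix (Fin 20) (Fin 20) ℝ) (hB : B.PosSemidef) :
    ∃ P : Matrix (Fin 20) (Fin 20) ℝ, P.transpose * P = B := by
  refine ⟨CFC.sqrt B, ?_⟩
  have h1 : (CFC.sqrt B).transpose = CFC.sqrt B := by
    have h := (Matrix.nonneg_iff_posSemidef.1 (CFC.sqrt_nonneg B)).isHermitian
    have h2 := h.eq
    rwa [Matrix.conjTranspose_eq_transpose_of_trivial] at h2
  rw [h1]
  exact CFC.sqrt_mul_sqrt_self B hB.nonneg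

end

variable {A : Matrix (Fin 20) (Fin 20) ℤ}

theorem bf_real (x : Fin 20 → ℝ) :
    bf A x x = ∑ i, x i * ((A.map (Int.cast : ℤ → ℝ)).mulVec x) i := by
  unfold bf
  refine Finset.sum_congr rfl fun i _ => ?_
  rw [Matrix.mulVec, dotProduct, Finset.mul_sum]
  refine Finset.sum_congr rfl fun j _ => ?_
  rw [Matrix.map_apply]
  ring

theorem exists_root (hA : PosSymm A) :
    ∃ P : Matrix (Fin 20) (Fin 20) ℝ, P.transpose * P = A.map (Int.cast : ℤ → ℝ) := by
  apply exists_root_aux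
  apply Matrix.PosSemidef.of_dotProduct_mulVec_nonneg
  · show (A.map (Int.cast : ℤ → ℝ)).conjTranspose = _
    rw [Matrix.conjTranspose_eq_transpose_of_trivial, ← Matrix.transpose_map, hA.symm]
  · intro x
    have h1 := hA.nonneg x
    rw [bf_real] at h1
    simpa [dotProduct] using h1

theorem root_form {P : Matrix (Fin 20) (Fin 20) ℝ}
    (hP : P.transpose * P = A.map (Int.cast : ℤ → ℝ)) (x : Fin 20 → ℝ) :
    bf A x x = ∑ i, (P.mulVec x i) ^ 2 := by
  rw [bf_real, ← hP, ← Matrix.mulVec_mulVec]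
  have h1 : ∑ i, x i * (P.transpose.mulVec (P.mulVec x)) i = x ⬝ᵥ P.transpose.mulVec (P.mulVec x) :=
    rfl
  rw [h1, Matrix.dotProduct_mulVec, Matrix.vecMul_transpose, dotProduct]
  exact Finset.sum_congr rfl fun i _ => by ring

theorem root_det {P : Matrix (Fin 20) (Fin 20) ℝ}
    (hP : P.transpose * P = A.map (Int.cast : ℤ → ℝ)) : P.det ^ 2 = (A.det : ℝ) := by
  have h1 : (A.map (Int.cast : ℤ → ℝ)).det = (A.det : ℝ) := by
    have := (Int.castRingHom ℝ).map_det A
    rw [eq_intCast] at this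
    rw [this]
    rfl
  rw [← h1, ← hP, Matrix.det_mul, Matrix.det_transpose]
  ring

/-- the Gaussian -/
def gau (A : Matrix (Fin 20) (Fin 20) ℤ) (τ : ℂ) (x : Fin 20 → ℝ) : ℂ :=
  ee (-((bf A x x : ℝ) : ℂ) / (2 * τ))

theorem gau_eq (P : Matrix (Fin 20) (Fin 20) ℝ)
    (hP : P.transpose * P = A.map (Int.cast : ℤ → ℝ)) (τ : ℂ) (x : Fin 20 → ℝ) :
    gau A τ x = (fun u : Fin 20 → ℝ => cexp (-(Real.pi * Complex.I / τ) * ∑ i, (u i : ℂ) ^ 2 +
      ∑ i, (0 : Fin 20 → ℂ) i * u i)) (P.mulVec x) := by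
  simp only [gau, ee, Pi.zero_apply, zero_mul, Finset.sum_const_zero, add_zero]
  rw [root_form hP]
  congr 1
  push_cast
  ring

theorem re_pos {τ : ℂ} (hτ : 0 < τ.im) : 0 < (Real.pi * Complex.I / τ).re := by
  have h0 : 0 < Complex.normSq τ := by
    rw [Complex.normSq_pos]
    intro h
    rw [h] at hτ
    simp at hτ
  rw [mul_div_assoc, Complex.re_ofReal_mul, Complex.div_re]
  simp only [Complex.I_re, Complex.I_im, zero_mul, zero_div, one_mul, zero_add]
  have := Real.pi_pos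
  positivity

theorem gau_integrable (hA : PosSymm A) {τ : ℂ} (hτ : 0 < τ.im) : Integrable (gau A τ) := by
  obtain ⟨P, hP⟩ := exists_root hA
  have hdet : P.det ≠ 0 := by
    intro h0
    have h1 := root_det hP
    rw [h0] at h1
    have h2 : (A.map (Int.cast : ℤ → ℝ)).det = 0 := by
      rw [← hP, Matrix.det_mul, h0, mul_zero]
    exact det_ne hA h2
  have h1 := GaussianFourier.integrable_cexp_neg_mul_sum_add (ι := Fin 20) (re_pos hτ) 0
  have h2 := Real.map_matrix_volume_pi_eq_smul_volume_pi hdet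
  have h3 : Integrable (fun u : Fin 20 → ℝ => cexp (-(Real.pi * Complex.I / τ) *
      ∑ i, (u i : ℂ) ^ 2 + ∑ i, (0 : Fin 20 → ℂ) i * u i))
      (Measure.map (Matrix.toLin' P) volume) := by
    rw [h2]
    exact h1.smul_measure ENNReal.ofReal_ne_top
  have hm : Measurable (Matrix.toLin' P) :=
    (LinearMap.continuous_of_finiteDimensional (Matrix.toLin' P)).measurable
  have h4 := h3.comp_measurable hm
  refine h4.congr (Filter.Eventually.of_forall fun x => ?_)
  simp only [Function.comp]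
  rw [gau_eq P hP]
  rfl

theorem gau_integral (hA : PosSymm A) {τ : ℂ} (hτ : 0 < τ.im) :
    ∫ x, gau A τ x = -(τ ^ 10) / (Real.sqrt (A.det : ℝ) : ℂ) := by
  obtain ⟨P, hP⟩ := exists_root hA
  have hdet : P.det ≠ 0 := by
    intro h0
    have h2 : (A.map (Int.cast : ℤ → ℝ)).det = 0 := by
      rw [← hP, Matrix.det_mul, h0, mul_zero]
    exact det_ne hA h2
  have h1 := GaussianFourier.integral_cexp_neg_mul_sum_add (ι := Fin 20) (re_pos hτ) 0
  have h2 := Real.map_matrix_volume_pi_eq_smul_volume_pi hdet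
  have hm : Measurable (Matrix.toLin' P) :=
    (LinearMap.continuous_of_finiteDimensional (Matrix.toLin' P)).measurable
  have h3 : ∫ x, gau A τ x = ∫ u, cexp (-(Real.pi * Complex.I / τ) *
      ∑ i, (u i : ℂ) ^ 2 + ∑ i, (0 : Fin 20 → ℂ) i * u i)
      ∂(Measure.map (Matrix.toLin' P) volume) := by
    rw [integral_map hm.aemeasurable]
    · refine integral_congr_ae (Filter.Eventually.of_forall fun x => ?_)
      simp only
      rw [gau_eq P hP]
      rfl
    · apply Continuous.aestronglyMeasurable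
      fun_prop
  rw [h3, h2, integral_smul_measure, h1]
  have hτ0 : τ ≠ 0 := by
    intro h
    rw [h] at hτ
    simp at hτ
  have hpi : (Real.pi : ℂ) ≠ 0 := by exact_mod_cast Real.pi_ne_zero
  have h5 : ((Real.pi : ℂ) / (Real.pi * Complex.I / τ)) ^ ((Fintype.card (Fin 20) : ℂ) / 2) =
      -(τ ^ 10) := by
    have h6 : ((Fintype.card (Fin 20) : ℂ) / 2) = ((10 : ℕ) : ℂ) := by
      simp
      norm_num
    rw [h6, Complex.cpow_natCast]
    have h7 : (Real.pi : ℂ) / (Real.pi * Complex.I / τ) = τ * (-Complex.I) := by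
      field_simp
      rw [Complex.I_sq]
      ring
    rw [h7, mul_pow]
    have h8 : (-Complex.I) ^ 10 = -1 := by
      have : (-Complex.I) ^ 10 = ((Complex.I) ^ 2) ^ 5 := by ring
      rw [this, Complex.I_sq]
      norm_num
    rw [h8]
    ring
  rw [h5]
  have h9 : Real.sqrt (A.det : ℝ) = |P.det| := by
    rw [← root_det hP, Real.sqrt_sq_eq_abs]
  rw [h9, ENNReal.toReal_ofReal (abs_nonneg _), abs_inv]
  simp only [Pi.zero_apply, ne_eq, OfNat.ofNat_ne_zero, not_false_eq_true, zero_pow,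
    Finset.sum_const_zero, zero_div, Complex.exp_zero, mul_one]
  rw [Complex.real_smul]
  push_cast
  rw [div_eq_mul_inv, mul_comm]

/-! ### the inversion formula -/

/-- the vector `A⁻¹ ν` -/
def la (A : Matrix (Fin 20) (Fin 20) ℤ) (ν : Fin 20 → ℤ) : Fin 20 → ℝ :=
  (A.map (Int.cast : ℤ → ℝ))⁻¹.mulVec (fun j => (ν j : ℝ))

theorem mulVec_la (hA : PosSymm A) (ν : Fin 20 → ℤ) :
    (A.map (Int.cast : ℤ → ℝ)).mulVec (la A ν) = fun j => (ν j : ℝ) := by
  unfold la
  rw [Matrix.mulVec_mulVec, Matrix.mul_nonsing_inv _ (isUnit_iff_ne_zero.2 (det_ne hA)),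
    Matrix.one_mulVec]

theorem bf_la (hA : PosSymm A) (ν : Fin 20 → ℤ) (z : Fin 20 → ℂ) :
    bf A z (fun i => (la A ν i : ℂ)) = dt ν z := by
  unfold bf dt
  refine Finset.sum_congr rfl fun i _ => ?_
  have h1 := congrFun (mulVec_la hA ν) i
  simp only [Matrix.mulVec, dotProduct, Matrix.map_apply] at h1
  have h2 : (ν i : ℂ) = ∑ j, (A i j : ℂ) * (la A ν j : ℂ) := by
    have : ((ν i : ℝ) : ℂ) = ((∑ j, (A i j : ℝ) * la A ν j : ℝ) : ℂ) := by rw [h1]
    push_cast at this
    exact this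
  rw [h2, Finset.sum_mul]
  refine Finset.sum_congr rfl fun j _ => ?_
  ring

theorem dt_la (μ ν : Fin 20 → ℤ) : dt μ (fun i => (la A ν i : ℂ)) = ((bd A μ ν : ℝ) : ℂ) := by
  unfold dt bd la
  push_cast
  rfl

theorem la_shift (hA : PosSymm A) (ρ v : Fin 20 → ℤ) :
    la A (ρ + A.mulVec v) = fun i => la A ρ i + (v i : ℝ) := by
  have h1 : (fun j => ((ρ + A.mulVec v) j : ℝ)) =
      (fun j => (ρ j : ℝ)) + (fun j => ((A.mulVec v) j : ℝ)) := by
    funext j
    simp only [Pi.add_apply]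
    push_cast
    rfl
  unfold la
  rw [h1, Matrix.mulVec_add, inv_mulVec hA]
  rfl

variable {c : ℂ → (Fin 20 → ℂ) → ℂ}

/-- the terms of the series -/
def TT (A : Matrix (Fin 20) (Fin 20) ℤ) (c : ℂ → (Fin 20 → ℂ) → ℂ) (μ : Fin 20 → ℤ) (τ : ℂ)
    (ν : Fin 20 → ℤ) (y : Fin 20 → ℝ) : ℂ :=
  vf A c ν (-1 / τ) * ee (-(bd A μ ν : ℂ)) * gau A τ (fun i => y i - la A ν i)

theorem neg_inv_im {τ : ℂ} (hτ : 0 < τ.im) : 0 < (-1 / τ).im := by
  have h0 : 0 < Complex.normSq τ := by
    rw [Complex.normSq_pos]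
    intro h
    rw [h] at hτ
    simp at hτ
  have h1 : (-1 / τ).im = τ.im / Complex.normSq τ := by
    rw [Complex.div_im]
    simp
    ring
  rw [h1]
  exact div_pos hτ h0

theorem hasSum_point (hA : PosSymm A) (hc : JacobiZero A c) (μ : Fin 20 → ℤ) {τ : ℂ}
    (hτ : 0 < τ.im) (y : Fin 20 → ℝ) :
    HasSum (fun ν => TT A c μ τ ν y)
      (ee (-(τ * (bd A μ μ : ℂ) / 2)) *
        (c τ (fun i => -(τ * (la A μ i : ℂ)) + (y i : ℂ)) *
          ee (-(dt μ (fun i => -(τ * (la A μ i : ℂ)) + (y i : ℂ)))))) := by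
  have hτ0 : τ ≠ 0 := by
    intro h
    rw [h] at hτ
    simp at hτ
  obtain ⟨-, -, -, -, hF⟩ := theta1 A c hA hc
  set z : Fin 20 → ℂ := fun i => -(τ * (la A μ i : ℂ)) + (y i : ℂ) with hz
  have h1 := hF (-1 / τ) (fun i => z i / τ) (neg_inv_im hτ)
  rw [hc.S τ z hτ] at h1
  -- the value of `c τ z`
  have h2 : c τ z = ee (-(bf A z z / (2 * τ))) * (ee (bf A z z / (2 * τ)) * c τ z) := by
    rw [← mul_assoc, ee_neg_mul, one_mul]
  rw [h2]
  have h3 := h1.mul_left (ee (-(τ * (bd A μ μ : ℂ) / 2)) * ee (-(bf A z z / (2 * τ))) *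
    ee (-(dt μ z)))
  have h4 : ee (-(τ * (bd A μ μ : ℂ) / 2)) *
      (ee (-(bf A z z / (2 * τ))) * (ee (bf A z z / (2 * τ)) * c τ z) * ee (-(dt μ z))) =
      ee (-(τ * (bd A μ μ : ℂ) / 2)) * ee (-(bf A z z / (2 * τ))) *
    ee (-(dt μ z)) * (ee (bf A z z / (2 * τ)) * c τ z) := by ring
  rw [h4]
  suffices h5 : (fun ν => TT A c μ τ ν y) = fun ν =>
      ee (-(τ * (bd A μ μ : ℂ) / 2)) * ee (-(bf A z z / (2 * τ))) * ee (-(dt μ z)) *
        (fc c ν (-1 / τ) * ee (dt ν (fun i => z i / τ))) by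
    rw [h5]
    exact h3
  funext ν
  unfold TT vf gau
  -- the quadratic identities
  set Y : Fin 20 → ℂ := fun i => (y i : ℂ) with hY
  set Lm : Fin 20 → ℂ := fun i => (la A μ i : ℂ) with hLm
  set Ln : Fin 20 → ℂ := fun i => (la A ν i : ℂ) with hLn
  have hz' : z = Y - τ • Lm := by
    funext i
    simp only [hz, hY, hLm, Pi.sub_apply, Pi.smul_apply, smul_eq_mul]
    ring
  have q1 : bf A z z = bf A Y Y - 2 * τ * dt μ Y + τ ^ 2 * (bd A μ μ : ℂ) := by
    rw [hz', bf_sub_left, bf_sub_right, bf_sub_right, bf_smul_left, bf_smul_right, bf_smul_left,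
      bf_smul_right, bf_comm hA.symm Lm Y, bf_la hA, bf_la hA, dt_la]
    ring
  have q2 : dt ν (fun i => z i / τ) = dt ν Y / τ - (bd A μ ν : ℂ) := by
    have e1 : dt ν (fun i => z i / τ) = dt ν Y / τ - dt ν Lm := by
      unfold dt
      rw [Finset.sum_div, ← Finset.sum_sub_distrib]
      refine Finset.sum_congr rfl fun i _ => ?_
      rw [hz']
      simp only [Pi.sub_apply, Pi.smul_apply, smul_eq_mul]
      field_simp
    rw [e1, hLm, dt_la, bd_symm hA]
  have q3 : dt μ z = dt μ Y - τ * (bd A μ μ : ℂ) := by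
    have e1 : dt μ z = dt μ Y - τ * dt μ Lm := by
      unfold dt
      rw [Finset.mul_sum, ← Finset.sum_sub_distrib]
      refine Finset.sum_congr rfl fun i _ => ?_
      rw [hz']
      simp only [Pi.sub_apply, Pi.smul_apply, smul_eq_mul]
      ring
    rw [e1, hLm, dt_la]
  have q4 : ((bf A (fun i => y i - la A ν i) (fun i => y i - la A ν i) : ℝ) : ℂ) =
      bf A Y Y - 2 * dt ν Y + (bd A ν ν : ℂ) := by
    rw [← bf_ofReal]
    have e1 : (fun i => ((y i - la A ν i : ℝ) : ℂ)) = Y - Ln := by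
      funext i
      simp [hY, hLn]
    rw [e1, bf_sub_left, bf_sub_right, bf_sub_right, bf_comm hA.symm Ln Y, bf_la hA, bf_la hA,
      dt_la]
    ring
  rw [q1, q2, q3, q4]
  have e5 : ∀ a b d f g h k : ℂ, a + b + d = f + g + h + k →
      ee a * fc c ν (-1 / τ) * ee b * ee d = ee f * ee g * ee h * (fc c ν (-1 / τ) * ee k) := by
    intro a b d f g h k hh
    have : ee a * ee b * ee d = ee f * ee g * ee h * ee k := by
      rw [← THETA1.ee_add, ← THETA1.ee_add, ← THETA1.ee_add, ← THETA1.ee_add, ← THETA1.ee_add, hh]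
    linear_combination (fc c ν (-1 / τ)) * this
  apply e5
  field_simp
  ring

theorem vf_bound (hA : PosSymm A) (hc : JacobiZero A c) {R : Finset (Fin 20 → ℤ)}
    (hR : IsReps A R) {σ : ℂ} (hσ : 0 < σ.im) : ∃ M : ℝ, ∀ ν, ‖vf A c ν σ‖ ≤ M := by
  refine ⟨∑ ρ ∈ R, ‖vf A c ρ σ‖, fun ν => ?_⟩
  obtain ⟨ρ, ⟨hρ, v, hv⟩, -⟩ := hR ν
  rw [hv, vf_shift hA hc ρ v hσ]
  exact Finset.single_le_sum (f := fun ρ => ‖vf A c ρ σ‖) (fun _ _ => norm_nonneg _) hρ

/-- the parametrisation of the dual lattice -/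
def par (A : Matrix (Fin 20) (Fin 20) ℤ) (R : Finset (Fin 20 → ℤ))
    (p : R × (Fin 20 → ℤ)) : Fin 20 → ℤ := (p.1 : Fin 20 → ℤ) + A.mulVec p.2

theorem par_bij (hA : PosSymm A) {R : Finset (Fin 20 → ℤ)} (hR : IsReps A R) :
    Function.Bijective (par A R) := by
  constructor
  · rintro ⟨⟨ρ, hρ⟩, v⟩ ⟨⟨ρ', hρ'⟩, v'⟩ h
    simp only [par] at h
    obtain ⟨ρ₀, -, huniq⟩ := hR (ρ + A.mulVec v)
    have h1 := huniq ρ ⟨hρ, v, rfl⟩
    have h2 := huniq ρ' ⟨hρ', v', h⟩
    have h3 : ρ = ρ' := h1.trans h2.symm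
    subst h3
    have h4 : A.mulVec v = A.mulVec v' := add_left_cancel h
    have h5 := inv_mulVec hA v
    have h6 := inv_mulVec hA v'
    rw [h4, h6] at h5
    have h7 : v = v' := by
      funext j
      have := congrFun h5 j
      exact_mod_cast this.symm
    rw [h7]
  · intro ν
    obtain ⟨ρ, ⟨hρ, v, hv⟩, -⟩ := hR ν
    exact ⟨(⟨ρ, hρ⟩, v), hv.symm⟩

theorem gau_cont (τ : ℂ) : Continuous (gau A τ) := by
  have h1 : Continuous (fun x : Fin 20 → ℝ => bf A x x) := bf_contR A continuous_id continuous_id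
  have h2 : Continuous (fun x : Fin 20 → ℝ => (-((bf A x x : ℝ) : ℂ) / (2 * τ))) := by
    have := Complex.continuous_ofReal.comp h1
    exact (this.neg).div_const _
  exact ee_differentiable.continuous.comp h2

theorem gau_shift_integrable (hA : PosSymm A) {τ : ℂ} (hτ : 0 < τ.im) (a : Fin 20 → ℝ) :
    Integrable (fun y : Fin 20 → ℝ => gau A τ (fun i => y i - a i)) :=
  (gau_integrable hA hτ).comp_sub_right a

theorem theta2 : Pool.Agent.Y813.RL.JobTheta2 := by
  intro A c R hA hc hR μ τ hτ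
  have hσ := neg_inv_im hτ
  obtain ⟨M, hM⟩ := vf_bound hA hc hR hσ
  -- the left hand side as an integral over the half open cube
  have hL : vf A c μ τ = ∫ y in cu 0, ∑' ν, TT A c μ τ ν y := by
    unfold vf
    rw [shift hc μ (fun i => -(τ * (la A μ i : ℂ))) hτ, ← integral_const_mul, ← integral_cu]
    refine integral_congr_ae (Filter.Eventually.of_forall fun y => ?_)
    exact (hasSum_point hA hc μ hτ y).tsum_eq.symm
  -- norms of the terms
  have hint : ∀ ν, Integrable (TT A c μ τ ν) (volume.restrict (cu 0)) := by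
    intro ν
    exact ((gau_shift_integrable hA hτ (la A ν)).const_mul _).integrableOn
  have hnn : ∀ x : ℝ, ‖ee (-(x : ℂ))‖ = 1 := by
    intro x
    rw [THETA1.norm_ee]
    simp
  have hnorm : ∀ ν, ∫ y in cu 0, ‖TT A c μ τ ν y‖ =
      ‖vf A c ν (-1 / τ)‖ * ∫ y in cu 0, ‖gau A τ (fun i => y i - la A ν i)‖ := by
    intro ν
    rw [← integral_const_mul]
    refine integral_congr_ae (Filter.Eventually.of_forall fun y => ?_)
    simp only [TT, norm_mul, hnn, mul_one]
  have hgs : ∀ ρ : Fin 20 → ℤ, HasSum (fun v : Fin 20 → ℤ =>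
      ∫ y in cu 0, ‖gau A τ (fun i => y i - la A (ρ + A.mulVec v) i)‖)
      (∫ y : Fin 20 → ℝ, ‖gau A τ (fun i => y i - la A ρ i)‖) := by
    intro ρ
    have h1 := hasSum_unfold (gau_shift_integrable hA hτ (la A ρ)).norm
    suffices h2 : (fun v : Fin 20 → ℤ =>
        ∫ y in cu 0, ‖gau A τ (fun i => y i - la A (ρ + A.mulVec v) i)‖) = fun v =>
        ∫ y in cu 0, ‖gau A τ (fun i => (fun i => y i - (v i : ℝ)) i - la A ρ i)‖ by
      rw [h2]
      exact h1
    funext v
    rw [la_shift hA]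
    refine integral_congr_ae (Filter.Eventually.of_forall fun y => ?_)
    simp only
    congr 2
    funext i
    ring
  let e : R × (Fin 20 → ℤ) ≃ (Fin 20 → ℤ) := Equiv.ofBijective _ (par_bij hA hR)
  have hsum : Summable fun ν => ∫ y in cu 0, ‖TT A c μ τ ν y‖ := by
    rw [← e.summable_iff]
    have hn0 : ∀ ν, 0 ≤ ∫ y in cu 0, ‖TT A c μ τ ν y‖ := fun ν =>
      integral_nonneg fun y => norm_nonneg _
    refine (summable_prod_of_nonneg (f := (fun ν => ∫ y in cu 0, ‖TT A c μ τ ν y‖) ∘ e)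
      (fun p => hn0 _)).2 ⟨?_, ?_⟩
    · intro ρ
      refine Summable.of_nonneg_of_le (fun v => hn0 _) ?_ ((hgs ρ).summable.mul_left M)
      intro v
      show ∫ y in cu 0, ‖TT A c μ τ ((ρ : Fin 20 → ℤ) + A.mulVec v) y‖ ≤ _
      rw [hnorm]
      exact mul_le_mul_of_nonneg_right (hM _) (integral_nonneg fun y => norm_nonneg _)
    · exact (hasSum_fintype _).summable
  have hS := hasSum_integral_of_summable_integral_norm hint hsum
  rw [← hL, ← e.hasSum_iff] at hS
  -- the inner sums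
  have hin : ∀ ρ : R, HasSum (fun v : Fin 20 → ℤ =>
      ((fun ν => ∫ y in cu 0, TT A c μ τ ν y) ∘ e) (ρ, v))
      (vf A c ρ (-1 / τ) * ee (-(bd A μ ρ : ℂ)) * (-(τ ^ 10) / (Real.sqrt (A.det : ℝ) : ℂ))) := by
    intro ρ
    have h1 := hasSum_unfold (gau_shift_integrable hA hτ (la A ρ))
    have h2 : ∫ y : Fin 20 → ℝ, gau A τ (fun i => y i - la A ρ i) =
        -(τ ^ 10) / (Real.sqrt (A.det : ℝ) : ℂ) := by
      rw [← gau_integral hA hτ]
      exact integral_sub_right_eq_self (fun y => gau A τ y) (la A ρ)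
    rw [h2] at h1
    have h3 := h1.mul_left (vf A c ρ (-1 / τ) * ee (-(bd A μ ρ : ℂ)))
    suffices h5 : (fun v : Fin 20 → ℤ =>
        ((fun ν => ∫ y in cu 0, TT A c μ τ ν y) ∘ e) (ρ, v)) = fun v =>
        vf A c ρ (-1 / τ) * ee (-(bd A μ ρ : ℂ)) *
          ∫ y in cu 0, gau A τ (fun i => (fun i => y i - (v i : ℝ)) i - la A ρ i) by
      rw [h5]
      exact h3
    funext v
    show ∫ y in cu 0, TT A c μ τ ((ρ : Fin 20 → ℤ) + A.mulVec v) y = _
    rw [← integral_const_mul]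
    refine integral_congr_ae (Filter.Eventually.of_forall fun y => ?_)
    simp only [TT]
    rw [vf_shift hA hc _ v hσ, la_shift hA, bd_add_right hA, bd_mulVec_right hA]
    have h4 : ee (-(((bd A μ ρ + ((dt μ v : ℤ) : ℝ) : ℝ)) : ℂ)) = ee (-(bd A μ ρ : ℂ)) := by
      have : (-(((bd A μ ρ + ((dt μ v : ℤ) : ℝ) : ℝ)) : ℂ)) =
          -(bd A μ ρ : ℂ) + ((-(dt μ v) : ℤ) : ℂ) := by
        push_cast
        ring
      rw [this, THETA1.ee_add, THETA1.ee_int, mul_one]
    rw [h4]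
    congr 2
    funext i
    ring
  have hfin := (hS.prod_fiberwise hin).unique (hasSum_fintype _)
  rw [hfin, Finset.mul_sum, ← Finset.sum_coe_sort R]
  refine Finset.sum_congr rfl fun ρ _ => ?_
  ring

end

end Pool.Agent.Run7.h352.RL.THETA2
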