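import Pool.Agent.Run7.h352.RL.Stm
import Mathlib.NumberTheory.ModularForms.Discriminant

set_option autoImplicit false

/-!
# VV: the vanishing lemma for vector valued forms of negative weight
-/

namespace Pool.Agent.Run7.h352.RL.VV

open Complex Set Filter Topology Pool.Agent.Y813.RL

noncomputable section

/-! ### Reduction to the fundamental domain -/

open scoped MatrixGroups Modular in
theorem inv_SL {X : Type} (H : ℂ → X) (hT : ∀ τ : ℂ, 0 < τ.im → H (τ + 1) = H τ)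
    (hS : ∀ τ : ℂ, 0 < τ.im → H (-1 / τ) = H τ) (g : SL(2, ℤ)) (z : UpperHalfPlane) :
    H ((g • z : UpperHalfPlane) : ℂ) = H (z : ℂ) := by
  let K : Subgroup SL(2, ℤ) :=
    { carrier := {g | ∀ z : UpperHalfPlane, H ((g • z : UpperHalfPlane) : ℂ) = H (z : ℂ)}
      mul_mem' := by
        intro a b ha hb z
        rw [mul_smul, ha, hb]
      one_mem' := by
        intro z
        rw [one_smul]
      inv_mem' := by
        intro a ha z
        have := ha (a⁻¹ • z)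
        rw [smul_inv_smul] at this
        exact this.symm }
  have hK : K = ⊤ := by
    rw [eq_top_iff, ← SpecialLinearGroup.SL2Z_generators, Subgroup.closure_le]
    rintro x (rfl | rfl)
    · intro z
      rw [UpperHalfPlane.modular_S_smul]
      have := hS z z.im_pos
      rw [← this]
      congr 1
      simp only [UpperHalfPlane.coe_mk]
      rw [inv_neg, neg_div, one_div]
    · intro z
      rw [UpperHalfPlane.modular_T_smul]
      have := hT z z.im_pos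
      rw [← this]
      congr 1
      simp [UpperHalfPlane.coe_vadd, add_comm]
  have : g ∈ K := by rw [hK]; trivial
  exact this z

open scoped MatrixGroups Modular in
theorem exists_fd {X : Type} (H : ℂ → X) (hT : ∀ τ : ℂ, 0 < τ.im → H (τ + 1) = H τ)
    (hS : ∀ τ : ℂ, 0 < τ.im → H (-1 / τ) = H τ) (τ : ℂ) (hτ : 0 < τ.im) :
    ∃ τ' : ℂ, 1 / 2 ≤ τ'.im ∧ |τ'.re| ≤ 1 / 2 ∧ H τ' = H τ := by
  obtain ⟨g, hg1, hg2⟩ := ModularGroup.exists_smul_mem_fd (⟨τ, hτ⟩ : UpperHalfPlane)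
  refine ⟨((g • (⟨τ, hτ⟩ : UpperHalfPlane) : UpperHalfPlane) : ℂ), ?_, hg2, inv_SL H hT hS g _⟩
  have h1 := (g • (⟨τ, hτ⟩ : UpperHalfPlane)).im_pos
  set z := g • (⟨τ, hτ⟩ : UpperHalfPlane)
  have h2 : (z : ℂ).re ^ 2 ≤ 1 / 4 := by
    have : |(z : ℂ).re| ≤ 1 / 2 := hg2
    have := sq_le_sq' (by linarith [abs_le.1 this]) (abs_le.1 this).2
    linarith
  rw [Complex.normSq_apply] at hg1
  have h3 : 0 < (z : ℂ).im := h1
  nlinarith

/-- a continuous function on the upper half plane, invariant under the modular group, which tends to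
zero at the cusp and is the norm of a holomorphic function, vanishes -/
theorem vanish {F : Type*} [NormedAddCommGroup F] [NormedSpace ℂ F] (Φ : ℂ → F)
    (hΦ : DifferentiableOn ℂ Φ {τ | 0 < τ.im})
    (hT : ∀ τ : ℂ, 0 < τ.im → ‖Φ (τ + 1)‖ = ‖Φ τ‖)
    (hS : ∀ τ : ℂ, 0 < τ.im → ‖Φ (-1 / τ)‖ = ‖Φ τ‖)
    (h0 : ∀ ε : ℝ, 0 < ε → ∃ Y : ℝ, ∀ τ : ℂ, Y ≤ τ.im → ‖Φ τ‖ < ε) :
    ∀ τ : ℂ, 0 < τ.im → Φ τ = 0 := by
  intro τ₁ hτ₁
  by_contra hne
  have hδ : 0 < ‖Φ τ₁‖ := norm_pos_iff.2 hne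
  obtain ⟨Y, hY⟩ := h0 _ hδ
  obtain ⟨τ₂, h1, h2, h3⟩ := exists_fd (fun τ => ‖Φ τ‖) hT hS τ₁ hτ₁
  set K : Set ℂ := Icc (-(1 / 2) : ℝ) (1 / 2) ×ℂ Icc (1 / 2 : ℝ) Y with hK
  have hKc : IsCompact K := isCompact_Icc.reProdIm isCompact_Icc
  have hKU : K ⊆ {τ : ℂ | 0 < τ.im} := by
    intro τ hτ
    have : 1 / 2 ≤ τ.im := hτ.2.1
    simp only [mem_setOf_eq]
    linarith
  have hmemK : ∀ τ : ℂ, 1 / 2 ≤ τ.im → |τ.re| ≤ 1 / 2 → ‖Φ τ₁‖ ≤ ‖Φ τ‖ → τ ∈ K := by
    intro τ g1 g2 g3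
    refine ⟨⟨(abs_le.1 g2).1, (abs_le.1 g2).2⟩, ⟨g1, ?_⟩⟩
    by_contra hlt
    push Not at hlt
    linarith [hY τ hlt.le]
  have hτ₂K : τ₂ ∈ K := hmemK τ₂ h1 h2 h3.ge
  obtain ⟨τ₀, hτ₀, hmax⟩ := hKc.exists_isMaxOn ⟨τ₂, hτ₂K⟩ ((hΦ.continuousOn.mono hKU).norm)
  have hτ₀U : τ₀ ∈ {τ : ℂ | 0 < τ.im} := hKU hτ₀
  have hmax2 : IsMaxOn (norm ∘ Φ) {τ : ℂ | 0 < τ.im} τ₀ := by
    intro τ hτ
    simp only [mem_setOf_eq, Function.comp_apply] at hτ ⊢
    obtain ⟨τ', g1, g2, g3⟩ := exists_fd (fun τ => ‖Φ τ‖) hT hS τ hτ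
    rw [← g3]
    by_cases hle : ‖Φ τ₁‖ ≤ ‖Φ τ'‖
    · exact hmax (hmemK τ' g1 g2 hle)
    · push Not at hle
      have : ‖Φ τ₂‖ ≤ ‖Φ τ₀‖ := hmax hτ₂K
      linarith
  have hconst := Complex.norm_eqOn_of_isPreconnected_of_isMaxOn
    (convex_halfSpace_im_gt 0).isPreconnected (isOpen_lt continuous_const Complex.continuous_im)
    hΦ hτ₀U hmax2
  have hq : ((max Y 1 : ℝ) : ℂ) * Complex.I ∈ {τ : ℂ | 0 < τ.im} := by
    simp
  have e1 := hconst hq
  simp only [Function.comp_apply, Function.const_apply] at e1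
  have e2 := hY (((max Y 1 : ℝ) : ℂ) * Complex.I) (by simp)
  have e3 := hconst (show τ₁ ∈ {τ : ℂ | 0 < τ.im} from hτ₁)
  simp only [Function.comp_apply, Function.const_apply] at e3
  linarith

/-! ### The absolute value of the Dedekind eta function -/

theorem norm_eta_T (τ : ℂ) : ‖ModularForm.eta (τ + 1)‖ = ‖ModularForm.eta τ‖ := by
  have h1 : ∀ n, ModularForm.eta_q n (τ + 1) = ModularForm.eta_q n τ := by
    intro n
    rw [ModularForm.eta_q_eq_pow, ModularForm.eta_q_eq_pow]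
    congr 1
    rw [mul_add, mul_one, Complex.exp_add, Complex.exp_two_pi_mul_I, mul_one]
  unfold ModularForm.eta
  simp only [h1, norm_mul]
  congr 1
  simp only [Function.Periodic.qParam, Complex.norm_exp]
  congr 1
  simp [Complex.mul_re]

theorem norm_sqrt (z : ℂ) : ‖Complex.sqrt z‖ ^ 2 = ‖z‖ := by
  rw [← norm_pow, Complex.sqrt]
  have := Complex.cpow_nat_inv_pow z (n := 2) two_ne_zero
  rw [Nat.cast_ofNat] at this
  rw [this]

theorem norm_eta_S (τ : ℂ) (hτ : 0 < τ.im) :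
    ‖ModularForm.eta (-1 / τ)‖ ^ 2 = ‖τ‖ * ‖ModularForm.eta τ‖ ^ 2 := by
  have h := ModularForm.eta_comp_eq_csqrt_I_inv (x := τ) hτ
  simp only [Function.comp_apply, Pi.smul_apply, Pi.mul_apply, smul_eq_mul] at h
  rw [h, norm_mul, norm_mul, mul_pow, mul_pow, norm_sqrt, norm_inv, inv_pow, norm_sqrt]
  simp

theorem norm_eta_le : ∃ C : ℝ, 0 < C ∧ ∀ τ : ℂ, 1 / 2 ≤ τ.im →
    ‖ModularForm.eta τ‖ ≤ C * Real.exp (-(2 * Real.pi * τ.im / 24)) := by
  have hcont : ContinuousOn (fun q : ℂ => ∏' n : ℕ, (1 - q ^ (n + 1)))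
      (Metric.closedBall 0 (Real.exp (-Real.pi))) := by
    refine ModularForm.differentiableOn_tprod_one_sub_pow.continuousOn.mono ?_
    intro q hq
    rw [Metric.mem_closedBall, dist_zero_right] at hq
    rw [Metric.mem_ball, dist_zero_right]
    refine lt_of_le_of_lt hq ?_
    rw [Real.exp_lt_one_iff]
    linarith [Real.pi_pos]
  obtain ⟨C, hC⟩ := (isCompact_closedBall (0 : ℂ) (Real.exp (-Real.pi))).exists_bound_of_continuousOn
    hcont
  refine ⟨max C 1, by positivity, fun τ hτ => ?_⟩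
  unfold ModularForm.eta
  rw [norm_mul, mul_comm]
  have h1 : ‖Function.Periodic.qParam 24 τ‖ = Real.exp (-(2 * Real.pi * τ.im / 24)) := by
    rw [Function.Periodic.norm_qParam]
    congr 1
    ring
  rw [h1]
  refine mul_le_mul_of_nonneg_right (le_trans ?_ (le_max_left _ _)) (Real.exp_pos _).le
  refine hC (Function.Periodic.qParam 1 τ) ?_
  rw [Metric.mem_closedBall, dist_zero_right, Function.Periodic.norm_qParam]
  apply Real.exp_le_exp.2
  have := Real.pi_pos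
  nlinarith

/-! ### The lemma -/

theorem vv : JobVV := by
  intro ι _ w κ Ψ hκ hΨ hT hS hgr
  obtain ⟨C, hC⟩ := hgr
  obtain ⟨D, hD0, hD⟩ := norm_eta_le
  set Φ : ℂ → EuclideanSpace ℂ ι := fun τ =>
    (ModularForm.eta τ) ^ (2 * w) • WithLp.toLp 2 (Ψ τ) with hΦ
  have hsq : ∀ τ, ‖Φ τ‖ ^ 2 = (‖ModularForm.eta τ‖ ^ 2) ^ (2 * w) * ∑ i, ‖Ψ τ i‖ ^ 2 := by
    intro τ
    rw [hΦ]
    simp only
    rw [norm_smul, mul_pow, EuclideanSpace.norm_sq_eq, norm_pow, ← pow_mul, ← pow_mul]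
    congr 2
    ring
  have hinj : ∀ τ τ' : ℂ, ‖Φ τ‖ ^ 2 = ‖Φ τ'‖ ^ 2 → ‖Φ τ‖ = ‖Φ τ'‖ := by
    intro τ τ' h
    exact (sq_eq_sq₀ (norm_nonneg _) (norm_nonneg _)).1 h
  have hdiff : DifferentiableOn ℂ Φ {τ | 0 < τ.im} := by
    have h1 : DifferentiableOn ℂ ModularForm.eta {τ | 0 < τ.im} := fun τ hτ =>
      (ModularForm.differentiableAt_eta_of_mem_upperHalfPlaneSet hτ).differentiableWithinAt
    refine (h1.pow _).smul ?_
    have h2 := (PiLp.continuousLinearEquiv 2 ℂ (fun _ : ι => ℂ)).symm.differentiable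
    exact h2.comp_differentiableOn hΨ
  have hv := vanish Φ hdiff ?_ ?_ ?_
  · intro τ hτ i
    have h1 := hv τ hτ
    rw [hΦ] at h1
    simp only at h1
    have h2 : ModularForm.eta τ ^ (2 * w) ≠ 0 := pow_ne_zero _ (ModularForm.eta_ne_zero hτ)
    have h3 := (smul_eq_zero.1 h1).resolve_left h2
    have h4 := congrFun (congrArg (fun v : EuclideanSpace ℂ ι => v.ofLp) h3) i
    simpa using h4
  · intro τ hτ
    apply hinj
    rw [hsq, hsq, norm_eta_T, hT τ hτ]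
  · intro τ hτ
    apply hinj
    rw [hsq, hsq, norm_eta_S τ hτ, mul_pow, ← hS τ hτ]
    ring
  · intro ε hε
    set c : ℝ := κ + w / 12 with hc
    have hc0 : 0 < c := by
      rw [hc]
      linarith [hκ, neg_div (12 : ℝ) (w : ℝ)]
    -- bound `‖Φ τ‖^2 ≤ M * exp (-4 pi c y)`
    set M : ℝ := (D ^ 2) ^ (2 * w) * ((Fintype.card ι : ℝ) * C ^ 2) with hM
    have hM0 : 0 ≤ M := by positivity
    have hb : ∀ τ : ℂ, 1 / 2 ≤ τ.im → ‖Φ τ‖ ^ 2 ≤ M * Real.exp (-(4 * Real.pi * c * τ.im)) := by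
      intro τ hτ
      rw [hsq]
      have e1 : (‖ModularForm.eta τ‖ ^ 2) ^ (2 * w) ≤
          (D ^ 2) ^ (2 * w) * Real.exp (-(4 * Real.pi * (w / 12) * τ.im)) := by
        have : (‖ModularForm.eta τ‖ ^ 2) ^ (2 * w) ≤
            ((D * Real.exp (-(2 * Real.pi * τ.im / 24))) ^ 2) ^ (2 * w) := by
          gcongr
          exact hD τ hτ
        refine this.trans (le_of_eq ?_)
        rw [mul_pow, mul_pow, ← Real.exp_nat_mul, ← Real.exp_nat_mul]
        congr 2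
        push_cast
        ring
      have e2 : ∑ i, ‖Ψ τ i‖ ^ 2 ≤
          ((Fintype.card ι : ℝ) * C ^ 2) * Real.exp (-(4 * Real.pi * κ * τ.im)) := by
        have : ∀ i ∈ Finset.univ, ‖Ψ τ i‖ ^ 2 ≤ C ^ 2 * Real.exp (-(4 * Real.pi * κ * τ.im)) := by
          intro i _
          have h1 := hC τ hτ i
          have h2 : ‖Ψ τ i‖ ^ 2 ≤ (C * Real.exp (-(2 * Real.pi * κ * τ.im))) ^ 2 := by
            gcongr
          refine h2.trans (le_of_eq ?_)
          rw [mul_pow, ← Real.exp_nat_mul]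
          congr 2
          push_cast
          ring
        refine (Finset.sum_le_card_nsmul _ _ _ this).trans (le_of_eq ?_)
        rw [nsmul_eq_mul, Finset.card_univ]
        ring
      calc (‖ModularForm.eta τ‖ ^ 2) ^ (2 * w) * ∑ i, ‖Ψ τ i‖ ^ 2
          ≤ ((D ^ 2) ^ (2 * w) * Real.exp (-(4 * Real.pi * (w / 12) * τ.im))) *
            (((Fintype.card ι : ℝ) * C ^ 2) * Real.exp (-(4 * Real.pi * κ * τ.im))) := by
            gcongr
        _ = M * Real.exp (-(4 * Real.pi * c * τ.im)) := by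
            rw [hM, hc]
            have : Real.exp (-(4 * Real.pi * (κ + w / 12) * τ.im)) =
                Real.exp (-(4 * Real.pi * (w / 12) * τ.im)) *
                  Real.exp (-(4 * Real.pi * κ * τ.im)) := by
              rw [← Real.exp_add]
              congr 1
              ring
            rw [this]
            ring
    have hlim : Tendsto (fun y : ℝ => M * Real.exp (-(4 * Real.pi * c * y))) atTop (𝓝 0) := by
      have h1 : Tendsto (fun y : ℝ => Real.exp (-(4 * Real.pi * c * y))) atTop (𝓝 0) := by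
        apply Real.tendsto_exp_neg_atTop_nhds_zero.comp
        exact tendsto_id.const_mul_atTop (by positivity)
      simpa using h1.const_mul M
    obtain ⟨Y, hY⟩ := eventually_atTop.1 (hlim.eventually (gt_mem_nhds (show (0 : ℝ) < ε ^ 2 by positivity)))
    refine ⟨max Y (1 / 2), fun τ hτ => ?_⟩
    have h1 := hb τ (le_trans (le_max_right _ _) hτ)
    have h2 := hY τ.im (le_trans (le_max_left _ _) hτ)
    exact lt_of_pow_lt_pow_left₀ 2 hε.le (h1.trans_lt h2)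

end

end Pool.Agent.Run7.h352.RL.VV
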