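import Pool.Agent.Run7.h352.RL.Two
import Pool.Agent.Run7.h352.RL.THETA2
import Pool.Agent.Run7.h352.RL.VV
import Pool.Agent.Run7.h352.RL.ODE3
import Pool.Agent.Run7.h352.RL.FF
import Pool.Agent.Run7.h352.RL.TUBE

set_option autoImplicit false

/-!
# The index is one, and the discriminant form
-/

namespace Pool.Agent.Run7.h352.RL

open MeasureTheory Complex Set Finset Topology Pool.Agent.Y813.RL Pool.Agent.Y683.RL

noncomputable section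

variable {G : Matrix (Fin 20) (Fin 20) ℤ} {k : ℤ} {F : TP → ℂ}
  {φ : ℕ → ℂ × (Fin 20 → ℂ) → ℂ} {C m : ℕ}

theorem bf_par (h : PosSymm G) (x l : Fin 20 → ℝ) : bf G (x + (2 : ℝ) • l) (x + (2 : ℝ) • l) =
    2 * bf G (x + l) (x + l) + 2 * bf G l l - bf G x x := by
  rw [bf_add_left, bf_add_right, bf_add_right, bf_smul_left, bf_smul_left, bf_smul_right,
    bf_smul_right, bf_add_left, bf_add_right, bf_add_right, bf_comm h.symm l x]
  ring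

/-- **growth of the theta components for index at least two** -/
theorem growth_two (hKD : JobKD) (hBC : JobBC) (hVD : JobVD) (hT1 : JobTheta1) (h : PosSymm G)
    (H : CM G k F φ C m) (hm : 2 ≤ m) {c : ℂ → (Fin 20 → ℂ) → ℂ}
    (hc : JacobiZero ((m : ℤ) • G) c)
    (hcφ : ∀ τ z, 0 < τ.im → φ (C + m) (τ, z) = φ C (τ, z) * c τ z) (μ : Fin 20 → ℤ) :
    ∃ A : ℝ, ∀ τ : ℂ, 1 / 2 ≤ τ.im → ‖vf ((m : ℤ) • G) c μ τ‖ ≤
      A * Real.exp (-(2 * Real.pi * (-(19 / 24)) * τ.im)) := by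
  have hmR : (2 : ℝ) ≤ m := by exact_mod_cast hm
  have hm0 : (0 : ℝ) < m := by linarith
  set δ : ℝ := 1 / (24 * m) with hδ
  have hδ0 : 0 < δ := by positivity
  set l : Fin 20 → ℝ := (m : ℝ)⁻¹ • lam G μ with hl
  set qm : ℝ := 2 * δ + 2 * bf G l l with hqm
  obtain ⟨Q0, hQ0⟩ := short_bound h (4 + 4 * m * qm)
  obtain ⟨Q1, hQ1⟩ := genX_of_gen h
  have hcont : Continuous fun x : Fin 20 → ℝ => bf G (x + l) (x + l) :=
    bf_contR G (by fun_prop) (by fun_prop)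
  obtain ⟨X, N, hN, hxO, hgen⟩ := gen (max Q1 (4 * m * Q0))
    (isOpen_lt hcont continuous_const : IsOpen {x : Fin 20 → ℝ | bf G (x + l) (x + l) < δ})
    ⟨-l, by
      show bf G (-l + l) (-l + l) < δ
      rw [neg_add_cancel, bf_zero_left]
      exact hδ0⟩
  set x := xr X N with hx
  have hxO' : bf G (x + l) (x + l) < δ := hxO
  have hg : GenX G x := hQ1 x fun ν hν hb => hgen ν hν fun i => (hb i).trans (by
    exact_mod_cast le_max_left _ _)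
  have hq : bf G x x ≤ qm := by
    have h1 := h.nonneg (x + (2 : ℝ) • l)
    rw [bf_par h] at h1
    rw [hqm]
    linarith
  obtain ⟨T₁, hT₁⟩ := zero_free_two hKD hVD h H hm hQ0 X hN hg hq fun ν hν hb =>
    hgen ν hν fun i => (hb i).trans (by
      have : 4 * m * Q0 ≤ max Q1 (4 * m * Q0) := le_max_right _ _
      exact_mod_cast this)
  obtain ⟨K, T₂, hK, hT₂, hgr⟩ := slice_growth hKD hBC hT1 h H hc hcφ X hN hg
    (η := 3 / (4 * (m : ℝ))) (T₁ := T₁) (by positivity) hT₁ μ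
  obtain ⟨-, hco, hper, -⟩ := vf_props hT1 (posSymm_smul h H.hm) hc μ
  have hexp : expo G m μ x (3 / (4 * (m : ℝ))) ≤ 3 / 4 + 1 / 48 := by
    unfold expo
    rw [← hl]
    have e1 : (m : ℝ) * (3 / (4 * (m : ℝ))) = 3 / 4 := by field_simp
    rw [e1]
    have h2 : (m : ℝ) / 2 * bf G (x + l) (x + l) ≤ (m : ℝ) / 2 * δ := by gcongr
    have e2 : (m : ℝ) / 2 * δ = 1 / 48 := by
      rw [hδ]
      field_simp
      norm_num
    linarith
  have hfin : ∀ τ : ℂ, T₂ ≤ τ.im → ‖vf ((m : ℤ) • G) c μ τ‖ ≤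
      (K / (1 / 48)) * Real.exp ((-(2 * Real.pi * (-(19 / 24)))) * τ.im) := by
    intro τ hτ
    have hT0 : 0 ≤ τ.im := by linarith
    refine (hgr τ hτ).trans ?_
    have h1 : K * τ.im * Real.exp (2 * Real.pi * τ.im * expo G m μ x (3 / (4 * (m : ℝ)))) ≤
        K * τ.im * Real.exp (2 * Real.pi * τ.im * (3 / 4 + 1 / 48)) := by
      gcongr
    refine h1.trans ((absorb hK.le (by norm_num : (0 : ℝ) < 1 / 48) hT0).trans (le_of_eq ?_))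
    congr 2
    ring
  obtain ⟨A, hA⟩ := ext_bound hco hper hfin
  refine ⟨A, fun τ hτ => (hA τ hτ).trans (le_of_eq ?_)⟩
  congr 2
  ring

/-- vanishing of vector valued forms -/
theorem vv_zero (hVV : JobVV) (hFF : JobFF) {A : Matrix (Fin 20) (Fin 20) ℤ} (h : PosSymm A)
    {R : Finset (Fin 20 → ℤ)} (hR : IsReps A R) (w : ℕ) {κ : ℝ} (hκ : -(w : ℝ) / 12 < κ)
    (g : (Fin 20 → ℤ) → ℂ → ℂ) (holo : ∀ μ ∈ R, DifferentiableOn ℂ (g μ) {τ | 0 < τ.im})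
    (hT : ∀ μ ∈ R, ∀ τ : ℂ, 0 < τ.im → ‖g μ (τ + 1)‖ = ‖g μ τ‖)
    (hS : ∀ μ ∈ R, ∀ τ : ℂ, 0 < τ.im → g μ τ = -(τ ^ w) / (Real.sqrt (A.det : ℝ) : ℂ) *
      ∑ ρ ∈ R, ee (-(bd A μ ρ : ℂ)) * g ρ (-1 / τ))
    (hgr : ∀ μ ∈ R, ∃ C : ℝ, ∀ τ : ℂ, 1 / 2 ≤ τ.im →
      ‖g μ τ‖ ≤ C * Real.exp (-(2 * Real.pi * κ * τ.im))) :
    ∀ μ ∈ R, ∀ τ : ℂ, 0 < τ.im → g μ τ = 0 := by
  classical
  obtain ⟨hdet, -, hff⟩ := hFF A h
  obtain ⟨-, hun⟩ := hff R hR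
  have hdetR : (0 : ℝ) < (A.det : ℝ) := by exact_mod_cast hdet
  have key := hVV R w κ (fun τ i => g i τ) hκ (by
    rw [differentiableOn_pi]
    exact fun i => holo i i.2) (by
    intro τ hτ
    refine Finset.sum_congr rfl fun i _ => ?_
    rw [hT i i.2 τ hτ]) (by
    intro τ hτ
    have h1 : ∀ μ ∈ R, ‖g μ τ‖ ^ 2 = ‖τ‖ ^ (2 * w) / (A.det : ℝ) *
        ‖∑ ρ ∈ R, ee (-(bd A μ ρ : ℂ)) * g ρ (-1 / τ)‖ ^ 2 := by
      intro μ hμ
      rw [hS μ hμ τ hτ, norm_mul, norm_div, norm_neg, norm_pow, Complex.norm_real,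
        Real.norm_eq_abs, abs_of_nonneg (Real.sqrt_nonneg _), mul_pow, div_pow,
        Real.sq_sqrt hdetR.le, ← pow_mul, mul_comm w 2]
    have h2 := hun fun ρ => g ρ (-1 / τ)
    have h3 : ∑ i : R, ‖g i τ‖ ^ 2 = ∑ μ ∈ R, ‖g μ τ‖ ^ 2 :=
      Finset.sum_coe_sort R fun μ => ‖g μ τ‖ ^ 2
    have h4 : ∑ i : R, ‖g i (-1 / τ)‖ ^ 2 = ∑ μ ∈ R, ‖g μ (-1 / τ)‖ ^ 2 :=
      Finset.sum_coe_sort R fun μ => ‖g μ (-1 / τ)‖ ^ 2
    show ‖τ‖ ^ (2 * w) * ∑ i : R, ‖g i (-1 / τ)‖ ^ 2 = ∑ i : R, ‖g i τ‖ ^ 2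
    rw [h3, h4, Finset.sum_congr rfl h1, ← Finset.mul_sum, h2]
    field_simp) (by
    choose! B hB using hgr
    refine ⟨∑ i : R, |B i|, fun τ hτ i => ?_⟩
    refine (hB i i.2 τ hτ).trans ?_
    gcongr
    exact (le_abs_self _).trans (Finset.single_le_sum (f := fun i : R => |B i|)
      (fun _ _ => abs_nonneg _) (Finset.mem_univ i)))
  intro μ hμ τ hτ
  exact key τ hτ ⟨μ, hμ⟩

theorem neg_inv_im {τ : ℂ} (hτ : 0 < τ.im) : 0 < (-1 / τ).im := by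
  have hne : τ ≠ 0 := by
    intro h0
    rw [h0] at hτ
    simp at hτ
  rw [neg_div, Complex.neg_im, one_div, Complex.inv_im]
  have h1 : 0 < Complex.normSq τ := Complex.normSq_pos.2 hne
  have h2 := div_pos hτ h1
  rw [neg_div, neg_neg]
  exact h2

/-- the theta components form a vector valued form of weight -10 -/
theorem vf_VV10 (hT1 : JobTheta1) (hT2 : JobTheta2) {A : Matrix (Fin 20) (Fin 20) ℤ}
    (h : PosSymm A) {c : ℂ → (Fin 20 → ℂ) → ℂ} (hc : JacobiZero A c) {R : Finset (Fin 20 → ℤ)}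
    (hR : IsReps A R) : VV10 A R (vf A c) := by
  obtain ⟨h1, h2, -, h4, -⟩ := hT1 A c h hc
  refine ⟨fun μ => ?_, h4, fun μ τ hτ => ?_, hT2 A c R h hc hR⟩
  · have h5 := h1 μ
    unfold vf
    refine DifferentiableOn.mul ?_ h5
    unfold ee
    fun_prop
  · unfold vf
    rw [h2 μ τ hτ, ← mul_assoc, ← Pool.Agent.Y813.RL.ee_add]
    congr 2
    ring

/-- **a Jacobi form of weight zero with small growth vanishes** -/
theorem jac_zero (hT1 : JobTheta1) (hT2 : JobTheta2) (hVV : JobVV) (hFF : JobFF)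
    {A : Matrix (Fin 20) (Fin 20) ℤ}
    (h : PosSymm A) {c : ℂ → (Fin 20 → ℂ) → ℂ} (hc : JacobiZero A c)
    (hgr : ∀ μ, ∃ C : ℝ, ∀ τ : ℂ, 1 / 2 ≤ τ.im →
      ‖vf A c μ τ‖ ≤ C * Real.exp (-(2 * Real.pi * (-(19 / 24)) * τ.im))) :
    ∀ (τ : ℂ) (z : Fin 20 → ℂ), 0 < τ.im → c τ z = 0 := by
  obtain ⟨hdet, ⟨R, hR⟩, -⟩ := hFF A h
  have hv := vf_VV10 hT1 hT2 h hc hR
  have h0 := vv_zero hVV hFF h hR 10 (κ := -(19 / 24)) (by norm_num) (vf A c)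
    (fun μ _ => hv.holo μ) (fun μ _ => (vf_props hT1 h hc μ).2.2.1) (fun μ _ => hv.S μ)
    (fun μ _ => hgr μ)
  intro τ z hτ
  have hfc : ∀ μ : Fin 20 → ℤ, fc c μ τ = 0 := by
    intro μ
    obtain ⟨ρ, ⟨hρ, v, hv'⟩, -⟩ := hR μ
    have h1 : vf A c μ τ = 0 := by
      rw [hv', hv.inv ρ v τ hτ]
      exact h0 ρ hρ τ hτ
    unfold vf at h1
    exact (mul_eq_zero.1 h1).resolve_left (Pool.Agent.Y813.RL.ee_ne_zero _)
  have hs := (hT1 A c h hc).2.2.2.2 τ z hτ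
  simp only [hfc, zero_mul] at hs
  exact hs.unique hasSum_zero

/-- **the index is one** -/
theorem index_one (hKD : JobKD) (hBC : JobBC) (hVD : JobVD) (hT1 : JobTheta1) (hT2 : JobTheta2)
    (hVV : JobVV) (hFF : JobFF) (h : PosSymm G)
    (H : CM G k F φ C m) {c : ℂ → (Fin 20 → ℂ) → ℂ}
    (hc : JacobiZero ((m : ℤ) • G) c)
    (hcφ : ∀ τ z, 0 < τ.im → φ (C + m) (τ, z) = φ C (τ, z) * c τ z) : m = 1 := by
  by_contra hne
  have hm : 2 ≤ m := by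
    have := H.hm
    omega
  have h0 := jac_zero hT1 hT2 hVV hFF (posSymm_smul h H.hm) hc
    (fun μ => growth_two hKD hBC hVD hT1 h H hm hc hcφ μ)
  obtain ⟨p, hp, hpne⟩ := H.hne2
  apply hpne
  have := hcφ p.1 p.2 hp
  rw [h0 p.1 p.2 hp, mul_zero] at this
  exact this

/-- **the differential equation** -/
theorem LL_zero (hVV : JobVV) (hFF : JobFF) (h1 : JobODE1) (h2 : JobODE2)
    (h : PosSymm G) (heven : ∀ i, Even (G i i)) {R : Finset (Fin 20 → ℤ)} (hR : IsReps G R)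
    {f : (Fin 20 → ℤ) → ℂ → ℂ} (hf : VV10 G R f)
    (hg1 : ∀ μ, ∃ C : ℝ, ∀ τ : ℂ, 1 / 2 ≤ τ.im → ‖f μ τ‖ ≤ C * Real.exp (2 * Real.pi * τ.im))
    (hg2 : ∀ μ, (¬ ∃ v : Fin 20 → ℤ, μ = G.mulVec v) →
      ∃ C : ℝ, ∀ τ : ℂ, 1 / 2 ≤ τ.im → ‖f μ τ‖ ≤ C * Real.exp (Real.pi * τ.im)) :
    ∀ μ, ∀ τ : ℂ, 0 < τ.im → LL (f μ) τ = 0 := by
  classical
  obtain ⟨o1, o2, o3, o4⟩ := h1
  have hlin : ∀ (a : ℂ) (u : ℂ → ℂ), DifferentiableOn ℂ u {τ | 0 < τ.im} → ∀ τ : ℂ, 0 < τ.im →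
      LL (fun t => a * u t) τ = a * LL u τ := by
    intro a u hu τ hτ
    have := o4 Unit {()} (fun _ => u) (fun _ => a) (fun _ _ => hu) τ hτ
    simpa using this
  have hT : ∀ μ, ∀ τ : ℂ, 0 < τ.im → ‖LL (f μ) (τ + 1)‖ = ‖LL (f μ) τ‖ := by
    intro μ τ hτ
    have e1 := o2 (f μ) (fun t => ee (-((bd G μ μ : ℂ) / 2)) * f μ t) (hf.holo μ)
      (DifferentiableOn.const_mul (hf.holo μ) _) (fun t ht => (hf.T μ t ht).symm) τ hτ
    rw [hlin _ _ (hf.holo μ) τ hτ] at e1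
    rw [← e1, norm_mul, norm_ee]
    have : (-(((bd G μ μ : ℝ) : ℂ) / 2)).im = 0 := by
      have : -(((bd G μ μ : ℝ) : ℂ) / 2) = ((-(bd G μ μ / 2) : ℝ) : ℂ) := by push_cast; ring
      rw [this, Complex.ofReal_im]
    rw [this]
    simp
  have hS : ∀ μ, ∀ τ : ℂ, 0 < τ.im → LL (f μ) τ = -(τ ^ 6) / (Real.sqrt (G.det : ℝ) : ℂ) *
      ∑ ρ ∈ R, ee (-(bd G μ ρ : ℂ)) * LL (f ρ) (-1 / τ) := by
    intro μ τ hτ
    set a : (Fin 20 → ℤ) → ℂ := fun ρ => -1 / (Real.sqrt (G.det : ℝ) : ℂ) * ee (-(bd G μ ρ : ℂ))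
      with ha
    have hd : DifferentiableOn ℂ (fun t => ∑ ρ ∈ R, a ρ * f ρ t) {τ | 0 < τ.im} := by
      refine DifferentiableOn.fun_sum fun ρ _ => ?_
      exact DifferentiableOn.const_mul (hf.holo ρ) _
    have e1 := o3 (fun t => ∑ ρ ∈ R, a ρ * f ρ t) (f μ) hd (hf.holo μ) (by
      intro t ht
      rw [hf.S μ t ht]
      simp only [ha, Finset.mul_sum]
      refine Finset.sum_congr rfl fun ρ _ => ?_
      ring) τ hτ
    rw [e1, o4 _ R f a (fun ρ _ => hf.holo ρ) _ (neg_inv_im hτ)]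
    simp only [ha, Finset.mul_sum]
    refine Finset.sum_congr rfl fun ρ _ => ?_
    ring
  have hG : ∀ μ, ∃ κ C' : ℝ, -(1 / 2 : ℝ) < κ ∧
      ∀ τ : ℂ, 1 / 2 ≤ τ.im → ‖LL (f μ) τ‖ ≤ C' * Real.exp (-(2 * Real.pi * κ * τ.im)) := by
    intro μ
    obtain ⟨C1, hC1⟩ := hg1 μ
    by_cases hμ : ∃ v : Fin 20 → ℤ, μ = G.mulVec v
    · refine h2 (-(bd G μ μ / 2)) (f μ) C1 (hf.holo μ) ?_ (Or.inl ⟨?_, hC1⟩)
      · intro τ hτ
        rw [hf.T μ τ hτ]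
        push_cast
        rfl
      · obtain ⟨v, rfl⟩ := hμ
        have e1 : bd G (G.mulVec v) (G.mulVec v) = ((bf G v v : ℤ) : ℝ) := by
          rw [← bf_lam_lam h, lam_mulVec h]
          exact bf_intCast G v v
        obtain ⟨j, hj⟩ := even_bf h.symm heven v
        refine ⟨-j, ?_⟩
        rw [e1, hj]
        push_cast
        ring
    · obtain ⟨C2, hC2⟩ := hg2 μ hμ
      refine h2 (-(bd G μ μ / 2)) (f μ) C2 (hf.holo μ) ?_ (Or.inr hC2)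
      intro τ hτ
      rw [hf.T μ τ hτ]
      push_cast
      rfl
  choose κ C' hκ hC' using hG
  obtain ⟨ρ₀, ⟨hρ₀, -⟩, -⟩ := hR 0
  obtain ⟨ρ₁, hρ₁, hmin⟩ := Finset.exists_min_image R κ ⟨ρ₀, hρ₀⟩
  have h0 := vv_zero hVV hFF h hR 6 (κ := κ ρ₁) (by
      have := hκ ρ₁
      norm_num
      linarith) (fun μ => LL (f μ)) (fun μ _ => o1 _ (hf.holo μ)) (fun μ _ => hT μ)
    (fun μ _ => hS μ) (fun μ hμ => by
      refine ⟨|C' μ|, fun τ hτ => (hC' μ τ hτ).trans ?_⟩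
      have h3 := hmin μ hμ
      have h4 : Real.exp (-(2 * Real.pi * κ μ * τ.im)) ≤ Real.exp (-(2 * Real.pi * κ ρ₁ * τ.im)) := by
        apply Real.exp_le_exp.2
        have : 2 * Real.pi * κ ρ₁ * τ.im ≤ 2 * Real.pi * κ μ * τ.im := by
          have : 0 ≤ τ.im := by linarith
          have := Real.pi_pos
          gcongr
        linarith
      calc C' μ * Real.exp (-(2 * Real.pi * κ μ * τ.im)) ≤
            |C' μ| * Real.exp (-(2 * Real.pi * κ μ * τ.im)) := by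
            gcongr
            exact le_abs_self _
        _ ≤ _ := by gcongr)
  intro μ τ hτ
  obtain ⟨ρ, ⟨hρ, v, hv⟩, -⟩ := hR μ
  have h5 := h0 ρ hρ τ hτ
  have h6 : LL (fun t => 1 * f ρ t) τ = 1 * LL (f ρ) τ := hlin 1 (f ρ) (hf.holo ρ) τ hτ
  rw [← h5]
  -- the two functions agree on the half plane
  exact ODE1.LL_congr (fun t ht => by rw [hv]; exact hf.inv ρ v t ht) hτ

end

end Pool.Agent.Run7.h352.RL
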