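import Pool.Agent.Run7.h352.RL.One

set_option autoImplicit false

/-!
# Index at least two: there are no zeros above the height `3 / (4 m)`
-/

namespace Pool.Agent.Run7.h352.RL

open MeasureTheory Complex Set Finset Topology Pool.Agent.Y813.RL Pool.Agent.Y683.RL

noncomputable section

variable {G : Matrix (Fin 20) (Fin 20) ℤ} {k : ℤ} {F : TP → ℂ}
  {φ : ℕ → ℂ × (Fin 20 → ℂ) → ℂ} {C m : ℕ}

/-- the orders of the roots of unity that matter -/
def ords (m : ℕ) : Finset ℕ := (Finset.range (m + 1)).filter fun d => 0 < d ∧ 3 * d ^ 2 < 4 * m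

theorem sum_ords {m : ℕ} (hm : 2 ≤ m) : ∑ d ∈ ords m, d < m := by
  classical
  -- the largest element
  have h1 : (1 : ℕ) ∈ ords m := by
    simp only [ords, Finset.mem_filter, Finset.mem_range]
    omega
  set K := (ords m).max' ⟨1, h1⟩ with hK
  have hKm : K ∈ ords m := Finset.max'_mem _ _
  have hK1 : 1 ≤ K := Finset.le_max' _ _ h1
  have hK2 : 3 * K ^ 2 < 4 * m := by
    simp only [ords, Finset.mem_filter] at hKm
    exact hKm.2.2
  have hsub : ords m ⊆ Finset.range (K + 1) := by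
    intro d hd
    rw [Finset.mem_range]
    have := Finset.le_max' _ _ hd
    omega
  have h2 : ∑ d ∈ ords m, d ≤ ∑ d ∈ Finset.range (K + 1), d :=
    Finset.sum_le_sum_of_subset hsub
  have h3 := Finset.sum_range_id_mul_two (K + 1)
  have h4 : (K + 1 - 1 : ℕ) = K := by omega
  rw [h4] at h3
  have h5 : (K + 1) * K < 2 * m := by
    rcases Nat.lt_or_ge m 3 with h6 | h6
    · have hm2 : m = 2 := by omega
      subst hm2
      have hK3 : K = 1 := by
        by_contra hne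
        have : 2 ≤ K := by omega
        nlinarith
      rw [hK3]
      norm_num
    · have h7 : 3 * K ≤ 2 * m := by
        by_contra hcon
        push Not at hcon
        nlinarith
      nlinarith
  omega

/-- the roots of unity that matter -/
def roots1 (m : ℕ) : Finset ℂ := (ords m).biUnion fun d => (Polynomial.nthRoots d (1 : ℂ)).toFinset

theorem card_roots1 {m : ℕ} (hm : 2 ≤ m) : (roots1 m).card < m := by
  refine lt_of_le_of_lt (Finset.card_biUnion_le.trans ?_) (sum_ords hm)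
  refine Finset.sum_le_sum fun d _ => ?_
  exact (Multiset.toFinset_card_le _).trans (Polynomial.card_nthRoots d 1)

theorem norm_roots1 {m : ℕ} {ε : ℂ} (hε : ε ∈ roots1 m) : ‖ε‖ = 1 := by
  simp only [roots1, Finset.mem_biUnion, Multiset.mem_toFinset, ords, Finset.mem_filter] at hε
  obtain ⟨d, ⟨_, hd, _⟩, hε⟩ := hε
  rw [Polynomial.mem_nthRoots hd] at hε
  exact Complex.norm_eq_one_of_pow_eq_one hε hd.ne'

theorem mem_roots1 {m : ℕ} {d : ℕ} (hd : 0 < d) (hd2 : 3 * d ^ 2 < 4 * m) {ε : ℂ} (hε : ε ^ d = 1) :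
    ε ∈ roots1 m := by
  simp only [roots1, Finset.mem_biUnion, Multiset.mem_toFinset, ords, Finset.mem_filter,
    Finset.mem_range]
  refine ⟨d, ⟨?_, hd, hd2⟩, ?_⟩
  · nlinarith
  · rw [Polynomial.mem_nthRoots hd]
    exact hε

/-- the height of a wall over `x` -/
def hw (G : Matrix (Fin 20) (Fin 20) ℤ) (x : Fin 20 → ℝ) (w : ℤ × ℤ × (Fin 20 → ℤ)) : ℝ :=
  -((w.2.1 : ℝ) + dt w.2.2 x) / w.1 - bf G x x / 2

theorem wall_height (h : PosSymm G) {x : Fin 20 → ℝ} {b m' n' : ℤ} {μ : Fin 20 → ℤ} (hm' : 0 < m')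
    {t : ℝ} (ht : nu G 0 b m' n' μ = (m' : ℝ) ^ 2 * t +
      bf G (lam G μ + (m' : ℝ) • x) (lam G μ + (m' : ℝ) • x) / 2) : t = hw G x (m', n', μ) := by
  have hm0 : (m' : ℝ) ≠ 0 := by exact_mod_cast hm'.ne'
  rw [bf_add_left, bf_add_right, bf_add_right, bf_smul_left, bf_smul_left, bf_smul_right,
    bf_smul_right, bf_comm h.symm x (lam G μ), bf_lam_lam h, bf_lam h] at ht
  unfold nu at ht
  unfold hw
  simp only
  have h1 : (m' : ℝ) * ((m' : ℝ) * t) = (m' : ℝ) * (-(n' + dt μ x) - m' * (bf G x x / 2)) := by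
    push_cast at ht
    linarith
  have h2 := mul_left_cancel₀ hm0 h1
  field_simp
  linarith

/-- the walls that matter form a finite set -/
theorem finite_walls (a n₀ Q : ℤ) :
    {w : ℤ × ℤ × (Fin 20 → ℤ) | 0 < w.1 ∧ w.1 ≤ a ∧ |w.2.1| ≤ n₀ ∧ ∀ i, |w.2.2 i| ≤ Q}.Finite := by
  refine ((Set.finite_Icc (0 : ℤ) a).prod ((Set.finite_Icc (-n₀) n₀).prod
    (Set.finite_Icc (fun _ : Fin 20 => -Q) (fun _ => Q)))).subset ?_
  rintro ⟨m', n', μ⟩ ⟨h1, h2, h3, h4⟩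
  refine ⟨⟨h1.le, h2⟩, ⟨(abs_le.1 h3).1, (abs_le.1 h3).2⟩, ?_⟩
  exact ⟨fun i => (abs_le.1 (h4 i)).1, fun i => (abs_le.1 (h4 i)).2⟩

/-- a finite set of reals has a positive lower bound for its positive elements -/
theorem exists_gap {S : Set ℝ} (hS : S.Finite) : ∃ δ : ℝ, 0 < δ ∧ ∀ r ∈ S, 0 < r → δ ≤ r := by
  classical
  have hS' : (S ∩ {r | 0 < r}).Finite := hS.subset Set.inter_subset_left
  rcases (S ∩ {r | 0 < r}).eq_empty_or_nonempty with he | hne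
  · refine ⟨1, one_pos, fun r hr hr0 => ?_⟩
    have : r ∈ S ∩ {r | 0 < r} := ⟨hr, hr0⟩
    rw [he] at this
    exact absurd this (Set.notMem_empty _)
  · obtain ⟨δ, ⟨_, hδ⟩, hmin⟩ := Set.exists_min_image _ id hS' hne
    exact ⟨δ, hδ, fun r hr hr0 => hmin r ⟨hr, hr0⟩⟩

theorem tendsto_vd {K δ : ℝ} (hδ : 0 < δ) : ∃ T₀ : ℝ, ∀ T : ℝ, T₀ ≤ T →
    K * T * Real.exp (-(δ * T)) < 1 ∧ Real.exp (-(δ * T)) ≤ 1 / 2 := by
  have h1 : Filter.Tendsto (fun T : ℝ => K * T * Real.exp (-(δ * T))) Filter.atTop (𝓝 (K * 0)) := by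
    have h2 := (Real.tendsto_pow_mul_exp_neg_atTop_nhds_zero 1).comp
      (Filter.tendsto_id.const_mul_atTop hδ)
    have h3 : (fun T : ℝ => K * T * Real.exp (-(δ * T))) =
        fun T => (K / δ) * (((fun x : ℝ => x ^ 1 * Real.exp (-x)) ∘ fun x => δ * id x) T) := by
      funext T
      simp only [Function.comp, id, pow_one]
      field_simp
    rw [h3, mul_zero]
    have := h2.const_mul (K / δ)
    rwa [mul_zero] at this
  rw [mul_zero] at h1
  have h4 : Filter.Tendsto (fun T : ℝ => Real.exp (-(δ * T))) Filter.atTop (𝓝 0) := by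
    refine Real.tendsto_exp_atBot.comp ?_
    have := Filter.tendsto_id (α := ℝ) (x := Filter.atTop) |>.const_mul_atTop hδ
    exact Filter.tendsto_neg_atTop_atBot.comp this
  have h5 := (h1.eventually (gt_mem_nhds one_pos)).and
    (h4.eventually (gt_mem_nhds (show (0 : ℝ) < 1 / 2 by norm_num)))
  obtain ⟨T₀, hT₀⟩ := Filter.eventually_atTop.1 h5
  exact ⟨T₀, fun T hT => ⟨(hT₀ T hT).1, (hT₀ T hT).2.le⟩⟩

/-- the wall of a zero above the height `3 / (4 m)` -/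
theorem zero_wall_two (h : PosSymm G) (H : CM G k F φ C m) {x : Fin 20 → ℝ} (hg : GenX G x)
    {qm : ℝ} {Q0 : ℕ} (hQ0 : ∀ μ : Fin 20 → ℤ, bd G μ μ ≤ 4 + 4 * m * qm → ∀ i, |μ i| ≤ Q0)
    (hq : bf G x x ≤ qm) {τ : ℂ} (y : Fin 20 → ℝ) (hτ : 1 ≤ τ.im)
    (hτ2 : 1 ≤ 3 / (4 * (m : ℝ)) * τ.im) {s : ℂ}
    (hs : ‖s‖ < rad G x (3 / (4 * (m : ℝ))) τ.im)
    (hz : gp φ C m (pt x τ (fun i => (y i : ℂ))) s = 0) :
    ∃ (ω : ℂ) (b m' n' : ℤ) (μ : Fin 20 → ℤ), ee ω = s ∧ 0 < m' ∧ 3 * m' ^ 2 < 4 * (m : ℤ) ∧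
      |n'| ≤ ⌈3 + 2 * m * qm⌉ ∧ (∀ i, |μ i| ≤ Q0) ∧
      WEq G 0 b m' n' μ (ω, pt x τ (fun i => (y i : ℂ))) ∧
      ω.im / τ.im - bf G x x / 2 = hw G x (m', n', μ) ∧
      3 / (4 * (m : ℝ)) < ω.im / τ.im - bf G x x / 2 := by
  have hm := H.hm
  have hmR : (1 : ℝ) ≤ m := by exact_mod_cast hm
  have hm0 : (0 : ℝ) < m := by linarith
  have hT0 : 0 < τ.im := by linarith
  have hη : 0 < 3 / (4 * (m : ℝ)) := by positivity
  obtain ⟨ω, b, m', n', μ, hω, him, hm', hw', he, hnu⟩ := zero_info h H hg hη y hτ hτ2 hs hz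
  have hs0 : s ≠ 0 := by rw [← hω]; exact ee_ne_zero _
  have hgt := height_gt (G := G) hT0 hs0 him hs
  have hm1 : (1 : ℝ) ≤ m' := by exact_mod_cast hm'
  have hnn := h.nonneg (lam G μ + (m' : ℝ) • x)
  have hnu1 := nu_le_one hw'
  have hsq : (m' : ℝ) ^ 2 * (3 / (4 * (m : ℝ))) < 1 := by
    have h1 : (m' : ℝ) ^ 2 * (3 / (4 * (m : ℝ))) < (m' : ℝ) ^ 2 * (ω.im / τ.im - bf G x x / 2) := by
      apply mul_lt_mul_of_pos_left hgt
      positivity
    linarith [hnu1.2]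
  have hsq2 : 3 * (m' : ℝ) ^ 2 < 4 * m := by
    have e1 : (m' : ℝ) ^ 2 * (3 / (4 * (m : ℝ))) = (3 * (m' : ℝ) ^ 2) / (4 * m) := by ring
    rw [e1, div_lt_one (by positivity)] at hsq
    exact hsq
  have hpos : 0 ≤ (m' : ℝ) ^ 2 * (ω.im / τ.im - bf G x x / 2) := by
    have : 0 < ω.im / τ.im - bf G x x / 2 := lt_trans hη hgt
    positivity
  have hbf : bf G (lam G μ + (m' : ℝ) • x) (lam G μ + (m' : ℝ) • x) ≤ 2 := by
    linarith [hnu1.2]
  have hq0 : 0 ≤ bf G x x := h.nonneg _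
  have hbd : bd G μ μ ≤ 4 + 4 * m * qm := by
    have h1 := h.nonneg (lam G μ + (2 * (m' : ℝ)) • x)
    have e1 : bf G (lam G μ + (2 * (m' : ℝ)) • x) (lam G μ + (2 * (m' : ℝ)) • x) =
        bd G μ μ + 2 * (2 * m') * dt μ x + (2 * m') ^ 2 * bf G x x := by
      rw [bf_add_left, bf_add_right, bf_add_right, bf_smul_left, bf_smul_left, bf_smul_right,
        bf_smul_right, bf_comm h.symm x (lam G μ), bf_lam_lam h, bf_lam h]
      ring
    have e2 : bf G (lam G μ + (m' : ℝ) • x) (lam G μ + (m' : ℝ) • x) =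
        bd G μ μ + 2 * m' * dt μ x + m' ^ 2 * bf G x x := by
      rw [bf_add_left, bf_add_right, bf_add_right, bf_smul_left, bf_smul_left, bf_smul_right,
        bf_smul_right, bf_comm h.symm x (lam G μ), bf_lam_lam h, bf_lam h]
      ring
    rw [e1] at h1
    rw [e2] at hbf
    have h2 : (m' : ℝ) ^ 2 * bf G x x ≤ 2 * m * qm := by
      have h3 : (m' : ℝ) ^ 2 ≤ 2 * m := by linarith
      calc (m' : ℝ) ^ 2 * bf G x x ≤ 2 * m * bf G x x := by gcongr
        _ ≤ 2 * m * qm := by gcongr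
    nlinarith
  refine ⟨ω, b, m', n', μ, hω, hm', by exact_mod_cast hsq2, ?_, hQ0 μ hbd, he,
    wall_height h hm' hnu, hgt⟩
  have hbd0 : 0 ≤ bd G μ μ := by rw [← bf_lam_lam h]; exact h.nonneg _
  have hnn2 : nu G 0 b m' n' μ = bd G μ μ / 2 - m' * n' := by unfold nu; push_cast; ring
  rw [hnn2] at hnu1
  have h5 : |(n' : ℝ)| ≤ 3 + 2 * m * qm := by
    rw [abs_le]
    have hqm : 0 ≤ 2 * (m : ℝ) * qm := by
      have : 0 ≤ qm := hq0.trans hq
      positivity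
    constructor
    · by_contra hcon
      push Not at hcon
      have h6 : (m' : ℝ) * n' ≤ 1 * n' := by
        apply mul_le_mul_of_nonpos_right hm1
        linarith
      linarith [hnu1.2]
    · by_contra hcon
      push Not at hcon
      have h6 : 1 * (n' : ℝ) ≤ (m' : ℝ) * n' := by
        apply mul_le_mul_of_nonneg_right hm1
        linarith
      linarith [hnu1.1]
  have h6 : ((|n'| : ℤ) : ℝ) ≤ ((⌈3 + 2 * (m : ℝ) * qm⌉ : ℤ) : ℝ) := by
    rw [Int.cast_abs]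
    exact h5.trans (Int.le_ceil _)
  exact_mod_cast h6

/-- **no zeros above the height `3 / (4 m)`** -/
theorem zero_free_two (hKD : JobKD) (hVD : JobVD) (h : PosSymm G) (H : CM G k F φ C m) (hm : 2 ≤ m)
    {qm : ℝ} {Q0 : ℕ} (hQ0 : ∀ μ : Fin 20 → ℤ, bd G μ μ ≤ 4 + 4 * m * qm → ∀ i, |μ i| ≤ Q0)
    (X : Fin 20 → ℤ) {N : ℕ} (hN : 0 < N) (hg : GenX G (xr X N))
    (hq : bf G (xr X N) (xr X N) ≤ qm)
    (hgen : ∀ ν : Fin 20 → ℤ, ν ≠ 0 → (∀ i, |ν i| ≤ ((4 * m * Q0 : ℕ) : ℤ)) →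
      ∀ k : ℤ, dt ν (xr X N) ≠ k) :
    ∃ T₁ : ℝ, ∀ (τ : ℂ) (y : Fin 20 → ℝ), T₁ ≤ τ.im → ∀ s : ℂ,
      ‖s‖ < rad G (xr X N) (3 / (4 * (m : ℝ))) τ.im →
        gp φ C m (pt (xr X N) τ (fun i => (y i : ℂ))) s ≠ 0 := by
  set x := xr X N with hx
  set η : ℝ := 3 / (4 * (m : ℝ)) with hηdef
  have hmR : (2 : ℝ) ≤ m := by exact_mod_cast hm
  have hη : 0 < η := by positivity
  obtain ⟨K₁, T₀, hK₁, hT₀, hM⟩ := gp_slice hKD h H X hN hg hη
  rw [← hx] at hM
  obtain ⟨K, hK, hvd⟩ := hVD m (roots1 m) (card_roots1 hm) (fun ε hε => norm_roots1 hε)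
  set W0 : Set (ℤ × ℤ × (Fin 20 → ℤ)) :=
    {w | 0 < w.1 ∧ w.1 ≤ 2 * (m : ℤ) ∧ |w.2.1| ≤ ⌈3 + 2 * (m : ℝ) * qm⌉ ∧ ∀ i, |w.2.2 i| ≤ (Q0 : ℤ)}
    with hW0
  have hW0fin : W0.Finite := finite_walls _ _ _
  set S : Set ℝ := (hw G x) '' W0 with hS
  have hSfin : S.Finite := hW0fin.image _
  set D : Set ℝ := (fun p : ℝ × ℝ => p.1 - p.2) '' ((S ∪ {η}) ×ˢ (S ∪ {η})) with hD
  have hDfin : D.Finite := by
    have : (S ∪ {η}).Finite := hSfin.union (Set.finite_singleton _)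
    exact (this.prod this).image _
  obtain ⟨δ, hδ, hgap⟩ := exists_gap hDfin
  have hpi := Real.pi_pos
  obtain ⟨T₂, hT₂⟩ := tendsto_vd (K := K * K₁) (δ := Real.pi * δ) (by positivity)
  refine ⟨max T₀ (max T₂ (1 / η)), fun τ y hτ s hs hz => ?_⟩
  have hτ0 : T₀ ≤ τ.im := (le_max_left _ _).trans hτ
  have hτ2 : T₂ ≤ τ.im := (le_max_left _ _).trans ((le_max_right _ _).trans hτ)
  have hτ3 : 1 / η ≤ τ.im := (le_max_right _ _).trans ((le_max_right _ _).trans hτ)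
  have hτη : 1 ≤ η * τ.im := by
    rw [div_le_iff₀ hη] at hτ3
    linarith
  have hT1 : 1 ≤ τ.im := hT₀.trans hτ0
  have hT0 : 0 < τ.im := by linarith
  have hp := pt_mem (x := x) hT0 (fun i => (y i : ℂ))
  set p := pt x τ (fun i => (y i : ℂ)) with hpdef
  set q := bf G x x with hqdef
  have hq0 : 0 ≤ q := h.nonneg _
  -- the zeros with their walls
  have hwall : ∀ s : ℂ, ‖s‖ < rad G x η τ.im → gp φ C m p s = 0 →
      ∃ (ω : ℂ) (b m' n' : ℤ) (μ : Fin 20 → ℤ), ee ω = s ∧ 0 < m' ∧ 3 * m' ^ 2 < 4 * (m : ℤ) ∧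
      |n'| ≤ ⌈3 + 2 * m * qm⌉ ∧ (∀ i, |μ i| ≤ Q0) ∧
      WEq G 0 b m' n' μ (ω, p) ∧ ω.im / τ.im - q / 2 = hw G x (m', n', μ) ∧
      η < ω.im / τ.im - q / 2 := fun s hs hz =>
    zero_wall_two h H hg hQ0 hq y hT1 hτη hs hz
  -- the set of heights of zeros
  set Z : Set ℝ := {t | t ∈ S ∧ ∃ ω : ℂ, gp φ C m p (ee ω) = 0 ∧ η < t ∧ ω.im / τ.im - q / 2 = t}
    with hZ
  have hZfin : Z.Finite := hSfin.subset fun t ht => ht.1
  have hmem : ∀ (m' n' : ℤ) (μ : Fin 20 → ℤ), 0 < m' → 3 * m' ^ 2 < 4 * (m : ℤ) →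
      |n'| ≤ ⌈3 + 2 * m * qm⌉ → (∀ i, |μ i| ≤ Q0) → (m', n', μ) ∈ W0 := by
    intro m' n' μ h1 h2 h3 h4
    refine ⟨h1, ?_, h3, h4⟩
    show m' ≤ 2 * (m : ℤ)
    nlinarith
  have hZne : Z.Nonempty := by
    obtain ⟨ω, b, m', n', μ, hω, h1, h2, h3, h4, h5, h6, h7⟩ := hwall s hs hz
    exact ⟨ω.im / τ.im - q / 2, ⟨(m', n', μ), hmem m' n' μ h1 h2 h3 h4, h6.symm⟩, ω,
      by rw [hω]; exact hz, h7, rfl⟩
  obtain ⟨t, ⟨htS, ω₁, hω₁z, htη, htω₁⟩, hmax⟩ := Set.exists_max_image Z id hZfin hZne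
  simp only [id] at hmax
  have hδη : δ ≤ t - η :=
    hgap _ ⟨(t, η), ⟨Or.inl htS, Or.inr rfl⟩, rfl⟩ (by linarith)
  -- norms and heights
  have hnorm : ∀ ω : ℂ, ‖ee ω‖ = rad G x (ω.im / τ.im - q / 2) τ.im := by
    intro ω
    rw [norm_ee]
    unfold rad
    congr 2
    rw [← hqdef]
    field_simp
    ring
  have hradlt : ∀ a b : ℝ, rad G x a τ.im ≤ rad G x b τ.im → b ≤ a := by
    intro a b hab
    unfold rad at hab
    rw [Real.exp_le_exp] at hab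
    by_contra hcon
    push Not at hcon
    have h1 : (a + bf G x x / 2) * τ.im < (b + bf G x x / 2) * τ.im := by gcongr
    have h2 := mul_lt_mul_of_pos_left h1 (by positivity : 0 < 2 * Real.pi)
    linarith
  have hradlt2 : ∀ a b : ℝ, b < a → rad G x a τ.im < rad G x b τ.im := by
    intro a b hab
    by_contra hcon
    push Not at hcon
    have := hradlt b a hcon
    linarith
  set R1 := rad G x (t - δ / 2) τ.im with hR1
  have hR10 : 0 < R1 := rad_pos _ _ _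
  have hR1η : R1 < rad G x η τ.im := hradlt2 _ _ (by linarith)
  -- zeros in the closed disc have height `t`
  have hzero : ∀ s : ℂ, ‖s‖ ≤ R1 → gp φ C m p s = 0 →
      ∃ (ω : ℂ) (b m' n' : ℤ) (μ : Fin 20 → ℤ), ee ω = s ∧ 0 < m' ∧ 3 * m' ^ 2 < 4 * (m : ℤ) ∧
      (∀ i, |μ i| ≤ Q0) ∧ WEq G 0 b m' n' μ (ω, p) ∧ hw G x (m', n', μ) = t ∧
      ω.im / τ.im - q / 2 = t := by
    intro s hs hz
    obtain ⟨ω, b, m', n', μ, hω, h1, h2, h3, h4, h5, h6, h7⟩ := hwall s (hs.trans_lt hR1η) hz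
    have hSm : hw G x (m', n', μ) ∈ S := ⟨(m', n', μ), hmem m' n' μ h1 h2 h3 h4, rfl⟩
    have hle : ω.im / τ.im - q / 2 ≤ t :=
      hmax _ ⟨by rw [h6]; exact hSm, ω, by rw [hω]; exact hz, h7, rfl⟩
    have hge : t - δ / 2 ≤ ω.im / τ.im - q / 2 := by
      apply hradlt
      rw [← hnorm, hω]
      exact hs
    have heq : ω.im / τ.im - q / 2 = t := by
      by_contra hne
      have hlt : ω.im / τ.im - q / 2 < t := lt_of_le_of_ne hle hne
      have := hgap (t - (ω.im / τ.im - q / 2))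
        ⟨(t, ω.im / τ.im - q / 2), ⟨Or.inl htS, Or.inl (by rw [h6]; exact hSm)⟩, rfl⟩ (by linarith)
      linarith
    exact ⟨ω, b, m', n', μ, hω, h1, h2, h4, h5, by rw [← h6]; exact heq, heq⟩
  -- the first zero
  have hs1 : ‖ee ω₁‖ ≤ R1 := by
    rw [hnorm, htω₁]
    exact (hradlt2 _ _ (by linarith)).le
  obtain ⟨ω₀, b₀, m₀, n₀, μ₀, hω₀, hm₀, hm₀', hμ₀, hE₀, hh₀, ht₀⟩ := hzero _ hs1 hω₁z
  have hm₀C : (m₀ : ℂ) ≠ 0 := by exact_mod_cast hm₀.ne'
  have hm₀R : (m₀ : ℝ) ≠ 0 := by exact_mod_cast hm₀.ne'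
  set a₀ : ℂ := ee (ω₀ + b₀ / m₀) with ha₀
  have hna₀ : ‖a₀‖ = rad G x t τ.im := by
    have h1 : ‖a₀‖ = ‖ee ω₀‖ := by
      rw [ha₀, norm_ee, norm_ee]
      have : (ω₀ + (b₀ : ℂ) / (m₀ : ℂ)).im = ω₀.im := by
        have e1 : (b₀ : ℂ) / (m₀ : ℂ) = ((b₀ / m₀ : ℝ) : ℂ) := by push_cast; rfl
        rw [e1, Complex.add_im, Complex.ofReal_im, add_zero]
      rw [this]
    rw [h1, hnorm, ht₀]
  have hprop : ∀ s : ℂ, ‖s‖ ≤ R1 → gp φ C m p s = 0 → ∃ ε ∈ roots1 m, s = a₀ * ε := by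
    intro s hs hz
    obtain ⟨ω, b, m', n', μ, hω, hm', hm'', hμ, hE, hh, ht'⟩ := hzero s hs hz
    have hm'C : (m' : ℂ) ≠ 0 := by exact_mod_cast hm'.ne'
    have hm'R : (m' : ℝ) ≠ 0 := by exact_mod_cast hm'.ne'
    have h0le : |m'| ≤ 2 * (m : ℤ) := by
      rw [abs_of_pos hm']
      nlinarith
    have h0le' : |m₀| ≤ 2 * (m : ℤ) := by
      rw [abs_of_pos hm₀]
      nlinarith
    have hdt : dt (m' • μ₀ - m₀ • μ) x = ((m₀ * n' - m' * n₀ : ℤ) : ℝ) := by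
      have e1 : dt (m' • μ₀ - m₀ • μ) x = m' * dt μ₀ x - m₀ * dt μ x := by
        simp only [dt, Finset.mul_sum, ← Finset.sum_sub_distrib]
        refine Finset.sum_congr rfl fun i _ => ?_
        simp only [Pi.sub_apply, Pi.smul_apply, smul_eq_mul]
        push_cast
        ring
      rw [e1]
      have e2 : -((n₀ : ℝ) + dt μ₀ x) / m₀ = -((n' : ℝ) + dt μ x) / m' := by
        have h1 := hh₀.trans hh.symm
        unfold hw at h1
        simp only at h1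
        linarith
      rw [div_eq_div_iff hm₀R hm'R] at e2
      push_cast
      linarith
    have hν : m' • μ₀ - m₀ • μ = 0 := by
      by_contra hne
      refine hgen _ hne ?_ _ hdt
      intro i
      simp only [Pi.sub_apply, Pi.smul_apply, smul_eq_mul]
      calc |m' * μ₀ i - m₀ * μ i| ≤ |m' * μ₀ i| + |m₀ * μ i| := abs_sub _ _
        _ = |m'| * |μ₀ i| + |m₀| * |μ i| := by rw [abs_mul, abs_mul]
        _ ≤ 2 * (m : ℤ) * Q0 + 2 * (m : ℤ) * Q0 := by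
            gcongr
            · exact hμ₀ i
            · exact hμ i
        _ = ((4 * m * Q0 : ℕ) : ℤ) := by push_cast; ring
    have hn : m₀ * n' = m' * n₀ := by
      rw [hν] at hdt
      have h1 : dt (0 : Fin 20 → ℤ) x = 0 := by simp [dt]
      rw [h1] at hdt
      have : (m₀ * n' - m' * n₀ : ℤ) = 0 := by exact_mod_cast hdt.symm
      linarith
    have hdtC : (m' : ℂ) * dt μ₀ p.2 = m₀ * dt μ p.2 := by
      have h1 : dt (m' • μ₀ - m₀ • μ) p.2 = m' * dt μ₀ p.2 - m₀ * dt μ p.2 := by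
        simp only [dt, Finset.mul_sum, ← Finset.sum_sub_distrib]
        refine Finset.sum_congr rfl fun i _ => ?_
        simp only [Pi.sub_apply, Pi.smul_apply, smul_eq_mul]
        push_cast
        ring
      rw [hν] at h1
      have h2 : dt (0 : Fin 20 → ℤ) p.2 = 0 := by simp [dt]
      rw [h2] at h1
      linear_combination -h1
    have hωω : ω = ω₀ + b₀ / m₀ + -(b / m') := by
      unfold WEq at hE hE₀
      simp only [Int.cast_zero, zero_mul, zero_add] at hE hE₀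
      have hnC : (m₀ : ℂ) * n' = m' * n₀ := by exact_mod_cast hn
      have h3 : (m₀ : ℂ) * m' * ω = m₀ * m' * (ω₀ + b₀ / m₀ + -(b / m')) := by
        field_simp
        linear_combination m₀ * hE - m' * hE₀ + hdtC - p.1 * hnC
      exact mul_left_cancel₀ (mul_ne_zero hm₀C hm'C) h3
    refine ⟨ee (-(b / m')), ?_, ?_⟩
    · obtain ⟨d, hd⟩ := Int.eq_ofNat_of_zero_le hm'.le
      have hd0 : 0 < d := by omega
      refine mem_roots1 hd0 ?_ ?_
      · rw [hd] at hm''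
        exact_mod_cast hm''
      · rw [← ee_pow]
        have : (d : ℂ) * -((b : ℂ) / (m' : ℂ)) = ((-b : ℤ) : ℂ) := by
          have hdC : (m' : ℂ) = (d : ℂ) := by rw [hd]; simp
          rw [hdC] at hm'C ⊢
          push_cast
          field_simp
        rw [this, Pool.Agent.Y813.RL.ee_int]
    · rw [ha₀, ← Pool.Agent.Y813.RL.ee_add, ← hω, hωω]
  -- the analytic functions
  have hφ0 : φ C p ≠ 0 := by
    apply leading_ne_zero h H.tf H.fd H.hC H.hne hp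
    apply not_mir_of_genX hp
    rw [hpdef, xp_pt_real hT0]
    exact hg
  set R2 := Real.exp (-(2 * Real.pi * bh G p)) with hR2
  have hR12 : R1 < R2 := by
    rw [hR1, hR2]
    unfold rad
    rw [Real.exp_lt_exp, hpdef, bh_pt x hT0 y]
    have ht0 : 0 < t - δ / 2 := by linarith
    have h1 : τ.im * (bf G x x / 2) < (t - δ / 2 + bf G x x / 2) * τ.im := by nlinarith
    have h2 := mul_lt_mul_of_pos_left h1 (by positivity : 0 < 2 * Real.pi)
    linarith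
  have hmaps : ∀ z ∈ Metric.closedBall (0 : ℂ) 1, (R1 : ℂ) * z ∈ Metric.ball (0 : ℂ) R2 := by
    intro z hz
    rw [Metric.mem_closedBall, dist_zero_right] at hz
    rw [Metric.mem_ball, dist_zero_right, norm_mul, Complex.norm_real, Real.norm_eq_abs,
      abs_of_pos hR10]
    calc R1 * ‖z‖ ≤ R1 * 1 := by gcongr
      _ = R1 := mul_one _
      _ < R2 := hR12
  have han : ∀ f : ℂ → ℂ, DifferentiableOn ℂ f (Metric.ball 0 R2) →
      AnalyticOnNhd ℂ (fun z => f (R1 * z)) (Metric.closedBall 0 1) := by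
    intro f hf z hz
    have h1 : AnalyticAt ℂ f (R1 * z) :=
      (hf.analyticOnNhd Metric.isOpen_ball) _ (hmaps z hz)
    have h2 : AnalyticAt ℂ (fun z : ℂ => (R1 : ℂ) * z) z := by fun_prop
    exact AnalyticAt.fun_comp h1 h2
  have hnR1 : ∀ z ∈ Metric.closedBall (0 : ℂ) 1, ‖(R1 : ℂ) * z‖ ≤ R1 := by
    intro z hz
    rw [Metric.mem_closedBall, dist_zero_right] at hz
    rw [norm_mul, Complex.norm_real, Real.norm_eq_abs, abs_of_pos hR10]
    calc R1 * ‖z‖ ≤ R1 * 1 := by gcongr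
      _ = R1 := mul_one _
  have hR1C : (R1 : ℂ) ≠ 0 := by exact_mod_cast hR10.ne'
  have hna : ‖a₀ / (R1 : ℂ)‖ = Real.exp (-(Real.pi * δ * τ.im)) := by
    rw [norm_div, hna₀, Complex.norm_real, Real.norm_eq_abs, abs_of_pos hR10, hR1]
    unfold rad
    rw [← Real.exp_sub]
    congr 1
    ring
  have hfin := hvd (fun z => gp φ C m p (R1 * z)) (fun z => (R1 : ℂ) ^ m * (Hs φ C m p (R1 * z) / φ C p))
    (a₀ / R1) (K₁ * τ.im) (by rw [hna]; exact Real.exp_pos _)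
    (by rw [hna]; exact (hT₂ _ hτ2).2) (han _ (H.gp_diff hp)) (by
      have h1 := han _ ((H.Hs_diff hp).div_const (φ C p))
      exact analyticOnNhd_const.mul h1) (by
      intro z _
      simp only [gp]
      ring) (by
      intro z hz
      exact hM τ y hτ0 _ ((hnR1 z hz).trans hR1η.le)) (by
      intro z hz hz0
      obtain ⟨ε, hε, hse⟩ := hprop _ (hnR1 z hz) hz0
      refine ⟨ε, hε, ?_⟩
      have : z = (R1 * z) / R1 := by field_simp
      rw [this, hse]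
      ring) (by
      refine ⟨ee ω₁ / R1, ?_, ?_⟩
      · rw [Metric.mem_closedBall, dist_zero_right, norm_div, Complex.norm_real, Real.norm_eq_abs,
          abs_of_pos hR10, div_le_one hR10]
        exact hs1
      · show gp φ C m p (R1 * (ee ω₁ / R1)) = 0
        rw [mul_div_cancel₀ _ hR1C]
        exact hω₁z)
  rw [hna] at hfin
  have := (hT₂ _ hτ2).1
  have e1 : K * (K₁ * τ.im) * Real.exp (-(Real.pi * δ * τ.im)) =
      K * K₁ * τ.im * Real.exp (-(Real.pi * δ * τ.im)) := by ring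
  rw [e1] at hfin
  linarith

end

end Pool.Agent.Run7.h352.RL
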